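import Pool.Agent.GDT.Defs
import Pool.Agent.GD.TDefs

set_option autoImplicit false

namespace Pool.Agent.GDT

open Pool.Agent

variable {V Z : Type} [Finite V] {G : SimpleGraph V} {s : V → Prop} {W : Set V} {e : V → Z → Prop}

open Classical in
/-- sign as a Boolean function -/
noncomputable def sg (s : V → Prop) : V → Bool := fun v => decide (s v)

/-- observers as a set of sets -/
def obs (e : V → Z → Prop) : Set (Set V) := Set.range fun y => {v | e v y}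

/-- translation of kinds -/
def tk : Kd → GD.Kd
  | Kd.Z => GD.Kd.Z
  | Kd.O => GD.Kd.O
  | Kd.P => GD.Kd.P

theorem tr_gr : Gr G.Adj := ⟨fun _ _ h => h.symm, fun _ h => G.irrefl h⟩

theorem tr_mod {U : Set V} : IsMod G.Adj W U ↔ GD.IsMod G W U := Iff.rfl

/-! ### auxiliary lemmas -/

lemma sg_false {v : V} : sg s v = false ↔ ¬ s v := by simp [sg]

lemma sg_true {v : V} : sg s v = true ↔ s v := by simp [sg]

lemma cs_sg_false {v : V} : cs (sg s) v = false ↔ s v := by simp [sg, cs]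

lemma obs_noObs : obs (GD.noObs : V → Empty → Prop) = ∅ := by
  exact Set.range_eq_empty _

lemma even_pair {i j : V} (hij : i ≠ j) (P : V → Prop) :
    Even {x ∈ ({i, j} : Set V) | P x}.ncard ↔ (P i ↔ P j) := by
  classical
  have h : {x ∈ ({i, j} : Set V) | P x} = ((({i, j} : Finset V).filter P : Finset V) : Set V) := by
    ext x; simp
  rw [h, Set.ncard_coe_finset]
  by_cases h1 : P i <;> by_cases h2 : P j <;>
    simp [Finset.filter_insert, Finset.filter_singleton, h1, h2, hij]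

lemma even_quad {a b c d : V} (hab : a ≠ b) (hac : a ≠ c) (had : a ≠ d) (hbc : b ≠ c)
    (hbd : b ≠ d) (hcd : c ≠ d) (P : V → Prop) :
    Even {x ∈ ({a, b, c, d} : Set V) | P x}.ncard ↔ ((P a ↔ P d) ↔ (P b ↔ P c)) := by
  classical
  have h : {x ∈ ({a, b, c, d} : Set V) | P x} =
      ((({a, b, c, d} : Finset V).filter P : Finset V) : Set V) := by
    ext x; simp
  rw [h, Set.ncard_coe_finset]
  by_cases h1 : P a <;> by_cases h2 : P b <;> by_cases h3 : P c <;> by_cases h4 : P d <;>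
    simp [Finset.filter_insert, Finset.filter_singleton, h1, h2, h3, h4, hab, hac, had, hbc,
      hbd, hcd] <;> decide

lemma hub_pair {i j y : V} (hij : i ≠ j) :
    GD.Hub G {i, j} y ↔ y ≠ i ∧ y ≠ j ∧ (G.Adj y i ↔ G.Adj y j) := by
  unfold GD.Hub
  rw [even_pair hij (fun x => G.Adj y x)]
  simp only [Set.mem_insert_iff, Set.mem_singleton_iff, not_or, ne_eq]
  tauto

lemma hubO_pair {i j : V} {y : Z} (hij : i ≠ j) :
    GD.HubO e {i, j} y ↔ (e i y ↔ e j y) := by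
  unfold GD.HubO
  exact even_pair hij (fun x => e x y)

lemma quad_ne {σ : V → Bool} {e₁ m₁ m₂ e₂ : V} (h : Quad G.Adj σ W e₁ m₁ m₂ e₂) :
    e₁ ≠ m₁ ∧ e₁ ≠ m₂ ∧ e₁ ≠ e₂ ∧ m₁ ≠ m₂ ∧ m₁ ≠ e₂ ∧ m₂ ≠ e₂ :=
  ⟨h.a12.ne, h.d13, h.d14, h.a23.ne, h.d24, h.a34.ne⟩

lemma hub_quad {σ : V → Bool} {e₁ m₁ m₂ e₂ y : V} (h : Quad G.Adj σ W e₁ m₁ m₂ e₂) :
    GD.Hub G {e₁, m₁, m₂, e₂} y ↔ Off e₁ m₁ m₂ e₂ y ∧ HubQ G.Adj e₁ m₁ m₂ e₂ y := by
  obtain ⟨n1, n2, n3, n4, n5, n6⟩ := quad_ne h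
  unfold GD.Hub Off HubQ
  rw [even_quad n1 n2 n3 n4 n5 n6 (fun x => G.Adj y x)]
  simp only [Set.mem_insert_iff, Set.mem_singleton_iff, not_or, ne_eq]

lemma hubO_quad {σ : V → Bool} {e₁ m₁ m₂ e₂ : V} {y : Z} (h : Quad G.Adj σ W e₁ m₁ m₂ e₂) :
    GD.HubO e {e₁, m₁, m₂, e₂} y ↔ HubOQ e₁ m₁ m₂ e₂ {v | e v y} := by
  obtain ⟨n1, n2, n3, n4, n5, n6⟩ := quad_ne h
  unfold GD.HubO HubOQ
  rw [even_quad n1 n2 n3 n4 n5 n6 (fun x => e x y)]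
  rfl

lemma tw_pair {i j x k : V} (h : GD.Tw G s {i, j} x k) :
    (x = i ∨ x = j) ∧ k ≠ i ∧ k ≠ j := by
  obtain ⟨h1, h2, -, -⟩ := h
  simp only [Set.mem_insert_iff, Set.mem_singleton_iff, not_or] at h1 h2
  exact ⟨h1, h2.1, h2.2⟩

/-- good 0-pairs -/
lemma good_Z {i j : V} (h : Good0 G.Adj (sg s) W (obs e) i j) :
    GD.Good G s W e GD.Kd.Z {i, j} := by
  obtain ⟨hp, hb⟩ := h
  have si := sg_false.1 hp.si
  have sj := sg_false.1 hp.sj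
  refine ⟨⟨i, j, hp.hi, hp.hj, hp.ne, si, sj, hp.nadj, rfl⟩, ?_⟩
  rintro K ⟨hKn, hKW, hK⟩
  refine hb K ⟨hKn, hKW, fun k hk => ?_⟩
  obtain ⟨x, hx, hy, hobs⟩ := hK k hk
  obtain ⟨hxij, hki, hkj⟩ := tw_pair hx
  have hji : ¬ G.Adj j i := fun h => hp.nadj h.symm
  have ht : ¬ G.Adj k i ∧ ¬ G.Adj k j := by
    obtain ⟨-, -, h3, h4⟩ := hx
    rcases hxij with rfl | rfl
    · refine ⟨fun h => si (h3.1 h), fun h => hp.nadj ((h4 j (by simp) hp.ne.symm).1 h)⟩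
    · refine ⟨fun h => hji ((h4 i (by simp) hp.ne).1 h), fun h => sj (h3.1 h)⟩
  refine ⟨hki, hkj, ht.1, ht.2, fun y hyW hyK => ⟨fun h1 h2 => ?_, fun h1 h2 h3 => ?_⟩, ?_⟩
  · have hhub : GD.Hub G {i, j} y := (hub_pair hp.ne).2 ⟨h1.ne, h2.ne, iff_of_true h1 h2⟩
    refine (hy y hyW hyK hhub).2 ?_
    rcases hxij with rfl | rfl
    · exact h1.symm
    · exact h2.symm
  · have hyi : y ≠ i := by rintro rfl; exact ht.1 h3
    have hyj : y ≠ j := by rintro rfl; exact ht.2 h3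
    have hhub : GD.Hub G {i, j} y := (hub_pair hp.ne).2 ⟨hyi, hyj, iff_of_false h1 h2⟩
    have := (hy y hyW hyK hhub).1 h3
    rcases hxij with rfl | rfl
    · exact h1 this.symm
    · exact h2 this.symm
  · rintro o ⟨y, rfl⟩ ho
    simp only [Set.mem_ofPred_eq] at ho ⊢
    have := hobs y ((hubO_pair hp.ne).2 ho)
    rcases hxij with rfl | rfl
    · exact this
    · exact this.trans ho.symm

lemma link_Z {i j : V} (hp : Pair0 G.Adj (sg s) W i j) (h : Link0 G.Adj W i j) :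
    GD.Linked G s W {i, j} := by
  obtain ⟨w, hw, h1, h2⟩ := h
  refine ⟨w, hw, (hub_pair hp.ne).2 ⟨h1.ne, h2.ne, iff_of_true h1 h2⟩, fun x hx => ?_⟩
  obtain ⟨hxij, -, -⟩ := tw_pair hx
  obtain ⟨-, -, h3, -⟩ := hx
  rcases hxij with rfl | rfl
  · exact sg_false.1 hp.si (h3.1 h1)
  · exact sg_false.1 hp.sj (h3.1 h2)

lemma pairO {i j : V} (hp : Pair0 (co G.Adj) (cs (sg s)) W i j) :
    i ≠ j ∧ s i ∧ s j ∧ G.Adj i j := by
  refine ⟨hp.ne, cs_sg_false.1 hp.si, cs_sg_false.1 hp.sj, ?_⟩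
  have := hp.nadj
  rw [co_iff hp.ne] at this
  exact not_not.1 this

/-- good 1-pairs -/
lemma good_O {i j : V} (h : Good0 (co G.Adj) (cs (sg s)) W (obs e) i j) :
    GD.Good G s W e GD.Kd.O {i, j} := by
  obtain ⟨hp, hb⟩ := h
  obtain ⟨hne, si, sj, hadj⟩ := pairO hp
  refine ⟨⟨i, j, hp.hi, hp.hj, hp.ne, si, sj, hadj, rfl⟩, ?_⟩
  rintro K ⟨hKn, hKW, hK⟩
  refine hb K ⟨hKn, hKW, fun k hk => ?_⟩
  obtain ⟨x, hx, hy, hobs⟩ := hK k hk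
  obtain ⟨hxij, hki, hkj⟩ := tw_pair hx
  have ht : G.Adj k i ∧ G.Adj k j := by
    obtain ⟨-, -, h3, h4⟩ := hx
    rcases hxij with rfl | rfl
    · exact ⟨h3.2 si, (h4 j (by simp) hne.symm).2 hadj⟩
    · exact ⟨(h4 i (by simp) hne).2 hadj.symm, h3.2 sj⟩
  refine ⟨hki, hkj, fun h => h.2 ht.1, fun h => h.2 ht.2,
    fun y hyW hyK => ⟨fun h1 h2 => ?_, fun h1 h2 h3 => ?_⟩, ?_⟩
  · have hhub : GD.Hub G {i, j} y := (hub_pair hne).2 ⟨h1.1, h2.1, iff_of_false h1.2 h2.2⟩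
    refine ⟨fun h => hyK (h ▸ hk), fun h => ?_⟩
    have := (hy y hyW hyK hhub).1 h
    rcases hxij with rfl | rfl
    · exact h1.2 this.symm
    · exact h2.2 this.symm
  · have hyi : y ≠ i := by rintro rfl; exact h3.2 ht.1
    have hyj : y ≠ j := by rintro rfl; exact h3.2 ht.2
    rw [co_iff hyi, not_not] at h1
    rw [co_iff hyj, not_not] at h2
    have hhub : GD.Hub G {i, j} y := (hub_pair hne).2 ⟨hyi, hyj, iff_of_true h1 h2⟩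
    refine h3.2 ((hy y hyW hyK hhub).2 ?_)
    rcases hxij with rfl | rfl
    · exact h1.symm
    · exact h2.symm
  · rintro o ⟨y, rfl⟩ ho
    simp only [Set.mem_ofPred_eq] at ho ⊢
    have := hobs y ((hubO_pair hne).2 ho)
    rcases hxij with rfl | rfl
    · exact this
    · exact this.trans ho.symm

lemma link_O {i j : V} (hp : Pair0 (co G.Adj) (cs (sg s)) W i j)
    (h : Link0 (co G.Adj) W i j) : GD.Linked G s W {i, j} := by
  obtain ⟨hne, si, sj, -⟩ := pairO hp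
  obtain ⟨w, hw, h1, h2⟩ := h
  refine ⟨w, hw, (hub_pair hne).2 ⟨h1.1, h2.1, iff_of_false h1.2 h2.2⟩, fun x hx => ?_⟩
  obtain ⟨hxij, -, -⟩ := tw_pair hx
  obtain ⟨-, -, h3, -⟩ := hx
  rcases hxij with rfl | rfl
  · exact h1.2 (h3.2 si)
  · exact h2.2 (h3.2 sj)

lemma tw_quad {e₁ m₁ m₂ e₂ x k : V} (hq : Quad G.Adj (sg s) W e₁ m₁ m₂ e₂)
    (h : GD.Tw G s {e₁, m₁, m₂, e₂} x k) :
    Off e₁ m₁ m₂ e₂ k ∧ OddT G.Adj e₁ m₁ m₂ e₂ k x := by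
  obtain ⟨n1, n2, n3, n4, n5, n6⟩ := quad_ne hq
  have s1 : s e₁ := sg_true.1 hq.s1
  have s2 : ¬ s m₁ := sg_false.1 hq.s2
  have s3 : ¬ s m₂ := sg_false.1 hq.s3
  have s4 : s e₂ := sg_true.1 hq.s4
  have a12 := hq.a12
  have a23 := hq.a23
  have a34 := hq.a34
  have a21 := hq.a12.symm
  have a32 := hq.a23.symm
  have a43 := hq.a34.symm
  have n13 := hq.n13
  have n14 := hq.n14
  have n24 := hq.n24
  have n31 : ¬ G.Adj m₂ e₁ := fun h => n13 h.symm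
  have n41 : ¬ G.Adj e₂ e₁ := fun h => n14 h.symm
  have n42 : ¬ G.Adj e₂ m₁ := fun h => n24 h.symm
  obtain ⟨h1, h2, h3, h4⟩ := h
  have g1 := h4 e₁ (by simp)
  have g2 := h4 m₁ (by simp)
  have g3 := h4 m₂ (by simp)
  have g4 := h4 e₂ (by simp)
  simp only [Set.mem_insert_iff, Set.mem_singleton_iff, not_or] at h1 h2
  refine ⟨⟨h2.1, h2.2.1, h2.2.2.1, h2.2.2.2⟩, ?_⟩
  unfold OddT
  rcases h1 with rfl | rfl | rfl | rfl
  · left
    exact ⟨h3.2 s1, (g2 n1.symm).2 a12, fun h => n13 ((g3 n2.symm).1 h),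
      fun h => n14 ((g4 n3.symm).1 h), rfl⟩
  · right; right; left
    exact ⟨(g1 n1).2 a21, fun h => s2 (h3.1 h), (g3 n4.symm).2 a23,
      fun h => n24 ((g4 n5.symm).1 h), rfl⟩
  · right; right; right
    exact ⟨fun h => n31 ((g1 n2).1 h), (g2 n4).2 a32, fun h => s3 (h3.1 h),
      (g4 n6.symm).2 a34, rfl⟩
  · right; left
    exact ⟨fun h => n41 ((g1 n3).1 h), fun h => n42 ((g2 n5).1 h), (g3 n6).2 a43,
      h3.2 s4, rfl⟩

/-- good quads -/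
lemma good_P {e₁ m₁ m₂ e₂ : V} (h : GoodQ G.Adj (sg s) W (obs e) e₁ m₁ m₂ e₂) :
    GD.Good G s W e GD.Kd.P {e₁, m₁, m₂, e₂} := by
  obtain ⟨hq, hb⟩ := h
  obtain ⟨n1, n2, n3, n4, n5, n6⟩ := quad_ne hq
  refine ⟨⟨e₁, m₁, m₂, e₂, hq.h1, hq.h2, hq.h3, hq.h4, sg_true.1 hq.s1, sg_true.1 hq.s4,
    sg_false.1 hq.s2, sg_false.1 hq.s3, n3, n4, hq.a12, hq.a23, hq.a34, hq.n13, hq.n14, hq.n24,
    rfl⟩, ?_⟩
  rintro K ⟨hKn, hKW, hK⟩
  refine hb K ⟨hKn, hKW, fun k hk => ?_⟩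
  obtain ⟨x, hx, hy, hobs⟩ := hK k hk
  obtain ⟨hoff, hodd⟩ := tw_quad hq hx
  refine ⟨hoff, x, hodd, fun y hyW hyK hyo hyh => ?_, ?_⟩
  · have := hy y hyW hyK ((hub_quad hq).2 ⟨hyo, hyh⟩)
    rw [this]
    exact ⟨fun h => h.symm, fun h => h.symm⟩
  · rintro o ⟨y, rfl⟩ ho
    exact hobs y ((hubO_quad hq).2 ho)

lemma link_P {e₁ m₁ m₂ e₂ : V} (hq : Quad G.Adj (sg s) W e₁ m₁ m₂ e₂)
    (h : LinkQ G.Adj W e₁ m₁ m₂ e₂) : GD.Linked G s W {e₁, m₁, m₂, e₂} := by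
  obtain ⟨w, hw, ho, he⟩ := h
  refine ⟨w, hw, (hub_quad hq).2 ⟨ho, iff_of_true he.1 he.2⟩, fun x hx => ?_⟩
  obtain ⟨-, hodd⟩ := tw_quad hq hx
  unfold OddT at hodd
  unfold EvenT at he
  tauto

/-! ### the translation -/

theorem tr_prime (h : GD.PrimeOn G W) : Prime G.Adj W := by
  intro U hU
  rcases h.2 U hU with h1 | h1
  · exact Or.inl ((Set.ncard_le_one_iff_subsingleton).1 h1)
  · exact Or.inr h1

theorem tr_prime' (h : Prime G.Adj W) (h4 : 4 ≤ W.ncard) : GD.PrimeOn G W := by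
  refine ⟨h4, fun U hU => ?_⟩
  rcases h U hU with h1 | h1
  · exact Or.inl ((Set.ncard_le_one_iff_subsingleton).2 h1)
  · exact Or.inr h1

theorem tr_disc {U : Set V} : Disc G.Adj U ↔ GD.Disc G U := by
  constructor
  · rintro ⟨C, hC, hn, ⟨y, hy, hyC⟩, h⟩
    exact ⟨C, hC, hn, ⟨y, hy, hyC⟩, fun x hx y hy => h x hx y hy.1 hy.2⟩
  · rintro ⟨C, hC, hn, ⟨y, hy, hyC⟩, h⟩
    exact ⟨C, hC, hn, ⟨y, hy, hyC⟩, fun x hx y hy hyC => h x hx y ⟨hy, hyC⟩⟩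

theorem tr_codisc {U : Set V} : Disc (co G.Adj) U ↔ GD.CoDisc G U := by
  constructor
  · rintro ⟨C, hC, hn, ⟨y, hy, hyC⟩, h⟩
    refine ⟨C, hC, hn, ⟨y, hy, hyC⟩, fun x hx y hy => ?_⟩
    have h1 := h x hx y hy.1 hy.2
    have hne : x ≠ y := fun hxy => hy.2 (hxy ▸ hx)
    rw [co_iff hne, not_not] at h1
    exact h1
  · rintro ⟨C, hC, hn, ⟨y, hy, hyC⟩, h⟩
    exact ⟨C, hC, hn, ⟨y, hy, hyC⟩, fun x hx y hy hyC h1 => h1.2 (h x hx y ⟨hy, hyC⟩)⟩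

theorem tr_sep (h : GD.Sep G W e) : Sep G.Adj W (obs e) := by
  intro U hU hn
  have h2 : 2 ≤ U.ncard := (Set.one_lt_ncard_iff_nontrivial).2 hn
  obtain ⟨y, u, hu, u', hu', h3, h4⟩ := h U hU h2
  exact ⟨_, ⟨y, rfl⟩, u, hu, u', hu', h3, h4⟩

theorem tr_closed0 {Q : Set V} (hQ : GD.IsMod G W Q) (hn : Q.Nonempty) (h : GD.Closed0 G W Q) :
    Tight G.Adj W Q := by
  intro K hKn hKW hd ha hm
  have hK : K ⊆ W \ Q := fun k hk => ⟨hKW hk, fun hq => Set.disjoint_left.1 hd hk hq⟩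
  refine h K hKn hK ha fun k hk q hq w hw hwQ hwK => ?_
  have hwn : w ∉ Q ∪ K := fun h => h.elim hwQ hwK
  rcases hm.2 w hw hwn with h1 | h1
  · exact iff_of_true (h1 k (Or.inr hk)).symm (h1 q (Or.inl hq)).symm
  · exact iff_of_false (fun h => h1 k (Or.inr hk) h.symm) (fun h => h1 q (Or.inl hq) h.symm)

theorem tr_closed1 {Q : Set V} (hQ : GD.IsMod G W Q) (hn : Q.Nonempty) (h : GD.Closed1 G W Q) :
    Tight (co G.Adj) W Q := by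
  intro K hKn hKW hd ha hm
  rw [isMod_co tr_gr] at hm
  have hK : K ⊆ W \ Q := fun k hk => ⟨hKW hk, fun hq => Set.disjoint_left.1 hd hk hq⟩
  have ha' : ∀ k ∈ K, ∀ q ∈ Q, G.Adj k q := by
    intro k hk q hq
    have h1 := ha k hk q hq
    have hne : k ≠ q := fun h => Set.disjoint_left.1 hd hk (h ▸ hq)
    rw [co_iff hne, not_not] at h1
    exact h1
  refine h K hKn hK ha' fun k hk q hq w hw hwQ hwK => ?_
  have hwn : w ∉ Q ∪ K := fun h => h.elim hwQ hwK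
  rcases hm.2 w hw hwn with h1 | h1
  · exact iff_of_true (h1 k (Or.inr hk)).symm (h1 q (Or.inl hq)).symm
  · exact iff_of_false (fun h => h1 k (Or.inr hk) h.symm) (fun h => h1 q (Or.inl hq) h.symm)

theorem tr_CG {c : Kd} (h : CG G.Adj (sg s) W (obs e) c) :
    ∃ k J, GD.CGood G s W e (tk c) k J := by
  rcases h with ⟨i, j, h, hl⟩ | ⟨i, j, h, hl⟩ | ⟨e₁, m₁, m₂, e₂, h, hl⟩
  · refine ⟨GD.Kd.Z, {i, j}, good_Z h, fun hc => link_Z h.1 (hl ?_)⟩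
    cases c <;> simp_all [tk]
  · refine ⟨GD.Kd.O, {i, j}, good_O h, fun hc => link_O h.1 (hl ?_)⟩
    cases c <;> simp_all [tk]
  · refine ⟨GD.Kd.P, _, good_P h, fun hc => link_P h.1 (hl ?_)⟩
    cases c <;> simp_all [tk]

theorem tr_LG (h : LG G.Adj (sg s) W) : GD.LG G s W := by
  unfold LG at h
  rw [← obs_noObs (V := V)] at h
  rcases h with ⟨i, j, h, hl⟩ | ⟨i, j, h, hl⟩ | ⟨e₁, m₁, m₂, e₂, h, hl⟩
  · exact ⟨GD.Kd.Z, {i, j}, good_Z h, link_Z h.1 hl⟩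
  · exact ⟨GD.Kd.O, {i, j}, good_O h, link_O h.1 hl⟩
  · exact ⟨GD.Kd.P, _, good_P h, link_P h.1 hl⟩

theorem tr_GZ (h : GZ G.Adj (sg s) W) : GD.GK G s W GD.Kd.Z := by
  unfold GZ at h
  rw [← obs_noObs (V := V)] at h
  obtain ⟨i, j, h⟩ := h
  exact ⟨{i, j}, good_Z h⟩

theorem tr_GO (h : GZ (co G.Adj) (cs (sg s)) W) : GD.GK G s W GD.Kd.O := by
  unfold GZ at h
  rw [← obs_noObs (V := V)] at h
  obtain ⟨i, j, h⟩ := h
  exact ⟨{i, j}, good_O h⟩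

theorem tr_GP (h : GP G.Adj (sg s) W) : GD.GK G s W GD.Kd.P := by
  unfold GP at h
  rw [← obs_noObs (V := V)] at h
  obtain ⟨e₁, m₁, m₂, e₂, h⟩ := h
  exact ⟨_, good_P h⟩

lemma lnk_false {p : V} : lnk G.Adj W p false = {v ∈ W | v ≠ p ∧ ¬ G.Adj p v} := by
  ext z; simp [lnk]

lemma lnk_true {p : V} : lnk G.Adj W p true = {v ∈ W | G.Adj p v} := by
  ext z
  simp only [lnk, Set.mem_ofPred_eq, iff_true]
  exact ⟨fun h => ⟨h.1, h.2.2⟩, fun h => ⟨h.1, h.2.ne.symm, h.2⟩⟩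

theorem tr_GS (h : GS G.Adj (sg s) W) : GD.GoodSingle G s W := by
  rcases h with ⟨p, hp, hs, hn, hd⟩ | ⟨p, hp, hs, hn, hd⟩
  · left
    rw [lnk_false] at hn hd
    exact ⟨p, hp, sg_false.1 hs, (Set.one_lt_ncard_iff_nontrivial).2 hn,
      fun h => hd (tr_disc.2 h)⟩
  · right
    rw [lnk_true] at hn hd
    exact ⟨p, hp, sg_true.1 hs, (Set.one_lt_ncard_iff_nontrivial).2 hn,
      fun h => hd (tr_codisc.2 h)⟩

theorem tr_Exc (h : Exc G.Adj (sg s) W) : GD.Exc G s W := by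
  obtain ⟨e₁, m₁, m₂, e₂, ρ, hq, h1, h2, h3, h4, h5, h6, h7⟩ := h
  obtain ⟨n1, n2, n3, n4, n5, n6⟩ := quad_ne hq
  have s1 : s e₁ := sg_true.1 hq.s1
  have s2 : ¬ s m₁ := sg_false.1 hq.s2
  have s3 : ¬ s m₂ := sg_false.1 hq.s3
  have s4 : s e₂ := sg_true.1 hq.s4
  refine ⟨e₁, m₁, m₂, e₂, ρ, ⟨e₁, m₁, m₂, e₂, hq.h1, hq.h2, hq.h3, hq.h4, s1, s4, s2, s3, n3,
    n4, hq.a12, hq.a23, hq.a34, hq.n13, hq.n14, hq.n24, rfl⟩, s1, s4, s2, s3, n3, n4, hq.a12,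
    hq.a23, hq.a34, hq.n13, hq.n14, hq.n24, h1, h2, h3, h4, h5, h6, ?_⟩
  intro u hu hne
  rw [h7 u hu hne, sg_false]

end Pool.Agent.GDT
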