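import Pool.Agent.GDT.Defs

set_option autoImplicit false

namespace Pool.Agent.GDT

variable {V : Type*} [Finite V] {A : V → V → Prop} {σ : V → Bool} {S : Set V}

omit [Finite V] in
lemma base4_path (hA : Gr A) {v1 v2 v3 v4 : V} (hS : ∀ z, z ∈ S ↔ z = v1 ∨ z = v2 ∨ z = v3 ∨ z = v4)
    (d13 : v1 ≠ v3) (d14 : v1 ≠ v4) (d24 : v2 ≠ v4)
    (a12 : A v1 v2) (a23 : A v2 v3) (a34 : A v3 v4)
    (n13 : ¬ A v1 v3) (n14 : ¬ A v1 v4) (n24 : ¬ A v2 v4) : T1w A σ S := by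
  have hs := hA.symm
  have m1 : v1 ∈ S := (hS v1).2 (Or.inl rfl)
  have m2 : v2 ∈ S := (hS v2).2 (Or.inr (Or.inl rfl))
  have m3 : v3 ∈ S := (hS v3).2 (Or.inr (Or.inr (Or.inl rfl)))
  have m4 : v4 ∈ S := (hS v4).2 (Or.inr (Or.inr (Or.inr rfl)))
  have d12 : v1 ≠ v2 := by rintro rfl; exact hA.irr _ a12
  have d23 : v2 ≠ v3 := by rintro rfl; exact hA.irr _ a23
  have d34 : v3 ≠ v4 := by rintro rfl; exact hA.irr _ a34
  have n31 : ¬ A v3 v1 := fun h => n13 (hs _ _ h)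
  have n41 : ¬ A v4 v1 := fun h => n14 (hs _ _ h)
  have n42 : ¬ A v4 v2 := fun h => n24 (hs _ _ h)
  have a21 := hs _ _ a12
  have a32 := hs _ _ a23
  have a43 := hs _ _ a34
  have csf : ∀ v, σ v = true → cs σ v = false := fun v h => by simp [cs, h]
  -- the four linked cases
  by_cases c13 : σ v1 = false ∧ σ v3 = false
  · refine Or.inl (Or.inl ⟨v1, v3, ⟨⟨m1, m3, d13, n13, c13.1, c13.2⟩, ?_⟩, v2, m2, a21, a23⟩)
    rintro K ⟨⟨k, hk⟩, hKS, h⟩
    obtain ⟨k1, k2, k3, k4, -⟩ := h k hk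
    rcases (hS k).1 (hKS hk) with rfl | rfl | rfl | rfl
    · exact k1 rfl
    · exact k3 a21
    · exact k2 rfl
    · exact k4 a43
  by_cases c24 : σ v2 = false ∧ σ v4 = false
  · refine Or.inl (Or.inl ⟨v2, v4, ⟨⟨m2, m4, d24, n24, c24.1, c24.2⟩, ?_⟩, v3, m3, a32, a34⟩)
    rintro K ⟨⟨k, hk⟩, hKS, h⟩
    obtain ⟨k1, k2, k3, k4, -⟩ := h k hk
    rcases (hS k).1 (hKS hk) with rfl | rfl | rfl | rfl
    · exact k3 a12
    · exact k1 rfl
    · exact k3 a32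
    · exact k2 rfl
  by_cases c12 : σ v1 = true ∧ σ v2 = true
  · refine Or.inl (Or.inr (Or.inl ⟨v1, v2, ⟨⟨m1, m2, d12, fun h => h.2 a12, csf _ c12.1,
      csf _ c12.2⟩, ?_⟩, v4, m4, ⟨d14.symm, n41⟩, ⟨d24.symm, n42⟩⟩))
    rintro K ⟨⟨k, hk⟩, hKS, h⟩
    obtain ⟨k1, k2, k3, k4, -⟩ := h k hk
    rcases (hS k).1 (hKS hk) with rfl | rfl | rfl | rfl
    · exact k1 rfl
    · exact k2 rfl
    · exact k3 ⟨k1, n31⟩
    · exact k3 ⟨k1, n41⟩
  by_cases c34 : σ v3 = true ∧ σ v4 = true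
  · refine Or.inl (Or.inr (Or.inl ⟨v3, v4, ⟨⟨m3, m4, d34, fun h => h.2 a34, csf _ c34.1,
      csf _ c34.2⟩, ?_⟩, v1, m1, ⟨d13, n13⟩, ⟨d14, n14⟩⟩))
    rintro K ⟨⟨k, hk⟩, hKS, h⟩
    obtain ⟨k1, k2, k3, k4, -⟩ := h k hk
    rcases (hS k).1 (hKS hk) with rfl | rfl | rfl | rfl
    · exact k3 ⟨k1, n13⟩
    · exact k4 ⟨k2, n24⟩
    · exact k1 rfl
    · exact k2 rfl
  -- the remaining sign patterns
  cases s1 : σ v1 with
  | true =>
    have s2 : σ v2 = false := by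
      cases h : σ v2 with
      | true => exact absurd ⟨s1, h⟩ c12
      | false => rfl
    have s4 : σ v4 = true := by
      cases h : σ v4 with
      | false => exact absurd ⟨s2, h⟩ c24
      | true => rfl
    have s3 : σ v3 = false := by
      cases h : σ v3 with
      | true => exact absurd ⟨h, s4⟩ c34
      | false => rfl
    refine Or.inr (Or.inl ⟨v1, v2, v3, v4,
      ⟨m1, m2, m3, m4, a12, a23, a34, n13, n14, n24, d13, d14, d24, s1, s2, s3, s4⟩, ?_⟩)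
    rintro K ⟨⟨k, hk⟩, hKS, h⟩
    obtain ⟨⟨o1, o2, o3, o4⟩, -⟩ := h k hk
    rcases (hS k).1 (hKS hk) with rfl | rfl | rfl | rfl
    · exact o1 rfl
    · exact o2 rfl
    · exact o3 rfl
    · exact o4 rfl
  | false =>
    have s3 : σ v3 = true := by
      cases h : σ v3 with
      | false => exact absurd ⟨s1, h⟩ c13
      | true => rfl
    have s4 : σ v4 = false := by
      cases h : σ v4 with
      | true => exact absurd ⟨s3, h⟩ c34
      | false => rfl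
    have s2 : σ v2 = true := by
      cases h : σ v2 with
      | false => exact absurd ⟨h, s4⟩ c24
      | true => rfl
    refine Or.inr (Or.inr ⟨⟨v1, v4, ⟨m1, m4, d14, n14, s1, s4⟩, ?_⟩,
      ⟨v2, v3, ⟨m2, m3, d23, fun h => h.2 a23, csf _ s2, csf _ s3⟩, ?_⟩⟩)
    · rintro K ⟨⟨k, hk⟩, hKS, h⟩
      obtain ⟨k1, k2, k3, k4, -⟩ := h k hk
      rcases (hS k).1 (hKS hk) with rfl | rfl | rfl | rfl
      · exact k1 rfl
      · exact k3 a21
      · exact k4 a34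
      · exact k2 rfl
    · rintro K ⟨⟨k, hk⟩, hKS, h⟩
      obtain ⟨k1, k2, k3, k4, -⟩ := h k hk
      rcases (hS k).1 (hKS hk) with rfl | rfl | rfl | rfl
      · exact k4 ⟨k2, n13⟩
      · exact k1 rfl
      · exact k2 rfl
      · exact k3 ⟨k1, n42⟩

omit [Finite V] in
lemma base4_pair (hS : Prime A S) {a b c d : V}
    (hm : ∀ z, z ∈ S ↔ z = a ∨ z = b ∨ z = c ∨ z = d) (hab : a ≠ b) (hac : a ≠ c) (hbc : b ≠ c) :
    ¬ ((A c a ↔ A c b) ∧ (A d a ↔ A d b)) := by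
  rintro ⟨h1, h2⟩
  have hmod : IsMod A S {a, b} := by
    refine ⟨?_, ?_⟩
    · rintro z (rfl | rfl)
      · exact (hm _).2 (Or.inl rfl)
      · exact (hm _).2 (Or.inr (Or.inl rfl))
    · intro z hz hzU
      have key : (A z a ↔ A z b) := by
        rcases (hm z).1 hz with rfl | rfl | rfl | rfl
        · exact absurd (Or.inl rfl) hzU
        · exact absurd (Or.inr rfl) hzU
        · exact h1
        · exact h2
      by_cases hza : A z a
      · left
        rintro u (rfl | rfl)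
        · exact hza
        · exact key.1 hza
      · right
        rintro u (rfl | rfl)
        · exact hza
        · exact fun h => hza (key.2 h)
  rcases hS _ hmod with h | h
  · exact hab (h (Or.inl rfl) (Or.inr rfl))
  · have : c ∈ ({a, b} : Set V) := by
      rw [h]
      exact (hm c).2 (Or.inr (Or.inr (Or.inl rfl)))
    rcases this with h | h
    · exact hac h.symm
    · exact hbc h.symm

omit [Finite V] in
lemma base4_triple (hS : Prime A S) {a b c d : V}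
    (hm : ∀ z, z ∈ S ↔ z = a ∨ z = b ∨ z = c ∨ z = d) (hab : a ≠ b) (hda : d ≠ a) (hdb : d ≠ b)
    (hdc : d ≠ c) :
    ¬ ((A d a ↔ A d b) ∧ (A d b ↔ A d c)) := by
  rintro ⟨h1, h2⟩
  have hmod : IsMod A S {a, b, c} := by
    refine ⟨?_, ?_⟩
    · rintro z (rfl | rfl | rfl)
      · exact (hm _).2 (Or.inl rfl)
      · exact (hm _).2 (Or.inr (Or.inl rfl))
      · exact (hm _).2 (Or.inr (Or.inr (Or.inl rfl)))
    · intro z hz hzU
      have hzd : z = d := by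
        rcases (hm z).1 hz with rfl | rfl | rfl | rfl
        · exact absurd (Or.inl rfl) hzU
        · exact absurd (Or.inr (Or.inl rfl)) hzU
        · exact absurd (Or.inr (Or.inr rfl)) hzU
        · rfl
      subst hzd
      by_cases hza : A z a
      · left
        rintro u (rfl | rfl | rfl)
        · exact hza
        · exact h1.1 hza
        · exact h2.1 (h1.1 hza)
      · right
        rintro u (rfl | rfl | rfl)
        · exact hza
        · exact fun h => hza (h1.2 h)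
        · exact fun h => hza (h1.2 (h2.2 h))
  rcases hS _ hmod with h | h
  · exact hab (h (Or.inl rfl) (Or.inr (Or.inl rfl)))
  · have : d ∈ ({a, b, c} : Set V) := by
      rw [h]
      exact (hm d).2 (Or.inr (Or.inr (Or.inr rfl)))
    rcases this with h | h | h
    · exact hda h
    · exact hdb h
    · exact hdc h

omit [Finite V] in
lemma base4_sw1 {a b c d : V} (h : ∀ z, z ∈ S ↔ z = a ∨ z = b ∨ z = c ∨ z = d) :
    ∀ z, z ∈ S ↔ z = b ∨ z = a ∨ z = c ∨ z = d := by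
  intro z
  rw [h z]
  constructor
  · rintro (h | h | h | h)
    exacts [Or.inr (Or.inl h), Or.inl h, Or.inr (Or.inr (Or.inl h)), Or.inr (Or.inr (Or.inr h))]
  · rintro (h | h | h | h)
    exacts [Or.inr (Or.inl h), Or.inl h, Or.inr (Or.inr (Or.inl h)), Or.inr (Or.inr (Or.inr h))]

omit [Finite V] in
lemma base4_sw2 {a b c d : V} (h : ∀ z, z ∈ S ↔ z = a ∨ z = b ∨ z = c ∨ z = d) :
    ∀ z, z ∈ S ↔ z = a ∨ z = c ∨ z = b ∨ z = d := by
  intro z
  rw [h z]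
  constructor
  · rintro (h | h | h | h)
    exacts [Or.inl h, Or.inr (Or.inr (Or.inl h)), Or.inr (Or.inl h), Or.inr (Or.inr (Or.inr h))]
  · rintro (h | h | h | h)
    exacts [Or.inl h, Or.inr (Or.inr (Or.inl h)), Or.inr (Or.inl h), Or.inr (Or.inr (Or.inr h))]

omit [Finite V] in
lemma base4_sw3 {a b c d : V} (h : ∀ z, z ∈ S ↔ z = a ∨ z = b ∨ z = c ∨ z = d) :
    ∀ z, z ∈ S ↔ z = a ∨ z = b ∨ z = d ∨ z = c := by
  intro z
  rw [h z]
  constructor
  · rintro (h | h | h | h)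
    exacts [Or.inl h, Or.inr (Or.inl h), Or.inr (Or.inr (Or.inr h)), Or.inr (Or.inr (Or.inl h))]
  · rintro (h | h | h | h)
    exacts [Or.inl h, Or.inr (Or.inl h), Or.inr (Or.inr (Or.inr h)), Or.inr (Or.inr (Or.inl h))]

lemma base4_bool : ∀ x1 x2 x3 x4 x5 x6 : Bool,
    ¬ ((x2 = x4) ∧ (x3 = x5)) → ¬ ((x1 = x4) ∧ (x3 = x6)) → ¬ ((x1 = x5) ∧ (x2 = x6)) →
    ¬ ((x1 = x2) ∧ (x5 = x6)) → ¬ ((x1 = x3) ∧ (x4 = x6)) → ¬ ((x2 = x3) ∧ (x4 = x5)) →
    ¬ ((x3 = x5) ∧ (x5 = x6)) → ¬ ((x2 = x4) ∧ (x4 = x6)) → ¬ ((x1 = x4) ∧ (x4 = x5)) →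
    ¬ ((x1 = x2) ∧ (x2 = x3)) →
    (x1 = true ∧ x4 = true ∧ x6 = true ∧ x2 = false ∧ x3 = false ∧ x5 = false) ∨
    (x1 = true ∧ x5 = true ∧ x6 = true ∧ x3 = false ∧ x2 = false ∧ x4 = false) ∨
    (x2 = true ∧ x4 = true ∧ x5 = true ∧ x1 = false ∧ x3 = false ∧ x6 = false) ∨
    (x2 = true ∧ x6 = true ∧ x5 = true ∧ x3 = false ∧ x1 = false ∧ x4 = false) ∨
    (x3 = true ∧ x5 = true ∧ x4 = true ∧ x1 = false ∧ x2 = false ∧ x6 = false) ∨
    (x3 = true ∧ x6 = true ∧ x4 = true ∧ x2 = false ∧ x1 = false ∧ x5 = false) ∨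
    (x1 = true ∧ x2 = true ∧ x6 = true ∧ x4 = false ∧ x5 = false ∧ x3 = false) ∨
    (x1 = true ∧ x3 = true ∧ x6 = true ∧ x5 = false ∧ x4 = false ∧ x2 = false) ∨
    (x4 = true ∧ x2 = true ∧ x3 = true ∧ x1 = false ∧ x5 = false ∧ x6 = false) ∨
    (x5 = true ∧ x3 = true ∧ x2 = true ∧ x1 = false ∧ x4 = false ∧ x6 = false) ∨
    (x2 = true ∧ x1 = true ∧ x5 = true ∧ x4 = false ∧ x6 = false ∧ x3 = false) ∨
    (x4 = true ∧ x1 = true ∧ x3 = true ∧ x2 = false ∧ x6 = false ∧ x5 = false) := by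
  intro x1 x2 x3 x4 x5 x6 p1 p2 p3 p4 p5 p6 p7 p8 p9 p10
  cases x1 <;> cases x2 <;> cases x3 <;> cases x4 <;> cases x5 <;> cases x6 <;>
    first
    | exact absurd ⟨rfl, rfl⟩ p1 | exact absurd ⟨rfl, rfl⟩ p2 | exact absurd ⟨rfl, rfl⟩ p3
    | exact absurd ⟨rfl, rfl⟩ p4 | exact absurd ⟨rfl, rfl⟩ p5 | exact absurd ⟨rfl, rfl⟩ p6
    | exact absurd ⟨rfl, rfl⟩ p7 | exact absurd ⟨rfl, rfl⟩ p8 | exact absurd ⟨rfl, rfl⟩ p9
    | exact absurd ⟨rfl, rfl⟩ p10
    | simp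

/-- Base case: a graph with four vertices and only trivial modules is a path 1-2-3-4;
`{1,3}`, `{2,4}` (signs false) and `{1,2}`, `{3,4}` (signs true, in the complement) are linked good,
otherwise `σ = (F,T,T,F)` and `{1,4}`, `{2,3}` are good, or `σ = (T,F,F,T)` and the quad is good. -/
theorem base4 (hA : Gr A) (hS : Prime A S) (h4 : S.ncard = 4) : T1w A σ S := by
  have hfin : S.Finite := Set.toFinite S
  obtain ⟨a, haS, S1, hS1, hc1⟩ : ∃ a, a ∈ S ∧ ∃ T : Set V, T = S \ {a} ∧ T.ncard = 3 := by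
    have : S.Nonempty := by
      rw [Set.nonempty_iff_ne_empty]
      rintro rfl
      simp at h4
    obtain ⟨a, ha⟩ := this
    refine ⟨a, ha, S \ {a}, rfl, ?_⟩
    rw [Set.ncard_sdiff_singleton_of_mem ha, h4]
  obtain ⟨b, c, d, hbc, hbd, hcd, hT⟩ := Set.ncard_eq_three.1 hc1
  have hab : a ≠ b := by
    rintro rfl
    have : a ∈ S1 := by rw [hT]; simp
    rw [hS1] at this
    exact this.2 rfl
  have hac : a ≠ c := by
    rintro rfl
    have : a ∈ S1 := by rw [hT]; simp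
    rw [hS1] at this
    exact this.2 rfl
  have had : a ≠ d := by
    rintro rfl
    have : a ∈ S1 := by rw [hT]; simp
    rw [hS1] at this
    exact this.2 rfl
  have hm : ∀ z, z ∈ S ↔ z = a ∨ z = b ∨ z = c ∨ z = d := by
    intro z
    have h1 : z ∈ S1 ↔ z = b ∨ z = c ∨ z = d := by rw [hT]; simp
    have h2 : z ∈ S1 ↔ z ∈ S ∧ z ≠ a := by rw [hS1]; simp
    constructor
    · intro hz
      by_cases hza : z = a
      · exact Or.inl hza
      · exact Or.inr (h1.1 (h2.2 ⟨hz, hza⟩))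
    · rintro (rfl | h)
      · exact haS
      · exact (h2.1 (h1.2 h)).1
  have hs : ∀ x y, A x y ↔ A y x := fun x y => ⟨hA.symm x y, hA.symm y x⟩
  -- pairs
  have p1 := base4_pair hS (a := a) (b := b) (c := c) (d := d) hm hab hac hbc
  have p2 := base4_pair hS (a := a) (b := c) (c := b) (d := d) (base4_sw2 hm) hac hab hbc.symm
  have p3 := base4_pair hS (a := a) (b := d) (c := b) (d := c) (base4_sw2 (base4_sw3 hm)) had hab hbd.symm
  have p4 := base4_pair hS (a := b) (b := c) (c := a) (d := d) (base4_sw2 (base4_sw1 hm)) hbc hab.symm hac.symm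
  have p5 := base4_pair hS (a := b) (b := d) (c := a) (d := c) (base4_sw2 (base4_sw3 (base4_sw1 hm))) hbd hab.symm had.symm
  have p6 := base4_pair hS (a := c) (b := d) (c := a) (d := b) (base4_sw2 (base4_sw3 (base4_sw1 (base4_sw2 hm)))) hcd hac.symm had.symm
  have t1 := base4_triple hS (a := a) (b := b) (c := c) (d := d) hm hab had.symm hbd.symm hcd.symm
  have t2 := base4_triple hS (a := a) (b := b) (c := d) (d := c) (base4_sw3 hm) hab hac.symm hbc.symm hcd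
  have t3 := base4_triple hS (a := a) (b := c) (c := d) (d := b) (base4_sw3 (base4_sw2 hm)) hac hab.symm hbc hbd
  have t4 := base4_triple hS (a := b) (b := c) (c := d) (d := a) (base4_sw3 (base4_sw2 (base4_sw1 hm))) hbc hab hac had
  classical
  have hbi : ∀ P Q : Prop, (decide P = decide Q) ↔ (P ↔ Q) := fun P Q => decide_eq_decide
  have key := base4_bool (decide (A a b)) (decide (A a c)) (decide (A a d)) (decide (A b c))
    (decide (A b d)) (decide (A c d))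
  simp only [hbi] at key
  rw [hs c a, hs c b, hs d a, hs d b] at p1
  rw [hs b a, hs d a, hs d c] at p2
  rw [hs b a, hs c a] at p3
  rw [hs d b, hs d c] at p4
  rw [hs c b] at p5
  rw [hs d a, hs d b, hs d c] at t1
  rw [hs c a, hs c b] at t2
  rw [hs b a] at t3
  have key' := key p1 p2 p3 p4 p5 p6 t1 t2 t3 t4
  simp only [decide_eq_true_eq, decide_eq_false_iff_not] at key'
  rcases key' with ⟨g1, g2, g3, g4, g5, g6⟩ | ⟨g1, g2, g3, g4, g5, g6⟩ | ⟨g1, g2, g3, g4, g5, g6⟩ | ⟨g1, g2, g3, g4, g5, g6⟩ | ⟨g1, g2, g3, g4, g5, g6⟩ | ⟨g1, g2, g3, g4, g5, g6⟩ | ⟨g1, g2, g3, g4, g5, g6⟩ | ⟨g1, g2, g3, g4, g5, g6⟩ | ⟨g1, g2, g3, g4, g5, g6⟩ | ⟨g1, g2, g3, g4, g5, g6⟩ | ⟨g1, g2, g3, g4, g5, g6⟩ | ⟨g1, g2, g3, g4, g5, g6⟩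
  · exact base4_path hA (v1 := a) (v2 := b) (v3 := c) (v4 := d) hm
      hac had hbd g1 g2 g3 g4 g5 g6
  · exact base4_path hA (v1 := a) (v2 := b) (v3 := d) (v4 := c) (base4_sw3 hm)
      had hac hbc g1 g2 (hA.symm _ _ g3) g4 g5 g6
  · exact base4_path hA (v1 := a) (v2 := c) (v3 := b) (v4 := d) (base4_sw2 hm)
      hab had hcd g1 (hA.symm _ _ g2) g3 g4 g5 g6
  · exact base4_path hA (v1 := a) (v2 := c) (v3 := d) (v4 := b) (base4_sw3 (base4_sw2 hm))
      had hab hbc.symm g1 g2 (hA.symm _ _ g3) g4 g5 (fun h0 => g6 (hA.symm _ _ h0))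
  · exact base4_path hA (v1 := a) (v2 := d) (v3 := b) (v4 := c) (base4_sw2 (base4_sw3 hm))
      hab hac hcd.symm g1 (hA.symm _ _ g2) g3 g4 g5 (fun h0 => g6 (hA.symm _ _ h0))
  · exact base4_path hA (v1 := a) (v2 := d) (v3 := c) (v4 := b) (base4_sw2 (base4_sw3 (base4_sw2 hm)))
      hac hab hbd.symm g1 (hA.symm _ _ g2) (hA.symm _ _ g3) g4 g5 (fun h0 => g6 (hA.symm _ _ h0))
  · exact base4_path hA (v1 := b) (v2 := a) (v3 := c) (v4 := d) (base4_sw1 hm)
      hbc hbd had (hA.symm _ _ g1) g2 g3 g4 g5 g6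
  · exact base4_path hA (v1 := b) (v2 := a) (v3 := d) (v4 := c) (base4_sw3 (base4_sw1 hm))
      hbd hbc hac (hA.symm _ _ g1) g2 (hA.symm _ _ g3) g4 g5 g6
  · exact base4_path hA (v1 := b) (v2 := c) (v3 := a) (v4 := d) (base4_sw2 (base4_sw1 hm))
      hab.symm hbd hcd g1 (hA.symm _ _ g2) g3 (fun h0 => g4 (hA.symm _ _ h0)) g5 g6
  · exact base4_path hA (v1 := b) (v2 := d) (v3 := a) (v4 := c) (base4_sw2 (base4_sw3 (base4_sw1 hm)))
      hab.symm hbc hcd.symm g1 (hA.symm _ _ g2) g3 (fun h0 => g4 (hA.symm _ _ h0)) g5 (fun h0 => g6 (hA.symm _ _ h0))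
  · exact base4_path hA (v1 := c) (v2 := a) (v3 := b) (v4 := d) (base4_sw1 (base4_sw2 hm))
      hbc.symm hcd had (hA.symm _ _ g1) g2 g3 (fun h0 => g4 (hA.symm _ _ h0)) g5 g6
  · exact base4_path hA (v1 := c) (v2 := b) (v3 := a) (v4 := d) (base4_sw1 (base4_sw2 (base4_sw1 hm)))
      hac.symm hcd hbd (hA.symm _ _ g1) (hA.symm _ _ g2) g3 (fun h0 => g4 (hA.symm _ _ h0)) g5 g6

end Pool.Agent.GDT
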