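import Pool.Agent.GDT.Defs

set_option autoImplicit false
set_option linter.unusedSectionVars false

namespace Pool.Agent.GDT

variable {V : Type*} [Finite V] {A : V → V → Prop} {σ : V → Bool} {S : Set V}

/-- components -/
theorem step2_comp {B : V → V → Prop} (hB : ∀ x y, B x y → B y x) (M : Set V) {x : V}
    (hx : x ∈ M) :
    ∃ U ⊆ M, x ∈ U ∧ ¬ Disc B U ∧ (∀ u ∈ U, ∀ w ∈ M, w ∉ U → ¬ B u w) ∧
      ∀ K ⊆ M, x ∈ K → (∀ k ∈ K, ∀ w ∈ M, w ∉ K → ¬ B k w) → U ⊆ K := by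
  refine ⟨{y | Relation.ReflTransGen (fun a b => B a b ∧ b ∈ M) x y}, ?_,
    Relation.ReflTransGen.refl, ?_, ?_, ?_⟩
  · intro y hy
    rcases Relation.ReflTransGen.cases_tail hy with h | ⟨z, _, _, h⟩
    · rw [h]; exact hx
    · exact h
  · rintro ⟨C, hCU, ⟨c, hc⟩, ⟨y, hyU, hyC⟩, hno⟩
    by_cases hxC : x ∈ C
    · apply hyC
      have : ∀ z, Relation.ReflTransGen (fun a b => B a b ∧ b ∈ M) x z → z ∈ C := by
        intro z hz
        induction hz with
        | refl => exact hxC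
        | tail h1 h2 ih =>
          by_contra hb
          exact hno _ ih _ (h1.tail h2) hb h2.1
      exact this y hyU
    · have : ∀ z, Relation.ReflTransGen (fun a b => B a b ∧ b ∈ M) x z → z ∉ C := by
        intro z hz
        induction hz with
        | refl => exact hxC
        | tail h1 h2 ih =>
          intro hb
          exact hno _ hb _ h1 ih (hB _ _ h2.1)
      exact this c (hCU hc) hc
  · intro u hu w hw hwU hB'
    exact hwU (Relation.ReflTransGen.tail hu ⟨hB', hw⟩)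
  · intro K hKM hxK hK y hy
    have : ∀ z, Relation.ReflTransGen (fun a b => B a b ∧ b ∈ M) x z → z ∈ K := by
      intro z hz
      induction hz with
      | refl => exact hxK
      | tail h1 h2 ih =>
        by_contra hb
        exact hK _ ih _ h2.2 hb h2.1
    exact this y hy

theorem step2_cosymm (hA : Gr A) : ∀ x y, co A x y → co A y x := (co_gr hA).symm

/-- a proper module is trivial -/
theorem step2_mod (hS : Prime A S) {U : Set V} (hU : IsMod A S U) {w : V} (hw : w ∈ S)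
    (hwU : w ∉ U) {x y : V} (hx : x ∈ U) (hy : y ∈ U) : x = y := by
  rcases hS U hU with h | h
  · exact h hx hy
  · rw [h] at hwU
    exact absurd hw hwU

/-- the final configuration -/
structure Step2Cfg (A : V → V → Prop) (σ : V → Bool) (S : Set V) (p v : V)
    (U P M H : Set V) (k : V) : Prop where
  sp : σ p = true
  sv : σ v = true
  apv : A p v
  vU : v ∈ U
  pP : p ∈ P
  cov : ∀ z ∈ S, z ∈ U ∨ z ∈ P ∨ z ∈ M ∨ z ∈ H
  US : U ⊆ S
  PS : P ⊆ S
  MS : M ⊆ S
  HS : H ⊆ S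
  pU : ∀ u ∈ U, A p u
  vP : ∀ y ∈ P, A v y
  vU' : ∀ u ∈ U, ¬ A v u
  pP' : ∀ y ∈ P, ¬ A p y
  MU : ∀ m ∈ M, ∀ u ∈ U, A m u
  MP : ∀ m ∈ M, ∀ y ∈ P, A m y
  Hp : ∀ h ∈ H, ¬ A h p
  Hv : ∀ h ∈ H, ¬ A h v
  cU : ¬ Disc (co A) U
  cP : ¬ Disc (co A) P
  nU : U.Nontrivial
  nP : P.Nontrivial
  kM : k ∈ M
  kc : ∀ m ∈ M, m ≠ k → A m k
  kH : ∀ h ∈ H, ¬ A h k
  nH : H.Nonempty

theorem step2_swap (hA : Gr A) {p v : V} {U P M H : Set V} {k : V}
    (c : Step2Cfg A σ S p v U P M H k) : Step2Cfg A σ S v p P U M H k where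
  sp := c.sv
  sv := c.sp
  apv := hA.symm _ _ c.apv
  vU := c.pP
  pP := c.vU
  cov := fun z hz => by
    rcases c.cov z hz with h | h | h | h
    · exact Or.inr (Or.inl h)
    · exact Or.inl h
    · exact Or.inr (Or.inr (Or.inl h))
    · exact Or.inr (Or.inr (Or.inr h))
  US := c.PS
  PS := c.US
  MS := c.MS
  HS := c.HS
  pU := c.vP
  vP := c.pU
  vU' := c.pP'
  pP' := c.vU'
  MU := c.MP
  MP := c.MU
  Hp := c.Hv
  Hv := c.Hp
  cU := c.cP
  cP := c.cU
  nU := c.nP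
  nP := c.nU
  kM := c.kM
  kc := c.kc
  kH := c.kH
  nH := c.nH

/-- a linked 1-pair has a detached set -/
theorem step2_det (hL : ¬ LG A σ S) {i j h : V} (hi : i ∈ S) (hj : j ∈ S) (hne : i ≠ j)
    (hij : A i j) (si : σ i = true) (sj : σ j = true) (hh : h ∈ S) (hhi : h ≠ i) (hhj : h ≠ j)
    (h1 : ¬ A h i) (h2 : ¬ A h j) : ∃ K, K.Nonempty ∧ K ⊆ S ∧ ∀ k ∈ K, k ≠ i ∧ k ≠ j ∧
      A k i ∧ A k j ∧ (∀ y ∈ S, y ∉ K → y ≠ i → y ≠ j →
        (¬ A y i → ¬ A y j → ¬ A k y) ∧ (A y i → A y j → A k y)) := by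
  by_contra hcon
  apply hL
  right; left
  refine ⟨i, j, ⟨⟨hi, hj, hne, fun h => h.2 hij, by simp [cs, si], by simp [cs, sj]⟩, ?_⟩,
    ⟨h, hh, ⟨hhi, h1⟩, ⟨hhj, h2⟩⟩⟩
  rintro K ⟨hKn, hKS, hK⟩
  apply hcon
  refine ⟨K, hKn, hKS, fun k hk => ?_⟩
  obtain ⟨k1, k2, k3, k4, k5, -⟩ := hK k hk
  rw [co_iff k1, not_not] at k3
  rw [co_iff k2, not_not] at k4
  refine ⟨k1, k2, k3, k4, fun y hy hyK hyi hyj => ?_⟩
  have hky : k ≠ y := fun e => hyK (e ▸ hk)
  have k6 := k5 y hy hyK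
  rw [co_iff hyi, co_iff hyj, co_iff hky] at k6
  exact ⟨k6.1, fun a b => not_not.1 (k6.2 (not_not.2 a) (not_not.2 b))⟩

/-- case `σ k = true` -/
theorem step2_caseT (hA : Gr A) (hS : Prime A S) (hL : ¬ LG A σ S) {p v : V} {U P M H : Set V}
    {k : V} (c : Step2Cfg A σ S p v U P M H k) (hkσ : σ k = true) :
    ∀ u ∈ U, ∀ h ∈ H, ¬ A h u := by
  have hs := hA.symm
  have hp : p ∈ S := c.PS c.pP
  have hv : v ∈ S := c.US c.vU
  have hkS : k ∈ S := c.MS c.kM
  have hkp : A k p := c.MP k c.kM p c.pP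
  have hkv : A k v := c.MU k c.kM v c.vU
  have hkpne : k ≠ p := fun e => hA.irr _ (e ▸ hkp)
  obtain ⟨h, hh⟩ := c.nH
  have hhk : h ≠ k := fun e => c.Hp h hh (e ▸ hkp)
  have hhp : h ≠ p := fun e => c.kH h hh (e ▸ hs _ _ hkp)
  obtain ⟨K', ⟨k', hk'⟩, hKS, hK⟩ := step2_det hL hkS hp hkpne hkp hkσ c.sp (c.HS hh) hhk hhp
    (c.kH h hh) (c.Hp h hh)
  -- the elements of `K'` are in `U` or in `M`
  have hKUM : ∀ x ∈ K', x ∈ U ∨ x ∈ M := by
    intro x hx
    obtain ⟨h1, h2, h3, h4, -⟩ := hK x hx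
    rcases c.cov x (hKS hx) with h | h | h | h
    · exact Or.inl h
    · exact absurd (hs _ _ h4) (c.pP' x h)
    · exact Or.inr h
    · exact absurd h4 (c.Hp x h)
  have hKH : ∀ x ∈ K', ∀ y ∈ H, ¬ A y x := by
    intro x hx y hy hyx
    obtain ⟨h1, h2, h3, h4, h5⟩ := hK x hx
    have hyK : y ∉ K' := by
      intro hyK
      exact c.Hp y hy (hK y hyK).2.2.2.1
    have hyk : y ≠ k := fun e => c.Hp y hy (e ▸ hkp)
    have hyp : y ≠ p := fun e => c.kH y hy (e ▸ hs _ _ hkp)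
    exact (h5 y (c.HS hy) hyK hyk hyp).1 (c.kH y hy) (c.Hp y hy) (hs _ _ hyx)
  have hKc : ∀ x ∈ K', ∀ y ∈ S, y ∉ K' → y ≠ k → A y k → A y p → A x y := by
    intro x hx y hy hyK hyk h1 h2
    obtain ⟨-, -, -, -, h5⟩ := hK x hx
    exact (h5 y hy hyK hyk (fun e => hA.irr _ (e ▸ h2))).2 h1 h2
  have hKU : K' ⊆ U := by
    by_contra hcon
    obtain ⟨m, hmK, hmU⟩ := Set.not_subset.1 hcon
    have hmM : m ∈ M := (hKUM m hmK).resolve_left hmU
    have hmod : IsMod A S {x | (x ∈ K' ∧ x ∈ M) ∨ x = k} := by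
      refine ⟨?_, fun z hz hzX => ?_⟩
      · rintro x (hx | rfl)
        · exact c.MS hx.2
        · exact hkS
      · have hzk : z ≠ k := fun e => hzX (Or.inr e)
        rcases c.cov z hz with h | h | h | h
        · left
          rintro x (hx | rfl)
          · exact hs _ _ (c.MU x hx.2 z h)
          · exact hs _ _ (c.MU x c.kM z h)
        · left
          rintro x (hx | rfl)
          · exact hs _ _ (c.MP x hx.2 z h)
          · exact hs _ _ (c.MP x c.kM z h)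
        · left
          have hzK : z ∉ K' := fun e => hzX (Or.inl ⟨e, h⟩)
          have hzk' := c.kc z h hzk
          rintro x (hx | rfl)
          · exact hs _ _ (hKc x hx.1 z hz hzK hzk hzk' (c.MP z h p c.pP))
          · exact hzk'
        · right
          rintro x (hx | rfl)
          · exact hKH x hx.1 z h
          · exact c.kH z h
    have hpX : p ∉ {x | (x ∈ K' ∧ x ∈ M) ∨ x = k} := by
      rintro (hx | hx)
      · exact hA.irr _ (c.MP p hx.2 p c.pP)
      · exact hkpne hx.symm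
    have := step2_mod hS hmod hp hpX (x := m) (y := k) (Or.inl ⟨hmK, hmM⟩) (Or.inr rfl)
    exact (hK m hmK).1 this
  have hUK : U ⊆ K' := by
    by_contra hcon
    obtain ⟨u, huU, huK⟩ := Set.not_subset.1 hcon
    apply c.cU
    refine ⟨K', hKU, ⟨k', hk'⟩, ⟨u, huU, huK⟩, fun x hx y hy hyK hxy => ?_⟩
    apply hxy.2
    have hyk : y ≠ k := by
      rintro rfl
      exact c.vU' _ hy (hs _ _ hkv)
    exact hKc x hx y (c.US hy) hyK hyk (hs _ _ (c.MU k c.kM y hy)) (hs _ _ (c.pU y hy))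
  exact fun u hu h hh => hKH u (hUK hu) h hh

theorem step2_modX (hA : Gr A) (hS : Prime A S) {p v : V} {U P M H : Set V} {k : V}
    (c : Step2Cfg A σ S p v U P M H k) (h1 : ∀ u ∈ U, ∀ h ∈ H, ¬ A h u)
    (h2 : ∀ u ∈ P, ∀ h ∈ H, ¬ A h u) : False := by
  have hmod : IsMod A S {x | x ∈ U ∨ x ∈ P ∨ x = k} := by
    refine ⟨?_, fun z hz hzX => ?_⟩
    · rintro x (hx | hx | rfl)
      · exact c.US hx
      · exact c.PS hx
      · exact c.MS c.kM
    · rcases c.cov z hz with h | h | h | h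
      · exact absurd (Or.inl h) hzX
      · exact absurd (Or.inr (Or.inl h)) hzX
      · left
        have hzk : z ≠ k := fun e => hzX (Or.inr (Or.inr e))
        rintro x (hx | hx | rfl)
        · exact c.MU z h x hx
        · exact c.MP z h x hx
        · exact c.kc z h hzk
      · right
        rintro x (hx | hx | rfl)
        · exact h1 x hx z h
        · exact h2 x hx z h
        · exact c.kH z h
  obtain ⟨h, hh⟩ := c.nH
  have hhX : h ∉ {x | x ∈ U ∨ x ∈ P ∨ x = k} := by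
    rintro (hx | hx | hx)
    · exact c.Hp h hh (hA.symm _ _ (c.pU h hx))
    · exact c.Hv h hh (hA.symm _ _ (c.vP h hx))
    · exact c.Hp h hh (hx ▸ c.MP k c.kM p c.pP)
  have := step2_mod hS hmod (c.HS hh) hhX (x := p) (y := v) (Or.inr (Or.inl c.pP)) (Or.inl c.vU)
  exact hA.irr _ (this ▸ c.apv)

theorem step2_caseF (hA : Gr A) (hS : Prime A S) (hL : ¬ LG A σ S) (hk : Lk A σ S) {p v : V}
    {U P M H : Set V} {k : V} (c : Step2Cfg A σ S p v U P M H k) (hkσ : σ k = false)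
    {h₁ u₁ : V} (hh1 : h₁ ∈ H) (hu1 : u₁ ∈ U) (ha1 : A h₁ u₁) : False := by
  have hs := hA.symm
  have hp : p ∈ S := c.PS c.pP
  have hv : v ∈ S := c.US c.vU
  have hkS : k ∈ S := c.MS c.kM
  have hpv : p ≠ v := fun e => hA.irr _ (e ▸ c.apv)
  have hne : ∀ {x y : V}, A x y → x ≠ y := fun h e => hA.irr _ (e ▸ h)
  -- membership in links
  have inN : ∀ {q z : V}, z ∈ S → A q z → z ∈ lnk A S q true := fun hz h =>
    ⟨hz, (hne h).symm, by simpa using h⟩
  have inC : ∀ {q z : V}, z ∈ S → z ≠ q → ¬ A q z → z ∈ lnk A S q false := fun hz h1 h =>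
    ⟨hz, h1, by simpa using h⟩
  have kU : ∀ u ∈ U, A k u := fun u hu => c.MU k c.kM u hu
  have kP : ∀ u ∈ P, A k u := fun u hu => c.MP k c.kM u hu
  have hHne : ∀ h ∈ H, ∀ x ∈ U, h ≠ x := fun h hh x hx e =>
    c.Hp h hh (e ▸ hs _ _ (c.pU x hx))
  have hHneP : ∀ h ∈ H, ∀ x ∈ P, h ≠ x := fun h hh x hx e =>
    c.Hv h hh (e ▸ hs _ _ (c.vP x hx))
  -- `U - v` is complete to `P - p`
  have hUR : ∀ u ∈ U, u ≠ v → ∀ r ∈ P, r ≠ p → A u r := by
    intro u hu huv r hr hrp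
    by_contra hur
    have hupne : u ≠ r := by
      rintro rfl
      exact c.pP' _ hr (c.pU _ hu)
    exact hk.noP4 k hkS true u (inN (c.US hu) (kU u hu)) p (inN hp (kP p c.pP))
      v (inN hv (kU v c.vU)) r (inN (c.PS hr) (kP r hr)) (hs _ _ (c.pU u hu)) c.apv (c.vP r hr)
      (fun h => c.vU' u hu (hs _ _ h)) hur (c.pP' r hr) huv hupne hrp.symm
  -- no vertex of `H` sees both
  have hboth : ∀ h ∈ H, ∀ u ∈ U, u ≠ v → ∀ r ∈ P, r ≠ p → A h u → A h r → False := by
    intro h hh u hu huv r hr hrp h1 h2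
    have hrS := c.PS hr
    exact hk.noP4 r hrS true h (inN (c.HS hh) (hs _ _ h2)) u
      (inN (c.US hu) (hs _ _ (hUR u hu huv r hr hrp))) k (inN hkS (hs _ _ (kP r hr))) v
      (inN hv (hs _ _ (c.vP r hr))) h1 (hs _ _ (kU u hu)) (kU v c.vU) (c.kH h hh) (c.Hv h hh)
      (fun h => c.vU' u hu (hs _ _ h)) (fun e => c.Hp h hh (e ▸ kP p c.pP))
      (hHne h hh v c.vU) huv
  have hu1v : u₁ ≠ v := by
    rintro rfl
    exact c.Hv _ hh1 ha1
  -- every vertex of `H` is adjacent to `u₁` or `h₁`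
  have hadj : ∀ h ∈ H, h ≠ h₁ → A h u₁ ∨ A h h₁ := by
    intro h hh hne1
    by_contra hcon
    push Not at hcon
    obtain ⟨n1, n2⟩ := hcon
    exact hk.noP4 h (c.HS hh) false v (inC hv (hHne h hh v c.vU).symm (c.Hv h hh))
      p (inC hp (hHneP h hh p c.pP).symm (c.Hp h hh))
      u₁ (inC (c.US hu1) (hHne h hh u₁ hu1).symm n1)
      h₁ (inC (c.HS hh1) hne1.symm n2) (hs _ _ c.apv) (c.pU u₁ hu1) (hs _ _ ha1)
      (c.vU' u₁ hu1) (fun h => c.Hv _ hh1 (hs _ _ h)) (fun h => c.Hp _ hh1 (hs _ _ h))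
      hu1v.symm (hHne h₁ hh1 v c.vU).symm (hHneP h₁ hh1 p c.pP).symm
  -- the component of `h₁`
  obtain ⟨Y, hYC, hh1Y, hYd, hYc, -⟩ := step2_comp (B := A) hs (lnk A S v false)
    (inC (c.HS hh1) (hHne h₁ hh1 v c.vU) (fun h => c.Hv _ hh1 (hs _ _ h)))
  have hu1Y : u₁ ∈ Y := by
    by_contra hcon
    exact hYc h₁ hh1Y u₁ (inC (c.US hu1) hu1v (c.vU' u₁ hu1)) hcon ha1
  have hHY : ∀ h ∈ H, h ∈ Y := by
    intro h hh
    by_cases he : h = h₁
    · rw [he]; exact hh1Y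
    by_contra hcon
    have hmem := inC (c.HS hh) (hHne h hh v c.vU) (fun h' => c.Hv _ hh (hs _ _ h'))
    rcases hadj h hh he with h1 | h1
    · exact hYc u₁ hu1Y h hmem hcon (hs _ _ h1)
    · exact hYc h₁ hh1Y h hmem hcon (hs _ _ h1)
  obtain ⟨d, hdY, hdσ, hdY'⟩ := hk.non v hv Y hYC ⟨h₁, hh1Y, u₁, hu1Y, hne ha1⟩ hYd hYc
  have hdC := hYC hdY
  have hdS : d ∈ S := hdC.1
  have hdv : d ≠ v := hdC.2.1
  have hnvd : ¬ A v d := by
    have := hdC.2.2
    simpa using this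
  rcases c.cov d hdS with hd | hd | hd | hd
  · -- `d` in `U`
    have hdH : ∀ h ∈ H, A d h := fun h hh => hdY' h (hHY h hh) (hHne h hh d hd)
    have hmod : IsMod A S P := by
      refine ⟨c.PS, fun z hz hzP => ?_⟩
      rcases c.cov z hz with h | h | h | h
      · left
        intro y hy
        by_cases hzv : z = v
        · rw [hzv]; exact c.vP y hy
        by_cases hyp : y = p
        · rw [hyp]; exact hs _ _ (c.pU z h)
        exact hUR z h hzv y hy hyp
      · exact absurd h hzP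
      · left
        exact fun y hy => c.MP z h y hy
      · right
        intro y hy hzy
        by_cases hyp : y = p
        · exact c.Hp z h (hyp ▸ hzy)
        exact hboth z h d hd hdv y hy hyp (hs _ _ (hdH z h)) hzy
    obtain ⟨x, hx, y, hy, hxy⟩ := c.nP
    have hvP : v ∉ P := fun h => hA.irr _ (c.vP v h)
    exact hxy (step2_mod hS hmod hv hvP hx hy)
  · exact hnvd (c.vP d hd)
  · exact hnvd (hs _ _ (c.MU d hd v c.vU))
  · -- `d` in `H`
    have hdk : ¬ A d k := c.kH d hd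
    have hdkne : d ≠ k := fun e => c.Hp d hd (e ▸ kP p c.pP)
    apply hL
    left
    refine ⟨d, k, ⟨⟨hdS, hkS, hdkne, hdk, hdσ, hkσ⟩, ?_⟩, u₁, c.US hu1, ?_, hs _ _ (kU u₁ hu1)⟩
    · rintro K ⟨⟨x, hx⟩, hKS, hK⟩
      obtain ⟨x1, x2, x3, x4, -⟩ := hK x hx
      rcases c.cov x (hKS hx) with h | h | h | h
      · exact x4 (hs _ _ (kU x h))
      · exact x4 (hs _ _ (kP x h))
      · exact x4 (c.kc x h x2)
      · exact x3 (hs _ _ (hdY' x (hHY x h) x1))
    · exact hs _ _ (hdY' u₁ hu1Y (hHne d hd u₁ hu1).symm)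

/-- no final configuration -/
theorem step2_cfg (hA : Gr A) (hS : Prime A S) (hL : ¬ LG A σ S) (hk : Lk A σ S) {p v : V}
    {U P M H : Set V} {k : V} (c : Step2Cfg A σ S p v U P M H k) : False := by
  have c' := step2_swap hA c
  rcases hσ : σ k with _ | _
  · by_cases h1 : ∃ h ∈ H, ∃ u ∈ U, A h u
    · obtain ⟨h, hh, u, hu, hhu⟩ := h1
      exact step2_caseF hA hS hL hk c hσ hh hu hhu
    by_cases h2 : ∃ h ∈ H, ∃ u ∈ P, A h u
    · obtain ⟨h, hh, u, hu, hhu⟩ := h2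
      exact step2_caseF hA hS hL hk c' hσ hh hu hhu
    push Not at h1 h2
    exact step2_modX hA hS c (fun u hu h hh => h1 h hh u hu) (fun u hu h hh => h2 h hh u hu)
  · exact step2_modX hA hS c (step2_caseT hA hS hL c hσ) (step2_caseT hA hS hL c' hσ)

/-- a triple -/
structure Step2Tri (A : V → V → Prop) (σ : V → Bool) (S : Set V) (p v : V) (U : Set V) :
    Prop where
  hp : p ∈ S
  sp : σ p = true
  sub : U ⊆ lnk A S p true
  nt : U.Nontrivial
  con : ¬ Disc (co A) U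
  comp : ∀ u ∈ U, ∀ w ∈ lnk A S p true, w ∉ U → A u w
  hv : v ∈ U
  sv : σ v = true
  iso : ∀ y ∈ U, ¬ A v y

theorem step2_tri (hA : Gr A) (hS : Prime A S) (h5 : 5 ≤ S.ncard) (hL : ¬ LG A σ S)
    (hk : Lk A σ S)
    (ha : ∀ p ∈ S, ∀ q ∈ S, σ p = true → σ q = true → A p q → ∃ h ∈ S, A h p ∧ A h q) :
    ∀ (n : ℕ) (p v : V) (U : Set V), {z | z ∈ S ∧ A p z ∧ A v z}.ncard = n →
      Step2Tri A σ S p v U → False := by
  intro n
  induction n using Nat.strong_induction_on with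
  | _ n ih =>
  intro p v U hn t
  have hs := hA.symm
  have hne : ∀ {x y : V}, A x y → x ≠ y := fun h e => hA.irr _ (e ▸ h)
  have inN : ∀ {q z : V}, z ∈ S → A q z → z ∈ lnk A S q true := fun hz h =>
    ⟨hz, (hne h).symm, by simpa using h⟩
  have outN : ∀ {q z : V}, z ∈ lnk A S q true → A q z := fun h => by
    have := h.2.2
    simpa using this
  have hp := t.hp
  have hv : v ∈ S := (t.sub t.hv).1
  have apv : A p v := outN (t.sub t.hv)
  have hpv : p ≠ v := hne apv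
  set M : Set V := {z | z ∈ S ∧ A p z ∧ A v z} with hM
  set H : Set V := {z | z ∈ S ∧ z ≠ p ∧ z ≠ v ∧ ¬ A z p ∧ ¬ A z v} with hH
  have pU : ∀ u ∈ U, A p u := fun u hu => outN (t.sub hu)
  have US : U ⊆ S := fun u hu => (t.sub hu).1
  have MU : ∀ m ∈ M, ∀ u ∈ U, A m u := by
    rintro m ⟨h1, h2, h3⟩ u hu
    refine hs _ _ (t.comp u hu m (inN h1 h2) ?_)
    intro hmU
    exact t.iso m hmU h3
  have Mn : M.Nonempty := by
    obtain ⟨h, hh, h1, h2⟩ := ha p hp v hv t.sp t.sv apv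
    exact ⟨h, hh, hs _ _ h1, hs _ _ h2⟩
  -- classification of the vertices
  have cov0 : ∀ z ∈ S, z = p ∨ z ∈ U ∨ z ∈ M ∨ (A v z ∧ ¬ A p z) ∨ z ∈ H := by
    intro z hz
    by_cases h1 : z = p
    · exact Or.inl h1
    by_cases h2 : A p z
    · by_cases h3 : z ∈ U
      · exact Or.inr (Or.inl h3)
      · refine Or.inr (Or.inr (Or.inl ⟨hz, h2, ?_⟩))
        exact t.comp v t.hv z (inN hz h2) h3
    · by_cases h3 : A v z
      · exact Or.inr (Or.inr (Or.inr (Or.inl ⟨h3, h2⟩)))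
      · refine Or.inr (Or.inr (Or.inr (Or.inr ⟨hz, h1, ?_, fun h => h2 (hs _ _ h),
          fun h => h3 (hs _ _ h)⟩)))
        rintro rfl
        exact h2 apv
  have hMH : ∀ m ∈ M, m ∉ H := fun m hm hm' => hm'.2.2.2.1 (hs _ _ hm.2.1)
  -- (i) the set `K`
  obtain ⟨K0, hK0n, hK0M, hK0c, hK0H⟩ : ∃ K0 : Set V, K0.Nonempty ∧ K0 ⊆ M ∧
      (∀ k ∈ K0, ∀ w ∈ M, w ∉ K0 → A k w) ∧ (∀ k ∈ K0, ∀ h ∈ H, ¬ A h k) := by
    by_cases hHn : H.Nonempty
    · obtain ⟨h, hh⟩ := hHn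
      obtain ⟨K, hKn, hKS, hK⟩ := step2_det hL hp hv hpv apv t.sp t.sv hh.1 hh.2.1 hh.2.2.1
        hh.2.2.2.1 hh.2.2.2.2
      refine ⟨K, hKn, fun k hk => ⟨hKS hk, hs _ _ (hK k hk).2.2.1, hs _ _ (hK k hk).2.2.2.1⟩,
        fun k hk w hw hwK => ?_, fun k hk h hh => ?_⟩
      · exact ((hK k hk).2.2.2.2 w hw.1 hwK (hne hw.2.1).symm (hne hw.2.2).symm).2
          (hs _ _ hw.2.1) (hs _ _ hw.2.2)
      · have hhK : h ∉ K := fun hhK => hh.2.2.2.1 (hK h hhK).2.2.1
        exact fun h' => ((hK k hk).2.2.2.2 h hh.1 hhK hh.2.1 hh.2.2.1).1 hh.2.2.2.1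
          hh.2.2.2.2 (hs _ _ h')
    · rw [Set.not_nonempty_iff_eq_empty] at hHn
      refine ⟨M, Mn, Set.Subset.rfl, fun k _ w hw hwM => absurd hw hwM, fun k _ h hh => ?_⟩
      rw [hHn] at hh
      exact absurd hh (Set.notMem_empty _)
  obtain ⟨k, hkK0⟩ := hK0n
  obtain ⟨K, hKM, hkK, -, hKc, hKmin⟩ := step2_comp (B := co A) (step2_cosymm hA) M (hK0M hkK0)
  have hKK0 : K ⊆ K0 := hKmin K0 hK0M hkK0 fun k hk w hw hwK h => h.2 (hK0c k hk w hw hwK)
  have hKc' : ∀ x ∈ K, ∀ w ∈ M, w ∉ K → A x w := by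
    intro x hx w hw hwK
    by_contra h
    exact hKc x hx w hw hwK ⟨fun e => hwK (e ▸ hx), h⟩
  have hKH : ∀ x ∈ K, ∀ h ∈ H, ¬ A h x := fun x hx h hh => hK0H x (hKK0 hx) h hh
  have hpK : p ∉ K := fun h => hA.irr _ (hKM h).2.1
  have hkM : k ∈ M := hKM hkK
  -- `K` is a module as soon as `M` is complete to the rest of the neighbours of `v`
  have hKmod : (∀ z ∈ S, A v z → ¬ A p z → ∀ m ∈ M, z ≠ p → A z m) → ∀ x ∈ K, x = k := by
    intro hR x hx
    refine step2_mod hS (U := K) ⟨fun y hy => (hKM hy).1, fun z hz hzK => ?_⟩ hp hpK hx hkK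
    by_cases hzp : z = p
    · left
      intro u hu
      rw [hzp]
      exact (hKM hu).2.1
    rcases cov0 z hz with h | h | h | h | h
    · exact absurd h hzp
    · left
      exact fun u hu => hs _ _ (MU u (hKM hu) z h)
    · left
      exact fun u hu => hs _ _ (hKc' u hu z h hzK)
    · left
      exact fun u hu => hR z hz h.1 h.2 u (hKM hu) hzp
    · right
      exact fun u hu => hKH u hu z h
  -- (ii) `R` is nonempty
  obtain ⟨r, hr, hvr, hpr, hrp⟩ : ∃ r ∈ S, A v r ∧ ¬ A p r ∧ r ≠ p := by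
    by_contra hcon
    push Not at hcon
    have hK1 := hKmod (fun z hz h1 h2 m hm hzp => absurd (hcon z hz h1 h2) hzp)
    have hmod : IsMod A S {k, p} := by
      refine ⟨?_, fun z hz hzU => ?_⟩
      · rintro x (rfl | rfl)
        · exact hkM.1
        · exact hp
      · have hzk : z ≠ k := fun e => hzU (Or.inl e)
        have hzp : z ≠ p := fun e => hzU (Or.inr e)
        rcases cov0 z hz with h | h | h | h | h
        · exact absurd h hzp
        · left
          rintro u (rfl | rfl)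
          · exact hs _ _ (MU _ hkM z h)
          · exact hs _ _ (pU z h)
        · left
          rintro u (rfl | rfl)
          · exact hs _ _ (hKc' _ hkK z h (fun hzK => hzk (hK1 z hzK)))
          · exact hs _ _ h.2.1
        · exact absurd (hcon z hz h.1 h.2) hzp
        · right
          rintro u (rfl | rfl)
          · exact hKH _ hkK z h
          · exact h.2.2.2.1
    have hvU : v ∉ ({k, p} : Set V) := by
      rintro (h | h)
      · exact hA.irr _ (h ▸ hkM.2.2)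
      · exact hpv h.symm
    have := step2_mod hS hmod hv hvU (x := k) (y := p) (Or.inl rfl) (Or.inr rfl)
    exact hpK (this ▸ hkK)
  -- (iii) the co-component of `p` in the neighbourhood of `v`
  obtain ⟨P, hPN, hpP, hPd, hPc, -⟩ := step2_comp (B := co A) (step2_cosymm hA)
    (lnk A S v true) (inN hp (hs _ _ apv))
  have hPc' : ∀ u ∈ P, ∀ w ∈ lnk A S v true, w ∉ P → A u w := by
    intro u hu w hw hwP
    by_contra h
    exact hPc u hu w hw hwP ⟨fun e => hwP (e ▸ hu), h⟩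
  have hRP : ∀ z ∈ S, A v z → ¬ A p z → z ∈ P := by
    intro z hz h1 h2
    by_cases hzp : z = p
    · rw [hzp]; exact hpP
    by_contra h
    exact h2 (hPc' p hpP z (inN hz h1) h)
  have hPn : P.Nontrivial := ⟨p, hpP, r, hRP r hr hvr hpr, hrp.symm⟩
  have vP : ∀ y ∈ P, A v y := fun y hy => outN (hPN hy)
  -- (iv) `p` has a neighbour in `P`
  obtain ⟨y, hyP, hpy⟩ : ∃ y ∈ P, A p y := by
    by_contra hcon
    push Not at hcon
    have MP : ∀ m ∈ M, ∀ z ∈ P, A m z := by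
      intro m hm z hz
      refine hs _ _ (hPc' z hz m (inN hm.1 hm.2.2) ?_)
      intro hmP
      exact hcon m hmP hm.2.1
    have hK1 := hKmod (fun z hz h1 h2 m hm hzp => hs _ _ (MP m hm z (hRP z hz h1 h2)))
    have hkc : ∀ m ∈ M, m ≠ k → A m k := fun m hm hmk =>
      hs _ _ (hKc' k hkK m hm (fun hmK => hmk (hK1 m hmK)))
    have hHn : H.Nonempty := by
      by_contra hHn
      rw [Set.not_nonempty_iff_eq_empty] at hHn
      have hmod : IsMod A S (S \ {k}) := by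
        refine ⟨Set.sdiff_subset, fun z hz hzU => ?_⟩
        have hzk : z = k := by
          by_contra hne'
          exact hzU ⟨hz, hne'⟩
        rw [hzk]
        left
        rintro u ⟨hu, huk⟩
        have huk' : u ≠ k := huk
        rcases cov0 u hu with h | h | h | h | h
        · rw [h]; exact hs _ _ hkM.2.1
        · exact MU k hkM u h
        · exact hs _ _ (hkc u h huk')
        · exact MP k hkM u (hRP u hu h.1 h.2)
        · rw [hHn] at h
          exact absurd h (Set.notMem_empty _)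
      have e := step2_mod hS hmod hkM.1 (fun h => h.2 rfl) (x := p) (y := v)
        ⟨hp, fun e => hpK (by rw [Set.mem_singleton_iff] at e; rw [e]; exact hkK)⟩
        ⟨hv, fun e => hA.irr v (by
          rw [Set.mem_singleton_iff] at e
          have := hkM.2.2
          rw [← e] at this
          exact this)⟩
      exact hpv e
    have cfg : Step2Cfg A σ S p v U P M H k := {
      sp := t.sp
      sv := t.sv
      apv := apv
      vU := t.hv
      pP := hpP
      cov := by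
        intro z hz
        rcases cov0 z hz with h | h | h | h | h
        · rw [h]; exact Or.inr (Or.inl hpP)
        · exact Or.inl h
        · exact Or.inr (Or.inr (Or.inl h))
        · exact Or.inr (Or.inl (hRP z hz h.1 h.2))
        · exact Or.inr (Or.inr (Or.inr h))
      US := US
      PS := fun z hz => (hPN hz).1
      MS := fun z hz => hz.1
      HS := fun z hz => hz.1
      pU := pU
      vP := vP
      vU' := t.iso
      pP' := hcon
      MU := MU
      MP := MP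
      Hp := fun h hh => hh.2.2.2.1
      Hv := fun h hh => hh.2.2.2.2
      cU := t.con
      cP := hPd
      nU := t.nt
      nP := hPn
      kM := hkM
      kc := hkc
      kH := fun h hh => hKH k hkK h hh
      nH := hHn }
    exact step2_cfg hA hS hL hk cfg
  -- (v) a smaller triple
  obtain ⟨p2, hp2, sp2, hp2'⟩ := hk.nbr v hv P hPN hPn hPd hPc'
  have hlt : {z | z ∈ S ∧ A v z ∧ A p2 z}.ncard < n := by
    rw [← hn]
    apply Set.ncard_lt_ncard _ (Set.toFinite _)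
    refine ⟨?_, ?_⟩
    · rintro z ⟨h1, h2, h3⟩
      have hzP : z ∉ P := fun h => hp2' z h h3
      exact ⟨h1, hPc' p hpP z (inN h1 h2) hzP, h2⟩
    · intro hle
      have h1 : y ∈ M := ⟨(hPN hyP).1, hpy, vP y hyP⟩
      exact hp2' y hyP (hle h1).2.2
  exact ih _ hlt v p2 P rfl ⟨hv, t.sv, hPN, hPn, hPd, hPc', hp2, sp2, hp2'⟩

/-- Step 2: every vertex of `V₁` is simplicial. -/
theorem step2 (hA : Gr A) (hS : Prime A S) (h5 : 5 ≤ S.ncard) (hL : ¬ LG A σ S) (hk : Lk A σ S)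
    (ha : ∀ p ∈ S, ∀ q ∈ S, σ p = true → σ q = true → A p q → ∃ h ∈ S, A h p ∧ A h q) :
    ∀ p ∈ S, σ p = true → ∀ x ∈ S, ∀ y ∈ S, A p x → A p y → x ≠ y → A x y := by
  intro p hp sp x hx y hy hpx hpy hxy
  by_contra hnxy
  have hne : ∀ {x y : V}, A x y → x ≠ y := fun h e => hA.irr _ (e ▸ h)
  have inN : ∀ {q z : V}, z ∈ S → A q z → z ∈ lnk A S q true := fun hz h =>
    ⟨hz, (hne h).symm, by simpa using h⟩
  obtain ⟨U, hUN, hxU, hUd, hUc, -⟩ := step2_comp (B := co A) (step2_cosymm hA)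
    (lnk A S p true) (inN hx hpx)
  have hUc' : ∀ u ∈ U, ∀ w ∈ lnk A S p true, w ∉ U → A u w := by
    intro u hu w hw hwP
    by_contra h
    exact hUc u hu w hw hwP ⟨fun e => hwP (e ▸ hu), h⟩
  have hyU : y ∈ U := by
    by_contra h
    exact hnxy (hUc' x hxU y (inN hy hpy) h)
  have hUn : U.Nontrivial := ⟨x, hxU, y, hyU, hxy⟩
  obtain ⟨v, hv, sv, hv'⟩ := hk.nbr p hp U hUN hUn hUd hUc'
  exact step2_tri hA hS h5 hL hk ha _ p v U rfl ⟨hp, sp, hUN, hUn, hUd, hUc', hv, sv, hv'⟩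

end Pool.Agent.GDT
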