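import Pool.Agent.GDT.Defs

set_option autoImplicit false

namespace Pool.Agent.GDT

variable {V : Type*} [Finite V] {A : V → V → Prop} {σ : V → Bool} {S : Set V}

omit [Finite V] in
private theorem step3_comp {B : V → V → Prop} (hB : ∀ x y, B x y → B y x) (M : Set V) {x : V}
    (hx : x ∈ M) :
    ∃ U ⊆ M, x ∈ U ∧ ¬ Disc B U ∧ (∀ u ∈ U, ∀ w ∈ M, w ∉ U → ¬ B u w) ∧
      ∀ K ⊆ M, x ∈ K → (∀ k ∈ K, ∀ w ∈ M, w ∉ K → ¬ B k w) → U ⊆ K := by
  refine ⟨{y | Relation.ReflTransGen (fun a b => B a b ∧ b ∈ M) x y}, ?_,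
    Relation.ReflTransGen.refl, ?_, ?_, ?_⟩
  · intro y hy
    rcases Relation.ReflTransGen.cases_tail hy with h | ⟨z, _, _, h⟩
    · rw [h]; exact hx
    · exact h
  · rintro ⟨C, hCU, ⟨c, hc⟩, ⟨y, hyU, hyC⟩, hno⟩
    by_cases hxC : x ∈ C
    · apply hyC
      have : ∀ z, Relation.ReflTransGen (fun a b => B a b ∧ b ∈ M) x z → z ∈ C := by
        intro z hz
        induction hz with
        | refl => exact hxC
        | tail h1 h2 ih =>
          by_contra hb
          exact hno _ ih _ (h1.tail h2) hb h2.1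
      exact this y hyU
    · have : ∀ z, Relation.ReflTransGen (fun a b => B a b ∧ b ∈ M) x z → z ∉ C := by
        intro z hz
        induction hz with
        | refl => exact hxC
        | tail h1 h2 ih =>
          intro hb
          exact hno _ hb _ h1 ih (hB _ _ h2.1)
      exact this c (hCU hc) hc
  · intro u hu w hw hwU hB'
    exact hwU (Relation.ReflTransGen.tail hu ⟨hB', hw⟩)
  · intro K hKM hxK hK y hy
    have : ∀ z, Relation.ReflTransGen (fun a b => B a b ∧ b ∈ M) x z → z ∈ K := by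
      intro z hz
      induction hz with
      | refl => exact hxK
      | tail h1 h2 ih =>
        by_contra hb
        exact hK _ ih _ h2.2 hb h2.1
    exact this y hy

omit [Finite V] in
private theorem step3_mod (hS : Prime A S) {U : Set V} (hU : IsMod A S U) {w : V} (hw : w ∈ S)
    (hwU : w ∉ U) {x y : V} (hx : x ∈ U) (hy : y ∈ U) (hne : x ≠ y) : False := by
  rcases hS U hU with h | h
  · exact hne (h hx hy)
  · rw [h] at hwU
    exact hwU hw

private theorem step3_third (h5 : 5 ≤ S.ncard) (p q : V) : ∃ w ∈ S, w ≠ p ∧ w ≠ q := by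
  by_contra hcon
  push Not at hcon
  have h1 : S ⊆ {p, q} := by
    intro w hw
    by_cases h : w = p
    · exact Or.inl h
    · exact Or.inr (hcon w hw h)
  have h2 := Set.ncard_le_ncard h1 (Set.toFinite _)
  have h4 : ({p, q} : Set V).ncard ≤ 2 := (Set.ncard_insert_le p {q}).trans (by simp)
  omega

private theorem step3_pair (hS : Prime A S) (h5 : 5 ≤ S.ncard) {p q : V} (hp : p ∈ S)
    (hq : q ∈ S) (hne : p ≠ q) (h : ∀ z ∈ S, z ≠ p → z ≠ q → (A z p ↔ A z q)) : False := by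
  obtain ⟨w, hw, hwp, hwq⟩ := step3_third h5 p q
  refine step3_mod hS (U := {p, q}) ⟨?_, ?_⟩ hw ?_ (Or.inl rfl) (Or.inr rfl) hne
  · rintro x (rfl | rfl)
    · exact hp
    · exact hq
  · intro z hz hzU
    have h1 : z ≠ p := fun e => hzU (Or.inl e)
    have h2 : z ≠ q := fun e => hzU (Or.inr e)
    by_cases h3 : A z p
    · left
      rintro u (rfl | rfl)
      · exact h3
      · exact (h z hz h1 h2).mp h3
    · right
      rintro u (rfl | rfl)
      · exact h3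
      · exact fun h4 => h3 ((h z hz h1 h2).mpr h4)
  · rintro (h1 | h1)
    · exact hwp h1
    · exact hwq h1

omit [Finite V] in
private theorem step3_link (hL : ¬ LG A σ S) {i j : V} (hi : i ∈ S) (hj : j ∈ S) (hne : i ≠ j)
    (hij : ¬ A i j) (si : σ i = false) (sj : σ j = false)
    (hno : ∀ k ∈ S, k ≠ i → k ≠ j → ¬ A k i → ¬ A k j → False) :
    ∀ h ∈ S, A h i → A h j → False := by
  intro h hh h1 h2
  apply hL
  left
  refine ⟨i, j, ⟨⟨hi, hj, hne, hij, si, sj⟩, ?_⟩, ⟨h, hh, h1, h2⟩⟩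
  rintro K ⟨⟨k, hk⟩, hKS, hK⟩
  obtain ⟨k1, k2, k3, k4, -⟩ := hK k hk
  exact hno k (hKS hk) k1 k2 k3 k4

/-- simplicial vertices of `V₁` are independent -/
theorem indep_of_simplicial (hA : Gr A) (hS : Prime A S) (h5 : 5 ≤ S.ncard)
    (hs : ∀ p ∈ S, σ p = true → ∀ x ∈ S, ∀ y ∈ S, A p x → A p y → x ≠ y → A x y) :
    ∀ p ∈ S, ∀ q ∈ S, σ p = true → σ q = true → ¬ A p q := by
  intro p hp q hq sp sq hpq
  have hne : p ≠ q := fun e => hA.irr q (e ▸ hpq)
  refine step3_pair hS h5 hp hq hne fun z hz hzp hzq => ⟨fun h => ?_, fun h => ?_⟩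
  · exact hA.symm _ _ (hs p hp sp q hq z hz hpq (hA.symm _ _ h) hzq.symm)
  · exact hA.symm _ _ (hs q hq sq p hp z hz (hA.symm _ _ hpq) (hA.symm _ _ h) hzp.symm)

/-- a vertex of `V₀` in the neighbourhood of `p` does not dominate it -/
private theorem step3_claim (hA : Gr A) (hS : Prime A S) (h5 : 5 ≤ S.ncard) (hL : ¬ LG A σ S)
    {p q : V} (hp : p ∈ S) (hq : q ∈ S) (sq : σ q = false) (hpq : ¬ A p q)
    (hno : ∀ k ∈ S, k ≠ p → k ≠ q → A k p ∨ A k q)
    (hlk : ∀ h ∈ S, A h p → A h q → False) {a : V} (ha : a ∈ S) (hap : A a p)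
    (sa : σ a = false) (hdom : ∀ x ∈ S, A x p → x ≠ a → A x a) : False := by
  have haq : ¬ A a q := fun h => hlk a ha hap h
  have hne : a ≠ q := by
    rintro rfl
    exact hpq (hA.symm _ _ hap)
  have hane : a ≠ p := fun e => hA.irr p (e ▸ hap)
  have h1 := step3_link hL ha hq hne haq sa sq (by
    intro k hk hka hkq h2 h3
    have hkp : k ≠ p := by
      rintro rfl
      exact h2 (hA.symm _ _ hap)
    rcases hno k hk hkp hkq with h | h
    · exact h2 (hdom k hk h hka)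
    · exact h3 h)
  refine step3_pair hS h5 ha hp hane fun z hz hza hzp => ⟨fun h => ?_, fun h => ?_⟩
  · have hzq : z ≠ q := by
      rintro rfl
      exact haq (hA.symm _ _ h)
    rcases hno z hz hzp hzq with h2 | h2
    · exact h2
    · exact absurd h2 (fun h2 => h1 z hz h h2)
  · exact hdom z hz h hza

/-- a leaf of `V₁` at `p` -/
private theorem step3_leaf (hA : Gr A) (hS : Prime A S) (h5 : 5 ≤ S.ncard) (hL : ¬ LG A σ S)
    (hk : Lk A σ S)
    (hs : ∀ p ∈ S, σ p = true → ∀ x ∈ S, ∀ y ∈ S, A p x → A p y → x ≠ y → A x y)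
    (hi : ∀ p ∈ S, ∀ q ∈ S, σ p = true → σ q = true → ¬ A p q)
    {p q : V} (hp : p ∈ S) (hq : q ∈ S) (sq : σ q = false) (hpq : ¬ A p q)
    (hno : ∀ k ∈ S, k ≠ p → k ≠ q → A k p ∨ A k q)
    (hlk : ∀ h ∈ S, A h p → A h q → False) :
    ∃ z ∈ S, A z p ∧ σ z = true ∧ ∀ x ∈ S, A z x → x = p := by
  have hcl : ∀ a ∈ S, A a p → σ a = false → (∀ x ∈ S, A x p → x ≠ a → A x a) → False :=
    fun a ha hap sa hdom => step3_claim hA hS h5 hL hp hq sq hpq hno hlk ha hap sa hdom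
  have hmem : ∀ x, x ∈ lnk A S p true ↔ x ∈ S ∧ A p x := by
    intro x
    simp only [lnk, Set.mem_ofPred_eq, iff_true]
    constructor
    · rintro ⟨h1, h2, h3⟩
      exact ⟨h1, h3⟩
    · rintro ⟨h1, h3⟩
      refine ⟨h1, ?_, h3⟩
      rintro rfl
      exact hA.irr _ h3
  -- nonempty
  have hne : ∃ a ∈ S, A a p := by
    by_contra hcon
    push Not at hcon
    obtain ⟨x, hx, hxp, -⟩ := step3_third h5 p p
    obtain ⟨y, hy, hyp, hyx⟩ := step3_third h5 p x
    refine step3_mod hS (U := S \ {p}) ⟨Set.sdiff_subset, ?_⟩ hp (fun h => h.2 rfl)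
      (x := x) (y := y) ⟨hx, hxp⟩ ⟨hy, hyp⟩ hyx.symm
    intro z hz hzU
    have hzp : z = p := by
      by_contra h
      exact hzU ⟨hz, h⟩
    right
    intro u hu h
    rw [hzp] at h
    exact hcon u hu.1 (hA.symm _ _ h)
  obtain ⟨a, ha, hap⟩ := hne
  have hane : a ≠ p := fun e => hA.irr p (e ▸ hap)
  -- at least two neighbours
  have htwo : ∃ b ∈ S, A b p ∧ b ≠ a := by
    by_contra hcon
    push Not at hcon
    have sa : σ a = true := by
      by_contra h
      exact hcl a ha hap (by simpa using h) (fun x hx hxp hxa => absurd (hcon x hx hxp) hxa)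
    refine step3_pair hS h5 ha hp hane fun z hz hza hzp => ⟨fun h => ?_, fun h => ?_⟩
    · exact hA.symm _ _ (hs a ha sa p hp z hz hap (hA.symm _ _ h) hzp.symm)
    · exact absurd (hcon z hz h) hza
  obtain ⟨b, hb, hbp, hba⟩ := htwo
  have hnt : (lnk A S p true).Nontrivial :=
    ⟨a, (hmem a).mpr ⟨ha, hA.symm _ _ hap⟩, b, (hmem b).mpr ⟨hb, hA.symm _ _ hbp⟩, hba.symm⟩
  -- every co-component contains a vertex of `V₁`
  have hcomp : ∀ (U : Set V) (x : V), U ⊆ lnk A S p true → x ∈ U → ¬ Disc (co A) U →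
      (∀ u ∈ U, ∀ w ∈ lnk A S p true, w ∉ U → ¬ co A u w) → ∃ v ∈ U, σ v = true := by
    intro U x hU hx hdisc hcl2
    have hadj : ∀ u ∈ U, ∀ w ∈ lnk A S p true, w ∉ U → A u w := by
      intro u hu w hw hwU
      by_contra h
      exact hcl2 u hu w hw hwU ⟨fun e => hwU (e ▸ hu), h⟩
    by_cases hUn : U.Nontrivial
    · obtain ⟨v, hv, sv, -⟩ := hk.nbr p hp U hU hUn hdisc hadj
      exact ⟨v, hv, sv⟩
    · rw [Set.not_nontrivial_iff] at hUn
      refine ⟨x, hx, ?_⟩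
      by_contra h
      have hxm := (hmem x).mp (hU hx)
      refine hcl x hxm.1 (hA.symm _ _ hxm.2) (by simpa using h) ?_
      intro y hy hyp hyx
      have hyU : y ∉ U := fun h' => hyx (hUn h' hx)
      exact hA.symm _ _ (hadj x hx y ((hmem y).mpr ⟨hy, hA.symm _ _ hyp⟩) hyU)
  -- co-connected
  have hcc : ¬ Disc (co A) (lnk A S p true) := by
    rintro ⟨C, hC, ⟨x0, hx0⟩, ⟨y0, hy0, hy0C⟩, hCno⟩
    have hsymm := (co_gr hA).symm
    obtain ⟨U, hU1, hU2, hU3, hU4, hU5⟩ := step3_comp hsymm (lnk A S p true) (hC hx0)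
    obtain ⟨U', hU1', hU2', hU3', hU4', hU5'⟩ := step3_comp hsymm (lnk A S p true) hy0
    have hUC : U ⊆ C := hU5 C hC hx0 (fun k hk w hw hwC => hCno k hk w hw hwC)
    have hUC' : U' ⊆ lnk A S p true \ C := by
      refine hU5' _ Set.sdiff_subset ⟨hy0, hy0C⟩ ?_
      intro k hk w hw hwC h
      have hwC' : w ∈ C := by
        by_contra h'
        exact hwC ⟨hw, h'⟩
      exact hCno w hwC' k hk.1 hk.2 (hsymm _ _ h)
    obtain ⟨v, hv, sv⟩ := hcomp U x0 hU1 hU2 hU3 hU4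
    obtain ⟨v', hv', sv'⟩ := hcomp U' y0 hU1' hU2' hU3' hU4'
    have h1 := hCno v (hUC hv) v' (hU1' hv') (hUC' hv').2
    have h2 : v ≠ v' := fun e => (hUC' hv').2 (e ▸ hUC hv)
    rw [co_iff h2, not_not] at h1
    exact hi v ((hmem v).mp (hU1 hv)).1 v' ((hmem v').mp (hU1' hv')).1 sv sv' h1
  obtain ⟨z, hz, sz, hzi⟩ := hk.nbr p hp (lnk A S p true) subset_rfl hnt hcc
    (fun _ _ w hw hw' => absurd hw hw')
  have hzm := (hmem z).mp hz
  refine ⟨z, hzm.1, hA.symm _ _ hzm.2, sz, ?_⟩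
  intro x hx hzx
  by_contra hxp
  have h1 := hs z hzm.1 sz p hp x hx (hA.symm _ _ hzm.2) hzx (fun e => hxp e.symm)
  exact hzi x ((hmem x).mpr ⟨hx, h1⟩) hzx

/-- Step 3: nonadjacent vertices of `V₀` have a common non-neighbour. -/
theorem step3 (hA : Gr A) (hS : Prime A S) (h5 : 5 ≤ S.ncard) (hL : ¬ LG A σ S) (hk : Lk A σ S)
    (hs : ∀ p ∈ S, σ p = true → ∀ x ∈ S, ∀ y ∈ S, A p x → A p y → x ≠ y → A x y)
    (hi : ∀ p ∈ S, ∀ q ∈ S, σ p = true → σ q = true → ¬ A p q) :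
    ∀ p ∈ S, ∀ q ∈ S, p ≠ q → σ p = false → σ q = false → ¬ A p q →
      ∃ h ∈ S, h ≠ p ∧ h ≠ q ∧ ¬ A h p ∧ ¬ A h q := by
  intro p hp q hq hne sp sq hpq
  by_contra hcon
  push Not at hcon
  have hno : ∀ k ∈ S, k ≠ p → k ≠ q → A k p ∨ A k q := by
    intro k hk hkp hkq
    by_contra h
    push Not at h
    exact h.2 (hcon k hk hkp hkq h.1)
  have hlk : ∀ h ∈ S, A h p → A h q → False :=
    step3_link hL hp hq hne hpq sp sq (fun k hk h1 h2 h3 h4 => by
      rcases hno k hk h1 h2 with h | h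
      · exact h3 h
      · exact h4 h)
  have hqp : ¬ A q p := fun h => hpq (hA.symm _ _ h)
  obtain ⟨z, hz, hzp, sz, hzu⟩ := step3_leaf hA hS h5 hL hk hs hi hp hq sq hpq hno hlk
  obtain ⟨z', hz', hzq', sz', hzu'⟩ := step3_leaf hA hS h5 hL hk hs hi hq hp sp hqp
    (fun k hk h1 h2 => (hno k hk h2 h1).symm) (fun h hh h1 h2 => hlk h hh h2 h1)
  have hmem : ∀ x, x ∈ lnk A S z false ↔ x ∈ S ∧ x ≠ z ∧ ¬ A z x := by
    intro x
    simp only [lnk, Set.mem_ofPred_eq, Bool.false_eq_true, iff_false]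
  have hzq : z ≠ q := by
    rintro rfl
    exact hqp hzp
  have hqM : q ∈ lnk A S z false := by
    rw [hmem]
    exact ⟨hq, hzq.symm, fun h => hne (hzu q hq h).symm⟩
  obtain ⟨Y, hY1, hY2, hY3, hY4, -⟩ := step3_comp hA.symm (lnk A S z false) hqM
  have hnbr : ∀ b ∈ S, A b q → b ∈ Y := by
    intro b hb hbq
    by_contra hbY
    have hbM : b ∈ lnk A S z false := by
      rw [hmem]
      refine ⟨hb, ?_, ?_⟩
      · rintro rfl
        exact hne (hzu q hq hbq).symm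
      · intro h
        rw [hzu b hb h] at hbq
        exact hpq hbq
    exact hY4 q hY2 b hbM hbY (hA.symm _ _ hbq)
  have hz'Y : z' ∈ Y := hnbr z' hz' hzq'
  have hz'q : z' ≠ q := fun e => hA.irr q (e ▸ hzq')
  obtain ⟨d, hd, sd, hdd⟩ := hk.non z hz Y hY1 ⟨q, hY2, z', hz'Y, hz'q.symm⟩ hY3
    (fun u hu w hw hwY => hY4 u hu w hw hwY)
  have hdz : d ≠ z' := by
    rintro rfl
    rw [sz'] at sd
    exact absurd sd (by decide)
  have hdq : d = q := hzu' d ((hmem d).mp (hY1 hd)).1 (hA.symm _ _ (hdd z' hz'Y hdz.symm))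
  subst hdq
  have hpM : p ∉ Y := by
    intro h
    exact ((hmem p).mp (hY1 h)).2.2 hzp
  refine step3_mod hS (U := Y) ⟨fun y hy => ((hmem y).mp (hY1 hy)).1, ?_⟩ hp hpM hz'Y hY2 hz'q
  intro w hw hwY
  right
  intro y hy h
  have hyS := ((hmem y).mp (hY1 hy)).1
  by_cases hwz : w = z
  · rw [hwz] at h
    have := hzu y hyS h
    rw [this] at hy
    exact hpM hy
  by_cases hwp : w = p
  · rw [hwp] at h
    by_cases hyq : y = d
    · rw [hyq] at h
      exact hpq h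
    · exact hlk y hyS (hA.symm _ _ h) (hA.symm _ _ (hdd y hy hyq))
  · have hwM : w ∈ lnk A S z false := by
      rw [hmem]
      exact ⟨hw, hwz, fun h' => hwp (hzu w hw h')⟩
    exact hY4 y hy w hwM hwY (hA.symm _ _ h)

end Pool.Agent.GDT
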