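import Pool.Agent.GDT.Defs

set_option autoImplicit false

namespace Pool.Agent.GDT

variable {V : Type*} [Finite V] {A : V → V → Prop} {σ : V → Bool} {S : Set V}

/-- a module with two elements which is not everything is impossible -/
theorem step4_two (hS : Prime A S) {x y w : V} (hxy : x ≠ y) (hw : w ∈ S) (hwx : w ≠ x)
    (hwy : w ≠ y) (hx : x ∈ S) (hy : y ∈ S)
    (h : ∀ z ∈ S, z ≠ x → z ≠ y → (A z x ↔ A z y)) : False := by
  have hm : IsMod A S {x, y} := by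
    refine ⟨?_, fun z hz hzU => ?_⟩
    · rintro v (rfl | rfl)
      · exact hx
      · exact hy
    · have h1 : z ≠ x := fun e => hzU (Or.inl e)
      have h2 : z ≠ y := fun e => hzU (Or.inr e)
      have h3 := h z hz h1 h2
      by_cases h4 : A z x
      · left
        rintro u (rfl | rfl)
        · exact h4
        · exact h3.1 h4
      · right
        rintro u (rfl | rfl)
        · exact h4
        · exact fun h5 => h4 (h3.2 h5)
  rcases hS _ hm with h1 | h1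
  · exact hxy (h1 (Or.inl rfl) (Or.inr rfl))
  · rw [← h1] at hw
    rcases hw with rfl | rfl
    · exact hwx rfl
    · exact hwy rfl

/-- no vertex is isolated or dominating -/
theorem step4_one (hS : Prime A S) (h5 : 5 ≤ S.ncard) {x : V} (hx : x ∈ S)
    (h : (∀ u ∈ S, u ≠ x → A x u) ∨ (∀ u ∈ S, u ≠ x → ¬ A x u)) : False := by
  have hfin : S.Finite := Set.toFinite S
  have hm : IsMod A S (S \ {x}) := by
    refine ⟨Set.sdiff_subset, fun z hz hzU => ?_⟩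
    have hzx : z = x := by
      by_contra hne
      exact hzU ⟨hz, hne⟩
    subst hzx
    rcases h with h | h
    · exact Or.inl fun u hu => h u hu.1 hu.2
    · exact Or.inr fun u hu => h u hu.1 hu.2
  have hc : (S \ {x}).ncard = S.ncard - 1 := Set.ncard_sdiff_singleton_of_mem hx
  rcases hS _ hm with h1 | h1
  · have := (Set.ncard_le_one_iff_subsingleton (s := S \ {x})).2 h1
    omega
  · rw [h1] at hc
    omega

theorem step4_off (hk : Lk A σ S) (hA : Gr A)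
    (hi : ∀ p ∈ S, ∀ q ∈ S, σ p = true → σ q = true → ¬ A p q)
    (hc : ∀ p ∈ S, ∀ q ∈ S, σ p = false → σ q = false → p ≠ q → A p q)
    {e₁ m₁ m₂ e₂ z : V} (hq : Quad A σ S e₁ m₁ m₂ e₂) (hz : z ∈ S)
    (ho : Off e₁ m₁ m₂ e₂ z) :
    (σ z = false ∧ A z m₁ ∧ A z m₂ ∧ ¬ (A z e₁ ∧ A z e₂)) ∨
    (σ z = true ∧ ¬ A z e₁ ∧ ¬ A z e₂ ∧ (A z m₁ ∨ A z m₂)) := by
  obtain ⟨o1, o2, o3, o4⟩ := ho
  rcases hσ : σ z with _ | _
  · left
    refine ⟨rfl, hc z hz m₁ hq.h2 hσ hq.s2 o2, hc z hz m₂ hq.h3 hσ hq.s3 o3, ?_⟩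
    rintro ⟨h1, h2⟩
    exact hk.noP4 z hz true e₁ ⟨hq.h1, o1.symm, by simpa using h1⟩
      m₁ ⟨hq.h2, o2.symm, by simpa using hc z hz m₁ hq.h2 hσ hq.s2 o2⟩
      m₂ ⟨hq.h3, o3.symm, by simpa using hc z hz m₂ hq.h3 hσ hq.s3 o3⟩
      e₂ ⟨hq.h4, o4.symm, by simpa using h2⟩ hq.a12 hq.a23 hq.a34 hq.n13 hq.n14 hq.n24
      hq.d13 hq.d14 hq.d24
  · right
    have h1 := hi z hz e₁ hq.h1 hσ hq.s1
    have h2 := hi z hz e₂ hq.h4 hσ hq.s4
    refine ⟨rfl, h1, h2, ?_⟩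
    by_contra hcon
    push Not at hcon
    exact hk.noP4 z hz false e₁ ⟨hq.h1, o1.symm, by simpa using h1⟩
      m₁ ⟨hq.h2, o2.symm, by simpa using hcon.1⟩
      m₂ ⟨hq.h3, o3.symm, by simpa using hcon.2⟩
      e₂ ⟨hq.h4, o4.symm, by simpa using h2⟩ hq.a12 hq.a23 hq.a34 hq.n13 hq.n14 hq.n24
      hq.d13 hq.d14 hq.d24

theorem step4_rev (hA : Gr A) {e₁ m₁ m₂ e₂ : V} (hq : Quad A σ S e₁ m₁ m₂ e₂) :
    Quad A σ S e₂ m₂ m₁ e₁ where
  h1 := hq.h4
  h2 := hq.h3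
  h3 := hq.h2
  h4 := hq.h1
  a12 := hA.symm _ _ hq.a34
  a23 := hA.symm _ _ hq.a23
  a34 := hA.symm _ _ hq.a12
  n13 := fun h => hq.n24 (hA.symm _ _ h)
  n14 := fun h => hq.n14 (hA.symm _ _ h)
  n24 := fun h => hq.n13 (hA.symm _ _ h)
  d13 := hq.d24.symm
  d14 := hq.d14.symm
  d24 := hq.d13.symm
  s1 := hq.s4
  s2 := hq.s3
  s3 := hq.s2
  s4 := hq.s1

/-- a vertex off the quad which is adjacent to one end (to one inner vertex) gives a module -/
theorem step4_key (hA : Gr A) (hS : Prime A S) (hk : Lk A σ S)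
    (hi : ∀ p ∈ S, ∀ q ∈ S, σ p = true → σ q = true → ¬ A p q)
    (hc : ∀ p ∈ S, ∀ q ∈ S, σ p = false → σ q = false → p ≠ q → A p q)
    (hno : ∀ e₁ m₁ m₂ e₂, Quad A σ S e₁ m₁ m₂ e₂ → ∀ z ∈ S, Off e₁ m₁ m₂ e₂ z →
      ¬ EvenT A e₁ m₁ m₂ e₂ z)
    {e₁ m₁ m₂ e₂ z : V} (hq : Quad A σ S e₁ m₁ m₂ e₂) (hz : z ∈ S)
    (ho : Off e₁ m₁ m₂ e₂ z)
    (h : (σ z = false ∧ A z e₁ ∧ ¬ A z e₂) ∨ (σ z = true ∧ A z m₁ ∧ ¬ A z m₂)) : False := by
  have hs := hA.symm
  obtain ⟨o1, o2, o3, o4⟩ := ho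
  have d12 : e₁ ≠ m₁ := fun e => hA.irr _ (e ▸ hq.a12)
  have d23 : m₁ ≠ m₂ := fun e => hA.irr _ (e ▸ hq.a23)
  have d34 : m₂ ≠ e₂ := fun e => hA.irr _ (e ▸ hq.a34)
  rcases h with ⟨hσ, h1, h2⟩ | ⟨hσ, h1, h2⟩
  · -- `z` in `V₀`
    have hzm1 := hc z hz m₁ hq.h2 hσ hq.s2 o2
    have hzm2 := hc z hz m₂ hq.h3 hσ hq.s3 o3
    have hq' : Quad A σ S e₁ z m₂ e₂ := ⟨hq.h1, hz, hq.h3, hq.h4, hs _ _ h1, hzm2, hq.a34,
      hq.n13, hq.n14, h2, hq.d13, hq.d14, o4, hq.s1, hσ, hq.s3, hq.s4⟩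
    apply step4_two hS o2 hq.h4 o4.symm hq.d24.symm hz hq.h2
    intro y hy hyz hym
    by_cases hye1 : y = e₁
    · rw [hye1]
      exact iff_of_true (hs _ _ h1) hq.a12
    by_cases hye2 : y = e₂
    · rw [hye2]
      exact iff_of_false (fun h => h2 (hs _ _ h)) (fun h => hq.n24 (hs _ _ h))
    by_cases hym2 : y = m₂
    · rw [hym2]
      exact iff_of_true (hs _ _ hzm2) (hs _ _ hq.a23)
    rcases hσy : σ y with _ | _
    · exact iff_of_true (hc y hy z hz hσy hσ hyz) (hc y hy m₁ hq.h2 hσy hq.s2 hym)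
    · have e1 := hi y hy e₁ hq.h1 hσy hq.s1
      have e2 := hi y hy e₂ hq.h4 hσy hq.s4
      have n1 := hno _ _ _ _ hq y hy ⟨hye1, hym, hym2, hye2⟩
      have n2 := hno _ _ _ _ hq' y hy ⟨hye1, hyz, hym2, hye2⟩
      unfold EvenT at n1 n2
      tauto
  · -- `z` in `V₁`
    have hze1 := hi z hz e₁ hq.h1 hσ hq.s1
    have hze2 := hi z hz e₂ hq.h4 hσ hq.s4
    have hq' : Quad A σ S z m₁ m₂ e₂ := ⟨hz, hq.h2, hq.h3, hq.h4, h1, hq.a23, hq.a34,
      h2, hze2, hq.n24, o3, o4, hq.d24, hσ, hq.s2, hq.s3, hq.s4⟩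
    apply step4_two hS o1 hq.h4 o4.symm hq.d14.symm hz hq.h1
    intro y hy hyz hye1
    by_cases hym1 : y = m₁
    · rw [hym1]
      exact iff_of_true (hs _ _ h1) (hs _ _ hq.a12)
    by_cases hye2 : y = e₂
    · rw [hye2]
      exact iff_of_false (fun h => hze2 (hs _ _ h)) (fun h => hq.n14 (hs _ _ h))
    by_cases hym2 : y = m₂
    · rw [hym2]
      exact iff_of_false (fun h => h2 (hs _ _ h)) (fun h => hq.n13 (hs _ _ h))
    rcases hσy : σ y with _ | _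
    · have e1 := hc y hy m₁ hq.h2 hσy hq.s2 hym1
      have e2 := hc y hy m₂ hq.h3 hσy hq.s3 hym2
      have n1 := hno _ _ _ _ hq y hy ⟨hye1, hym1, hym2, hye2⟩
      have n2 := hno _ _ _ _ hq' y hy ⟨hyz, hym1, hym2, hye2⟩
      unfold EvenT at n1 n2
      tauto
    · exact iff_of_false (hi y hy z hz hσy hσ) (hi y hy e₁ hq.h1 hσy hq.s1)

/-- Step 4: split graphs. -/
theorem step4 (hA : Gr A) (hS : Prime A S) (h5 : 5 ≤ S.ncard) (hk : Lk A σ S)
    (hi : ∀ p ∈ S, ∀ q ∈ S, σ p = true → σ q = true → ¬ A p q)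
    (hc : ∀ p ∈ S, ∀ q ∈ S, σ p = false → σ q = false → p ≠ q → A p q) : LG A σ S := by
  classical
  have hs := hA.symm
  by_contra hLG
  -- every quad is good
  have hgood : ∀ e₁ m₁ m₂ e₂, Quad A σ S e₁ m₁ m₂ e₂ → GoodQ A σ S ∅ e₁ m₁ m₂ e₂ := by
    intro e₁ m₁ m₂ e₂ hq
    refine ⟨hq, ?_⟩
    rintro K ⟨⟨k, hk1⟩, hKS, hK⟩
    obtain ⟨ho, x, hx, -⟩ := hK k hk1
    have h1 := step4_off hk hA hi hc hq (hKS hk1) ho
    unfold OddT at hx
    tauto
  have hno : ∀ e₁ m₁ m₂ e₂, Quad A σ S e₁ m₁ m₂ e₂ → ∀ z ∈ S, Off e₁ m₁ m₂ e₂ z →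
      ¬ EvenT A e₁ m₁ m₂ e₂ z := by
    intro e₁ m₁ m₂ e₂ hq z hz ho he
    exact hLG (Or.inr (Or.inr ⟨_, _, _, _, hgood _ _ _ _ hq, z, hz, ho, he⟩))
  -- existence of a quad
  obtain ⟨i₁, i₂, q₁, q₂, hi1, hi2, hq1, hq2, si1, si2, sq1, sq2, a1, a2, n1, n2⟩ :
      ∃ i₁ i₂ q₁ q₂ : V, i₁ ∈ S ∧ i₂ ∈ S ∧ q₁ ∈ S ∧ q₂ ∈ S ∧ σ i₁ = true ∧ σ i₂ = true ∧
        σ q₁ = false ∧ σ q₂ = false ∧ A i₁ q₁ ∧ A i₂ q₂ ∧ ¬ A i₁ q₂ ∧ ¬ A i₂ q₁ := by
    by_contra hcon
    have hchain : ∀ i ∈ S, ∀ j ∈ S, ∀ q ∈ S, ∀ q' ∈ S, σ i = true → σ j = true → σ q = false →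
        σ q' = false → A i q → A j q' → A i q' ∨ A j q := by
      intro i hi1 j hj q hq q' hq' si sj sq sq' h1 h2
      by_contra h3
      push Not at h3
      exact hcon ⟨i, j, q, q', hi1, hj, hq, hq', si, sj, sq, sq', h1, h2, h3.1, h3.2⟩
    by_cases hV1 : ∃ i ∈ S, σ i = true
    · -- a vertex of `V₁` with the smallest neighbourhood
      have hfin : {i | i ∈ S ∧ σ i = true}.Finite := Set.toFinite _
      obtain ⟨i, ⟨hiS, hiσ⟩, hmin⟩ := Set.exists_min_image {i | i ∈ S ∧ σ i = true}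
        (fun i => {q | q ∈ S ∧ A i q}.ncard) hfin (by
          obtain ⟨i, h1, h2⟩ := hV1
          exact ⟨i, h1, h2⟩)
      by_cases hN : ∃ q ∈ S, A i q
      · obtain ⟨q, hq, hiq⟩ := hN
        have hqσ : σ q = false := by
          rcases h : σ q with _ | _
          · rfl
          · exact absurd hiq (hi i hiS q hq hiσ h)
        apply step4_one hS h5 hq
        left
        intro u hu huq
        rcases hσu : σ u with _ | _
        · exact hc q hq u hu hqσ hσu huq.symm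
        · by_contra hqu
          have hsub : {q' | q' ∈ S ∧ A u q'} ⊂ {q' | q' ∈ S ∧ A i q'} := by
            refine ⟨?_, ?_⟩
            · rintro q' ⟨hq', huq'⟩
              refine ⟨hq', ?_⟩
              have hσq' : σ q' = false := by
                rcases h : σ q' with _ | _
                · rfl
                · exact absurd huq' (hi u hu q' hq' hσu h)
              rcases hchain i hiS u hu q hq q' hq' hiσ hσu hqσ hσq' hiq huq' with h | h
              · exact h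
              · exact absurd (hs _ _ h) hqu
            · intro hle
              have := hle (show q ∈ {q' | q' ∈ S ∧ A i q'} from ⟨hq, hiq⟩)
              exact hqu (hs _ _ this.2)
          have h1 := Set.ncard_lt_ncard hsub (Set.toFinite _)
          have h2 := hmin u ⟨hu, hσu⟩
          omega
      · push Not at hN
        exact step4_one hS h5 hiS (Or.inr fun u hu _ => hN u hu)
    · -- a clique
      push Not at hV1
      have hσ : ∀ x ∈ S, σ x = false := fun x hx => by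
        have := hV1 x hx
        simpa using this
      have hne : S.Nonempty := by
        rw [← Set.ncard_pos (Set.toFinite S)]
        omega
      obtain ⟨x, hx⟩ := hne
      exact step4_one hS h5 hx (Or.inl fun u hu hux => hc x hx u hu (hσ x hx) (hσ u hu) hux.symm)
  have hq : Quad A σ S i₁ q₁ q₂ i₂ := by
    refine ⟨hi1, hq1, hq2, hi2, a1, ?_, hs _ _ a2, n1, hi i₁ hi1 i₂ hi2 si1 si2,
      fun h => n2 (hs _ _ h), ?_, ?_, ?_, si1, sq1, sq2, si2⟩
    · apply hc q₁ hq1 q₂ hq2 sq1 sq2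
      rintro rfl
      exact n1 a1
    · rintro rfl
      rw [si1] at sq2
      exact absurd sq2 (by decide)
    · rintro rfl
      exact n1 a2
    · rintro rfl
      rw [sq1] at si2
      exact absurd si2 (by decide)
  -- a vertex off the quad
  obtain ⟨z, hz, ho⟩ : ∃ z ∈ S, Off i₁ q₁ q₂ i₂ z := by
    by_contra hcon
    have hsub : S ⊆ {i₁, q₁, q₂, i₂} := by
      intro z hz
      by_contra hz'
      apply hcon
      refine ⟨z, hz, ?_⟩
      simp only [Set.mem_insert_iff, Set.mem_singleton_iff, not_or] at hz'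
      exact hz'
    have h1 := Set.ncard_le_ncard hsub (Set.toFinite _)
    have h2 : ({i₁, q₁, q₂, i₂} : Set V).ncard ≤ 4 := by
      have a1 := Set.ncard_insert_le i₁ ({q₁, q₂, i₂} : Set V)
      have a2 := Set.ncard_insert_le q₁ ({q₂, i₂} : Set V)
      have a3 := Set.ncard_insert_le q₂ ({i₂} : Set V)
      have a4 := Set.ncard_singleton i₂
      omega
    omega
  have ho' : Off i₂ q₂ q₁ i₁ z := ⟨ho.2.2.2, ho.2.2.1, ho.2.1, ho.1⟩
  have hne := hno _ _ _ _ hq z hz ho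
  have hz1 := step4_off hk hA hi hc hq hz ho
  have k1 := step4_key hA hS hk hi hc hno hq hz ho
  have k2 := step4_key hA hS hk hi hc hno (step4_rev hA hq) hz ho'
  unfold EvenT at hne
  tauto

end Pool.Agent.GDT
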