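import Pool.Agent.GDT.LINKS
import Pool.Agent.GDT.BASE4
import Pool.Agent.GDT.STEP2
import Pool.Agent.GDT.STEP3
import Pool.Agent.GDT.STEP4

set_option autoImplicit false
set_option linter.unusedSectionVars false

/-! Assembly of T1, T1' and CL. -/

namespace Pool.Agent.GDT

variable {V : Type*} [Finite V] {A : V → V → Prop} {σ : V → Bool} {S : Set V}

/-- no good 1-pair: adjacent vertices of `V₁` have a common neighbour -/
lemma hyp_a (hA : Gr A) (h1 : ¬ GZ (co A) (cs σ) S) :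
    ∀ p ∈ S, ∀ q ∈ S, σ p = true → σ q = true → A p q → ∃ h ∈ S, A h p ∧ A h q := by
  intro p hp q hq sp sq hpq
  by_contra hcon
  push Not at hcon
  have hne : p ≠ q := by rintro rfl; exact hA.irr _ hpq
  refine h1 ⟨p, q, ⟨hp, hq, hne, fun h => h.2 hpq, by simp [cs, sp], by simp [cs, sq]⟩, ?_⟩
  rintro K ⟨⟨k, hk⟩, hKS, hK⟩
  obtain ⟨k1, k2, k3, k4, -⟩ := hK k hk
  have a1 : A k p := by by_contra h; exact k3 ⟨k1, h⟩
  have a2 : A k q := by by_contra h; exact k4 ⟨k2, h⟩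
  exact hcon k (hKS hk) a1 a2

/-- hypothesis (a) for the complement from the statement about common non-neighbours -/
lemma hyp_b (hA : Gr A)
    (hb : ∀ p ∈ S, ∀ q ∈ S, p ≠ q → σ p = false → σ q = false → ¬ A p q →
      ∃ h ∈ S, h ≠ p ∧ h ≠ q ∧ ¬ A h p ∧ ¬ A h q) :
    ∀ p ∈ S, ∀ q ∈ S, cs σ p = true → cs σ q = true → co A p q →
      ∃ h ∈ S, co A h p ∧ co A h q := by
  intro p hp q hq sp sq hpq
  obtain ⟨h, hS, h1, h2, h3, h4⟩ := hb p hp q hq hpq.1 (by simpa [cs] using sp)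
    (by simpa [cs] using sq) hpq.2
  exact ⟨h, hS, ⟨h1, h3⟩, ⟨h2, h4⟩⟩

/-- final steps: `(a)` for `A` and for the complement give a linked good set -/
lemma finish_ab (hA : Gr A) (hS : Prime A S) (h5 : 5 ≤ S.ncard) (hno : ¬ LG A σ S)
    (hT : T1below A σ S)
    (ha : ∀ p ∈ S, ∀ q ∈ S, σ p = true → σ q = true → A p q → ∃ h ∈ S, A h p ∧ A h q)
    (hb : ∀ p ∈ S, ∀ q ∈ S, cs σ p = true → cs σ q = true → co A p q →
      ∃ h ∈ S, co A h p ∧ co A h q) : False := by
  have hA' := co_gr hA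
  have hS' := prime_co hA hS
  have hno' : ¬ LG (co A) (cs σ) S := fun h => hno ((LG_co hA).1 h)
  have hk := links hA hS hno hT
  have hk' := links hA' hS' hno' (T1below_co hA hT)
  have s1 := step2 hA hS h5 hno hk ha
  have i1 := indep_of_simplicial hA hS h5 s1
  have s2 := step2 hA' hS' h5 hno' hk' hb
  have i2 := indep_of_simplicial hA' hS' h5 s2
  refine hno (step4 hA hS h5 hk i1 ?_)
  intro p hp q hq sp sq hne
  by_contra h
  exact i2 p hp q hq (by simp [cs, sp]) (by simp [cs, sq]) ⟨hne, h⟩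

/-- no good 1-pair leads to a linked good set -/
lemma no_GO (hA : Gr A) (hS : Prime A S) (h5 : 5 ≤ S.ncard) (hno : ¬ LG A σ S)
    (hT : T1below A σ S) (h1 : ¬ GZ (co A) (cs σ) S) : False := by
  have ha := hyp_a hA h1
  have hk := links hA hS hno hT
  have s1 := step2 hA hS h5 hno hk ha
  have i1 := indep_of_simplicial hA hS h5 s1
  have hb := step3 hA hS h5 hno hk s1 i1
  exact finish_ab hA hS h5 hno hT ha (hyp_b hA hb)

theorem T1_aux (n : ℕ) : ∀ (A : V → V → Prop) (σ : V → Bool) (S : Set V), S.ncard ≤ n → Gr A →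
    Prime A S → 4 ≤ S.ncard → T1w A σ S ∧ (5 ≤ S.ncard → T1s A σ S) := by
  induction n with
  | zero => intro A σ S h1 _ _ h2; omega
  | succ n ih =>
    intro A σ S hn hA hS h4
    have key : 5 ≤ S.ncard → T1s A σ S := by
      intro h5
      have hT : T1below A σ S := by
        intro T hT hTS hP hT4
        have : T.ncard < S.ncard := Set.ncard_lt_ncard
          (Set.ssubset_iff_subset_ne.2 ⟨hT, hTS⟩) (Set.toFinite _)
        exact ih A σ T (by omega) hA hP hT4
      by_contra hcon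
      unfold T1s at hcon
      push Not at hcon
      obtain ⟨hno, h01⟩ := hcon
      by_cases h0 : GZ A σ S
      · exact no_GO hA hS h5 hno hT (h01 h0)
      · refine no_GO (co_gr hA) (prime_co hA hS) h5 (fun h => hno ((LG_co hA).1 h))
          (T1below_co hA hT) ?_
        rw [co_co hA, cs_cs]
        exact h0
    refine ⟨?_, key⟩
    by_cases h5 : 5 ≤ S.ncard
    · rcases key h5 with h | h
      · exact Or.inl h
      · exact Or.inr (Or.inr h)
    · exact base4 hA hS (by omega)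

/-- **T1.** -/
theorem T1 (hA : Gr A) (hS : Prime A S) (h4 : 4 ≤ S.ncard) :
    T1w A σ S ∧ (5 ≤ S.ncard → T1s A σ S) :=
  T1_aux S.ncard A σ S le_rfl hA hS h4

lemma T1below_all (hA : Gr A) : T1below A σ S := fun _ _ _ hP h4 => T1 hA hP h4

lemma GS_co (hA : Gr A) (h : GS (co A) (cs σ) S) : GS A σ S := by
  rcases h with ⟨p, hp, sp, h1, h2⟩ | ⟨p, hp, sp, h1, h2⟩
  · right
    have e : lnk (co A) S p false = lnk A S p true := by
      have := lnk_co (A := A) (S := S) (p := p) (ε := true)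
      simpa using this
    rw [e] at h1 h2
    exact ⟨p, hp, by simpa [cs] using sp, h1, h2⟩
  · left
    have e : lnk (co A) S p true = lnk A S p false := by
      have := lnk_co (A := A) (S := S) (p := p) (ε := false)
      simpa using this
    rw [e] at h1 h2
    rw [co_co hA] at h2
    exact ⟨p, hp, by simpa [cs] using sp, h1, h2⟩

/-- no good single vertex: adjacent vertices of `V₁` have a common neighbour -/
lemma hyp_a' (hA : Gr A) (hS : Prime A S) (h5 : 5 ≤ S.ncard) (h1 : ¬ GS A σ S) :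
    ∀ p ∈ S, ∀ q ∈ S, σ p = true → σ q = true → A p q → ∃ h ∈ S, A h p ∧ A h q := by
  have main : ∀ p ∈ S, ∀ q ∈ S, σ p = true → A p q → (lnk A S p true).Nontrivial →
      ∃ h ∈ S, A h p ∧ A h q := by
    intro p hp q hq sp hpq hn
    have hd : Disc (co A) (lnk A S p true) := by
      by_contra h
      exact h1 (Or.inr ⟨p, hp, sp, hn, h⟩)
    have hqN : q ∈ lnk A S p true :=
      mem_nbr.2 ⟨hq, by rintro rfl; exact hA.irr _ hpq, hpq⟩
    obtain ⟨C, hC, ⟨x, hx⟩, ⟨y, hy, hyC⟩, hno⟩ := hd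
    by_cases hqC : q ∈ C
    · have := hno q hqC y hy hyC
      have hqy : A q y := by
        by_contra h
        exact this ⟨fun e => hyC (e ▸ hqC), h⟩
      exact ⟨y, (mem_nbr.1 hy).1, hA.symm _ _ (mem_nbr.1 hy).2.2, hA.symm _ _ hqy⟩
    · have := hno x hx q hqN hqC
      have hxq : A x q := by
        by_contra h
        exact this ⟨fun e => hqC (e ▸ hx), h⟩
      exact ⟨x, (mem_nbr.1 (hC hx)).1, hA.symm _ _ (mem_nbr.1 (hC hx)).2.2, hxq⟩
  intro p hp q hq sp sq hpq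
  have hne : p ≠ q := by rintro rfl; exact hA.irr _ hpq
  by_cases hn : (lnk A S p true).Nontrivial
  · exact main p hp q hq sp hpq hn
  by_cases hn' : (lnk A S q true).Nontrivial
  · obtain ⟨h, hS', h2, h3⟩ := main q hq p hp sq (hA.symm _ _ hpq) hn'
    exact ⟨h, hS', h3, h2⟩
  exfalso
  rw [Set.not_nontrivial_iff] at hn hn'
  have hqN : q ∈ lnk A S p true := mem_nbr.2 ⟨hq, hne.symm, hpq⟩
  have hpN : p ∈ lnk A S q true := mem_nbr.2 ⟨hp, hne, hA.symm _ _ hpq⟩
  have hm : IsMod A S {p, q} := by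
    refine ⟨?_, fun z hz hzn => Or.inr ?_⟩
    · rintro u (rfl | rfl)
      · exact hp
      · exact hq
    · simp only [Set.mem_insert_iff, Set.mem_singleton_iff, not_or] at hzn
      rintro u (rfl | rfl) h
      · exact hzn.2 (hn (mem_nbr.2 ⟨hz, hzn.1, hA.symm _ _ h⟩) hqN)
      · exact hzn.1 (hn' (mem_nbr.2 ⟨hz, hzn.2, hA.symm _ _ h⟩) hpN)
  rcases hS _ hm with h | h
  · exact hne (h (Or.inl rfl) (Or.inr rfl))
  · have : S.ncard = 2 := by rw [← h]; exact Set.ncard_pair hne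
    omega

/-- **T1'.** -/
theorem T1' (hA : Gr A) (hS : Prime A S) (h5 : 5 ≤ S.ncard) : LG A σ S ∨ GS A σ S := by
  by_contra hcon
  push Not at hcon
  obtain ⟨hno, hgs⟩ := hcon
  exact finish_ab hA hS h5 hno (T1below_all hA) (hyp_a' hA hS h5 hgs)
    (hyp_a' (co_gr hA) (prime_co hA hS) h5 (fun h => hgs (GS_co hA h)))

/-- **CL.** -/
theorem CL {W : Set V} {O : Set (Set V)} {c : Kd} (hA : Gr A) (hsep : Sep A W O)
    (hno : ¬ CG A σ W O c) {Q : Set V} (hQ : IsMod A W Q) :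
    (Q.Nontrivial → Disc A Q ∨ Disc (co A) Q ∨ (c = Kd.P ∧ Q = W ∧ Exc A σ W)) ∧
    (Disc A Q → Tight A W Q → (c = Kd.Z → Q ≠ W) →
      ∃ v ∈ Q, σ v = true ∧ ∀ y ∈ Q, ¬ A v y) ∧
    (Disc (co A) Q → Tight (co A) W Q → (c = Kd.O → Q ≠ W) →
      ∃ v ∈ Q, σ v = false ∧ ∀ y ∈ Q, y ≠ v → A v y) := by
  have h1 : ∀ Q, IsMod A W Q → Q.Nontrivial →
      Disc A Q ∨ Disc (co A) Q ∨ (c = Kd.P ∧ Q = W ∧ Exc A σ W) :=
    fun Q hQ hn => prime_elim hA hsep hno (fun T _ hP h4 => T1 hA hP h4) hQ hn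
  refine ⟨h1 Q hQ, fun hd ht hc => ?_, fun hd ht hc => ?_⟩
  · refine core hA hsep hno hQ ?_ hd ht hc
    intro Q' hQ' hm hn
    rcases h1 Q' hm hn with h | h | ⟨-, h, -⟩
    · exact Or.inl h
    · exact Or.inr h
    · have : Q' = Q := Set.Subset.antisymm hQ' (h ▸ hQ.1)
      exact Or.inl (this ▸ hd)
  · refine core' hA hsep hno hQ ?_ hd ht hc
    intro Q' hQ' hm hn
    rcases h1 Q' hm hn with h | h | ⟨-, h, -⟩
    · exact Or.inl h
    · exact Or.inr h
    · have : Q' = Q := Set.Subset.antisymm hQ' (h ▸ hQ.1)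
      exact Or.inr (this ▸ hd)

end Pool.Agent.GDT
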