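import Pool.Agent.GDT.Defs

set_option autoImplicit false

/-! Components of induced subgraphs. -/

namespace Pool.Agent.GDT

variable {V : Type*}

/-- `C` is closed in `U` -/
def Clo (A : V → V → Prop) (U C : Set V) : Prop :=
  C ⊆ U ∧ ∀ a ∈ C, ∀ b ∈ U, b ∉ C → ¬ A a b

/-- component of `x` in the graph induced on `U` -/
def comp (A : V → V → Prop) (U : Set V) (x : V) : Set V :=
  {y | y ∈ U ∧ ∀ C, Clo A U C → x ∈ C → y ∈ C}

variable {A : V → V → Prop} {U W : Set V} {x y : V}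

lemma comp_sub : comp A U x ⊆ U := fun _ h => h.1

lemma mem_comp_self (h : x ∈ U) : x ∈ comp A U x := ⟨h, fun _ _ h' => h'⟩

lemma comp_clo : Clo A U (comp A U x) := by
  refine ⟨comp_sub, fun a ha b hb hbn hab => ?_⟩
  apply hbn
  refine ⟨hb, fun C hC hx => ?_⟩
  by_contra hbC
  exact hC.2 a (ha.2 C hC hx) b hb hbC hab

lemma clo_compl (hA : Gr A) {C : Set V} (h : Clo A U C) : Clo A U (U \ C) := by
  refine ⟨fun _ h => h.1, fun a ha b hb hbn hab => ?_⟩
  have hbC : b ∈ C := by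
    by_contra h'
    exact hbn ⟨hb, h'⟩
  exact h.2 b hbC a ha.1 ha.2 (hA.symm _ _ hab)

lemma comp_le {C : Set V} (h : Clo A U C) (hx : x ∈ C) : comp A U x ⊆ C :=
  fun _ hy => hy.2 C h hx

lemma comp_eq (hA : Gr A) (hxU : x ∈ U) (h : y ∈ comp A U x) : comp A U y = comp A U x := by
  apply Set.Subset.antisymm
  · exact comp_le comp_clo h
  · by_cases hx : x ∈ comp A U y
    · exact comp_le comp_clo hx
    · exfalso
      have := h.2 _ (clo_compl hA (comp_clo (A := A) (U := U) (x := y))) ⟨hxU, hx⟩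
      exact this.2 (mem_comp_self h.1)

/-- vertices of different components are not adjacent -/
lemma comp_nadj (hA : Gr A) (hyU : y ∈ U) {z : V} (hz : z ∈ comp A U x)
    (h : y ∉ comp A U x) : ¬ A z y ∧ ¬ A y z :=
  ⟨comp_clo.2 z hz y hyU h, fun h' => comp_clo.2 z hz y hyU h (hA.symm _ _ h')⟩

lemma comp_conn (hA : Gr A) (hxU : x ∈ U) : ¬ Disc A (comp A U x) := by
  rintro ⟨C, hCs, ⟨c, hc⟩, ⟨y, hy, hyC⟩, hno⟩
  have hC : Clo A U C := by
    refine ⟨hCs.trans comp_sub, fun a ha b hb hbC => ?_⟩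
    by_cases hbc : b ∈ comp A U x
    · exact hno a ha b hbc hbC
    · exact (comp_nadj hA hb (hCs ha) hbc).1
  by_cases hx : x ∈ C
  · exact hyC (comp_le hC hx hy)
  · have := comp_le (clo_compl hA hC) ⟨hxU, hx⟩ (hCs hc)
    exact this.2 hc

/-- a closed subset of a module is a module -/
lemma clo_mod (hA : Gr A) {C : Set V} (hU : IsMod A W U) (hC : Clo A U C) : IsMod A W C := by
  refine ⟨hC.1.trans hU.1, fun z hz hzC => ?_⟩
  by_cases hzU : z ∈ U
  · right
    intro u hu h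
    exact hC.2 u hu z hzU hzC (hA.symm _ _ h)
  · rcases hU.2 z hz hzU with h | h
    · exact Or.inl fun u hu => h u (hC.1 hu)
    · exact Or.inr fun u hu => h u (hC.1 hu)

lemma comp_mod (hA : Gr A) (hU : IsMod A W U) : IsMod A W (comp A U x) :=
  clo_mod hA hU comp_clo

/-- a graph is not both disconnected and co-disconnected -/
lemma not_disc_codisc (hA : Gr A) (h1 : Disc A U) (h2 : Disc (co A) U) : False := by
  obtain ⟨C, hC, ⟨c, hc⟩, ⟨c', hc', hcc'⟩, hno⟩ := h1
  obtain ⟨D, hD, ⟨d, hd⟩, ⟨d', hd', hdd'⟩, hno'⟩ := h2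
  have adj : ∀ x ∈ D, ∀ y ∈ U, y ∉ D → A x y := by
    intro x hx y hy hyD
    by_contra h
    exact hno' x hx y hy hyD ⟨fun e => hyD (e ▸ hx), h⟩
  -- for x ∈ C, y ∉ C both on the same side
  have same : ∀ x ∈ C, ∀ y ∈ U, y ∉ C → (x ∈ D ↔ y ∈ D) := by
    intro x hx y hy hyC
    constructor
    · intro hxD
      by_contra hyD
      exact hno x hx y hy hyC (adj x hxD y hy hyD)
    · intro hyD
      by_contra hxD
      exact hno x hx y hy hyC (hA.symm _ _ (adj y hyD x (hC hx) hxD))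
  have hcD : ∀ x ∈ U, (x ∈ D ↔ c ∈ D) := by
    intro x hx
    by_cases hxC : x ∈ C
    · rw [same x hxC c' hc' hcc', same c hc c' hc' hcc']
    · exact (same c hc x hx hxC).symm
  exact hdd' ((hcD d' hd').2 ((hcD d (hD hd)).1 hd))

end Pool.Agent.GDT
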