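import Pool.Agent.GDT.COMP

set_option autoImplicit false

/-! The union step and the recursion. -/

namespace Pool.Agent.GDT

variable {V : Type*}

/-- **Union step.** -/
theorem union_claim [Finite V] {A : V → V → Prop} {σ : V → Bool} {W : Set V} {O : Set (Set V)}
    {c : Kd} (hA : Gr A) (hsep : Sep A W O) {Q : Set V} (hQ : IsMod A W Q) (hd : Disc A Q)
    (hdom : ∀ x ∈ Q, ∃ v ∈ comp A Q x, σ v = false ∧ ∀ y ∈ comp A Q x, y ≠ v → A v y)
    (ht : Tight A W Q) (hc : c = Kd.Z → Q ≠ W) : CG A σ W O c := by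
  classical
  by_contra hno
  have hQW := hQ.1
  -- the set of dominating `V₀` vertices
  let D : Set V := {v | v ∈ Q ∧ σ v = false ∧ ∀ y ∈ comp A Q v, y ≠ v → A v y}
  have hDrep : ∀ x ∈ Q, ∃ v ∈ D, v ∈ comp A Q x := by
    intro x hx
    obtain ⟨v, hv, h1, h2⟩ := hdom x hx
    refine ⟨v, ⟨comp_sub hv, h1, ?_⟩, hv⟩
    rw [comp_eq hA hx hv]
    exact h2
  -- traces
  let Δ : V → V → Set (Set V) := fun i j => {o | o ∈ O ∧ ¬ (i ∈ o ↔ j ∈ o)}
  let P : V × V → Prop := fun ij => ij.1 ∈ D ∧ ij.2 ∈ D ∧ ij.2 ∉ comp A Q ij.1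
  -- link
  have hlink : c = Kd.Z → ∃ w ∈ W, ∀ q ∈ Q, A w q := by
    intro hcZ
    by_contra hcon
    push Not at hcon
    have hne : (W \ Q).Nonempty := by
      rw [Set.nonempty_iff_ne_empty]
      intro h
      exact hc hcZ (Set.Subset.antisymm hQW (Set.sdiff_eq_empty.1 h))
    refine ht (W \ Q) hne Set.sdiff_subset Set.disjoint_sdiff_left ?_ ?_
    · intro k hk q hq
      rcases hQ.2 k hk.1 hk.2 with h | h
      · obtain ⟨q', hq', hn⟩ := hcon k hk.1
        exact absurd (h q' hq') hn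
      · exact h q hq
    · rw [Set.union_sdiff_cancel hQW]
      exact ⟨Set.Subset.rfl, fun z hz hzn => absurd hz hzn⟩
  have key : ∀ i j, i ∈ D → j ∈ D → j ∉ comp A Q i → ∃ z ∈ D, z ∉ comp A Q i ∧ z ∉ comp A Q j ∧
      ∀ k ∈ comp A Q z, ∀ o ∈ O, (i ∈ o ↔ j ∈ o) → (k ∈ o ↔ i ∈ o) := by
    intro i j hi hj hij
    have hiW : i ∈ W := hQW hi.1
    have hjW : j ∈ W := hQW hj.1
    have hnij : ¬ A i j := (comp_nadj hA hj.1 (mem_comp_self hi.1) hij).1
    have hne : i ≠ j := by rintro rfl; exact hij (mem_comp_self hi.1)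
    have hpair : Pair0 A σ W i j := ⟨hiW, hjW, hne, hnij, hi.2.1, hj.2.1⟩
    have hbad : ∃ K, Det0 A W O i j K := by
      by_contra hb
      push Not at hb
      refine hno (Or.inl ⟨i, j, ⟨hpair, hb⟩, fun hcZ => ?_⟩)
      obtain ⟨w, hwW, hw⟩ := hlink hcZ
      exact ⟨w, hwW, hw i hi.1, hw j hj.1⟩
    obtain ⟨K, ⟨k₀, hk₀⟩, hKW, hK⟩ := hbad
    -- K ⊆ Q
    have hKQ : K ⊆ Q := by
      by_contra hKQ
      have hne1 : (K \ Q).Nonempty := by
        rw [Set.nonempty_iff_ne_empty]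
        intro h
        exact hKQ (Set.sdiff_eq_empty.1 h)
      have hanti : ∀ k ∈ K \ Q, ∀ q ∈ Q, ¬ A k q := by
        intro k hk q hq
        rcases hQ.2 k (hKW hk.1) hk.2 with h | h
        · exact absurd (h i hi.1) (hK k hk.1).2.2.1
        · exact h q hq
      refine ht (K \ Q) hne1 (Set.sdiff_subset.trans hKW) Set.disjoint_sdiff_left hanti ⟨?_, ?_⟩
      · exact Set.union_subset hQW (Set.sdiff_subset.trans hKW)
      · intro y hy hyn
        have hyQ : y ∉ Q := fun h => hyn (Or.inl h)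
        have hyK : y ∉ K := fun h => hyn (Or.inr ⟨h, hyQ⟩)
        rcases hQ.2 y hy hyQ with h | h
        · left
          intro u hu
          rcases hu with hu | hu
          · exact h u hu
          · exact hA.symm _ _ (((hK u hu.1).2.2.2.2.1 y hy hyK).1 (h i hi.1) (h j hj.1))
        · right
          intro u hu
          rcases hu with hu | hu
          · exact h u hu
          · exact fun h' => ((hK u hu.1).2.2.2.2.1 y hy hyK).2 (h i hi.1) (h j hj.1)
              (hA.symm _ _ h')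
    have hKi : ∀ k ∈ K, k ∉ comp A Q i := fun k hk h =>
      (hK k hk).2.2.1 (hA.symm _ _ (hi.2.2 k h (hK k hk).1))
    have hKj : ∀ k ∈ K, k ∉ comp A Q j := fun k hk h =>
      (hK k hk).2.2.2.1 (hA.symm _ _ (hj.2.2 k h (hK k hk).2.1))
    have hclo : Clo A Q K := by
      refine ⟨hKQ, fun a ha b hb hbK => ?_⟩
      by_cases hbi : b ∈ comp A Q i
      · exact (comp_nadj hA (hKQ ha) hbi (hKi a ha)).2
      by_cases hbj : b ∈ comp A Q j
      · exact (comp_nadj hA (hKQ ha) hbj (hKj a ha)).2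
      exact ((hK a ha).2.2.2.2.1 b (hQW hb) hbK).2
        (comp_nadj hA hb (mem_comp_self hi.1) hbi).2 (comp_nadj hA hb (mem_comp_self hj.1) hbj).2
    obtain ⟨z, hzD, hz⟩ := hDrep k₀ (hKQ hk₀)
    have hzK : z ∈ K := comp_le hclo hk₀ hz
    refine ⟨z, hzD, hKi z hzK, hKj z hzK, fun k hk o ho hoij => ?_⟩
    exact (hK k (comp_le hclo hzK hk)).2.2.2.2.2 o ho hoij
  -- a pair exists
  obtain ⟨C, hCs, ⟨c', hc'⟩, ⟨d, hd, hdC⟩, hno'⟩ := hd
  have hClo : Clo A Q C := ⟨hCs, hno'⟩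
  have hex : ∃ ij : V × V, P ij := by
    obtain ⟨v, hvD, hv⟩ := hDrep c' (hCs hc')
    obtain ⟨w, hwD, hw⟩ := hDrep d hd
    refine ⟨(v, w), hvD, hwD, fun h => ?_⟩
    have h1 := comp_eq hA (hCs hc') hv
    have h2 := comp_eq hA hd hw
    have h3 := comp_eq hA hvD.1 h
    rw [h1, h2] at h3
    exact hdC (comp_le hClo hc' (h3 ▸ mem_comp_self hd))
  obtain ⟨ij, hP, hmin⟩ : ∃ ij : V × V, P ij ∧ ∀ kl : V × V, P kl →
      (Δ ij.1 ij.2).ncard ≤ (Δ kl.1 kl.2).ncard := by
    let f : V × V → ℕ := fun kl => (Δ kl.1 kl.2).ncard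
    have hne : (f '' {kl | P kl}).Nonempty := by
      obtain ⟨ij, h⟩ := hex
      exact ⟨_, ij, h, rfl⟩
    obtain ⟨ij, hij, hij'⟩ := Nat.sInf_mem hne
    refine ⟨ij, hij, fun kl hkl => ?_⟩
    have := Nat.sInf_le (Set.mem_image_of_mem f (show kl ∈ {kl | P kl} from hkl))
    rw [← hij'] at this
    exact this
  obtain ⟨i, j⟩ := ij
  obtain ⟨hi, hj, hij⟩ := hP
  simp only at hi hj hij hmin
  obtain ⟨z, hzD, hzi, hzj, hzt⟩ := key i j hi hj hij
  have hzz := mem_comp_self (A := A) hzD.1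
  have hsub1 : Δ i z ⊆ Δ i j := by
    rintro o ⟨ho, hn⟩
    exact ⟨ho, fun h => hn (hzt z hzz o ho h).symm⟩
  have hsub2 : Δ j z ⊆ Δ i j := by
    rintro o ⟨ho, hn⟩
    exact ⟨ho, fun h => hn (h.symm.trans (hzt z hzz o ho h).symm)⟩
  have he1 : Δ i z = Δ i j :=
    Set.eq_of_subset_of_ncard_le hsub1 (hmin (i, z) ⟨hi, hzD, hzi⟩) (Set.toFinite _)
  have he2 : Δ j z = Δ i j :=
    Set.eq_of_subset_of_ncard_le hsub2 (hmin (j, z) ⟨hj, hzD, hzj⟩) (Set.toFinite _)
  have hemp : Δ i j = ∅ := by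
    by_contra hne
    obtain ⟨o, ho⟩ := Set.nonempty_iff_ne_empty.2 hne
    have h1 : ¬ (i ∈ o ↔ z ∈ o) := by
      have : o ∈ Δ i z := by rw [he1]; exact ho
      exact this.2
    have h2 : ¬ (j ∈ o ↔ z ∈ o) := by
      have : o ∈ Δ j z := by rw [he2]; exact ho
      exact this.2
    have h3 := ho.2
    tauto
  have hij' : ∀ o ∈ O, (i ∈ o ↔ j ∈ o) := by
    intro o ho
    by_contra h
    have : o ∈ Δ i j := ⟨ho, h⟩
    rw [hemp] at this
    exact this
  have hiz' : ∀ o ∈ O, (i ∈ o ↔ z ∈ o) := fun o ho => (hzt z hzz o ho (hij' o ho)).symm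
  obtain ⟨z', hz'D, hz'i, hz'z, hz't⟩ := key i z hi hzD hzi
  -- the union of the two components is a module which is not split
  have hmod : IsMod A W (comp A Q z ∪ comp A Q z') := by
    refine ⟨Set.union_subset (comp_sub.trans hQW) (comp_sub.trans hQW), fun y hy hyn => ?_⟩
    have hy1 : y ∉ comp A Q z := fun h => hyn (Or.inl h)
    have hy2 : y ∉ comp A Q z' := fun h => hyn (Or.inr h)
    by_cases hyQ : y ∈ Q
    · right
      rintro u (hu | hu)
      · exact (comp_nadj hA hyQ hu hy1).2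
      · exact (comp_nadj hA hyQ hu hy2).2
    · rcases hQ.2 y hy hyQ with h | h
      · left
        rintro u (hu | hu)
        · exact h u (comp_sub hu)
        · exact h u (comp_sub hu)
      · right
        rintro u (hu | hu)
        · exact h u (comp_sub hu)
        · exact h u (comp_sub hu)
  obtain ⟨o, ho, u, hu, u', hu', huo, huo'⟩ := hsep _ hmod
    ⟨z, Or.inl hzz, z', Or.inr (mem_comp_self hz'D.1), fun e => hz'z (e ▸ hzz)⟩
  have hall : ∀ u ∈ comp A Q z ∪ comp A Q z', (u ∈ o ↔ i ∈ o) := by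
    rintro u (hu | hu)
    · exact hzt u hu o ho (hij' o ho)
    · exact hz't u hu o ho (hiz' o ho)
  exact huo' ((hall u' hu').2 ((hall u hu).1 huo))

/-- all modules of `G[W]` inside `Q` with at least two vertices are degenerate -/
def Deg (A : V → V → Prop) (W Q : Set V) : Prop :=
  ∀ Q' ⊆ Q, IsMod A W Q' → Q'.Nontrivial → Disc A Q' ∨ Disc (co A) Q'

lemma deg_co {A : V → V → Prop} (hA : Gr A) {W Q : Set V} (h : Deg A W Q) : Deg (co A) W Q := by
  intro Q' hQ' hm hn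
  rw [co_co hA]
  exact (h Q' hQ' ((isMod_co hA).1 hm) hn).symm

lemma deg_mono {A : V → V → Prop} {W Q Q' : Set V} (h : Deg A W Q) (hs : Q' ⊆ Q) : Deg A W Q' :=
  fun Q'' h1 h2 h3 => h Q'' (h1.trans hs) h2 h3

/-- components of a disconnected module are tight in the complement -/
lemma comp_tight {A : V → V → Prop} (hA : Gr A) {W Q : Set V} (hQ : IsMod A W Q) (hd : Disc A Q)
    {x : V} (hx : x ∈ Q) : Tight (co A) W (comp A Q x) := by
  set C := comp A Q x with hC
  have hxC : x ∈ C := mem_comp_self hx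
  have hCQ : C ⊆ Q := comp_sub
  have hCne : C ≠ Q := by
    intro h
    exact comp_conn hA hx (by rw [← hC, h]; exact hd)
  obtain ⟨d, hd', hdC⟩ : ∃ d ∈ Q, d ∉ C := by
    by_contra h
    push Not at h
    exact hCne (Set.Subset.antisymm hCQ h)
  rintro K ⟨k, hk⟩ hKW hKC hKq hm
  have hm' := (isMod_co hA).1 hm
  have hkC : k ∉ C := fun h => Set.disjoint_left.1 hKC hk h
  have hkx : A k x := by
    by_contra h
    exact hKq k hk x hxC ⟨fun e => hkC (e ▸ hxC), h⟩
  have hkQ : k ∉ Q := fun h => (comp_nadj hA h hxC hkC).2 hkx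
  have hkcomp : ∀ q ∈ Q, A k q := by
    rcases hQ.2 k (hKW hk) hkQ with h | h
    · exact h
    · exact absurd hkx (h x hx)
  have hdK : d ∉ K := by
    intro hdK
    have : A d x := by
      by_contra h
      exact hKq d hdK x hxC ⟨fun e => hdC (e ▸ hxC), h⟩
    exact (comp_nadj hA hd' hxC hdC).2 this
  have hdn : d ∉ C ∪ K := fun h => h.elim hdC hdK
  rcases hm'.2 d (hQ.1 hd') hdn with h | h
  · exact (comp_nadj hA hd' hxC hdC).2 (h x (Or.inl hxC))
  · exact h k (Or.inr hk) (hA.symm _ _ (hkcomp d hd'))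

theorem core_aux [Finite V] {W : Set V} {O : Set (Set V)} (n : ℕ) :
    ∀ (A : V → V → Prop) (σ : V → Bool) (c : Kd) (Q : Set V), Gr A → Sep A W O →
      ¬ CG A σ W O c → IsMod A W Q → Q.ncard ≤ n → Deg A W Q → Disc A Q → Tight A W Q →
      (c = Kd.Z → Q ≠ W) → ∃ v ∈ Q, σ v = true ∧ ∀ y ∈ Q, ¬ A v y := by
  induction n with
  | zero =>
    intro A σ c Q hA hS hH hQ hn _ hd _ _
    exfalso
    obtain ⟨C, hCs, ⟨c, hc⟩, _⟩ := hd
    have : Q = ∅ := (Set.ncard_eq_zero (Set.toFinite _)).1 (Nat.le_zero.1 hn)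
    rw [this] at hCs
    exact hCs hc
  | succ n ih =>
    intro A σ c Q hA hS hH hQ hn hdeg hd ht hc
    by_contra hcon
    push Not at hcon
    apply hH
    refine union_claim hA hS hQ hd ?_ ht hc
    intro x hx
    set C := comp A Q x with hC
    have hxC : x ∈ C := mem_comp_self hx
    by_cases hsing : C.Subsingleton
    · have hiso : ∀ y ∈ Q, ¬ A x y := by
        intro y hy
        by_cases hyC : y ∈ C
        · rw [hsing hxC hyC]; exact hA.irr _
        · exact (comp_nadj hA hy hxC hyC).1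
      refine ⟨x, hxC, ?_, fun y hy hyx => absurd (hsing hy hxC) hyx⟩
      by_contra hs
      obtain ⟨y, hy, hxy⟩ := hcon x hx (by simpa using hs)
      exact hiso y hy hxy
    · rw [Set.not_subsingleton_iff] at hsing
      have hCm : IsMod A W C := comp_mod hA hQ
      have hCQ : C ⊆ Q := comp_sub
      have hCd : Disc (co A) C := by
        rcases hdeg C hCQ hCm hsing with h | h
        · exact absurd h (comp_conn hA hx)
        · exact h
      have hCne : C ≠ Q := by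
        intro h
        exact comp_conn hA hx (by rw [← hC, h]; exact hd)
      have hCW : C ≠ W := by
        intro h
        exact hCne (Set.Subset.antisymm hCQ (h ▸ hQ.1))
      have hlt : C.ncard < Q.ncard := Set.ncard_lt_ncard (Set.ssubset_iff_subset_ne.2 ⟨hCQ, hCne⟩)
        (Set.toFinite _)
      obtain ⟨v, hvC, hv1, hv2⟩ := ih (co A) (cs σ) c.dual C (co_gr hA) (sep_co hA hS)
        (fun h => hH ((CG_co hA).1 h)) (isMod_co_aux hCm) (by omega)
        (deg_co hA (deg_mono hdeg hCQ)) hCd (comp_tight hA hQ hd hx) (fun _ => hCW)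
      refine ⟨v, hvC, by simpa [cs] using hv1, fun y hy hyv => ?_⟩
      by_contra h
      exact hv2 y hy ⟨hyv.symm, h⟩

theorem core [Finite V] {A : V → V → Prop} {σ : V → Bool} {W : Set V} {O : Set (Set V)} {c : Kd}
    {Q : Set V} (hA : Gr A) (hS : Sep A W O) (hH : ¬ CG A σ W O c) (hQ : IsMod A W Q)
    (hdeg : Deg A W Q) (hd : Disc A Q) (ht : Tight A W Q) (hc : c = Kd.Z → Q ≠ W) :
    ∃ v ∈ Q, σ v = true ∧ ∀ y ∈ Q, ¬ A v y :=
  core_aux Q.ncard A σ c Q hA hS hH hQ le_rfl hdeg hd ht hc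

/-- dual form -/
theorem core' [Finite V] {A : V → V → Prop} {σ : V → Bool} {W : Set V} {O : Set (Set V)} {c : Kd}
    {Q : Set V} (hA : Gr A) (hS : Sep A W O) (hH : ¬ CG A σ W O c) (hQ : IsMod A W Q)
    (hdeg : Deg A W Q) (hd : Disc (co A) Q) (ht : Tight (co A) W Q) (hc : c = Kd.O → Q ≠ W) :
    ∃ v ∈ Q, σ v = false ∧ ∀ y ∈ Q, y ≠ v → A v y := by
  obtain ⟨v, hvQ, hv1, hv2⟩ := core (A := co A) (σ := cs σ) (c := c.dual)
    (co_gr hA) (sep_co hA hS) (fun h => hH ((CG_co hA).1 h)) (isMod_co_aux hQ) (deg_co hA hdeg)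
    hd ht (by intro h; apply hc; cases c <;> simp_all [Kd.dual])
  refine ⟨v, hvQ, by simpa [cs] using hv1, fun y hy hyv => ?_⟩
  by_contra h
  exact hv2 y hy ⟨hyv.symm, h⟩

end Pool.Agent.GDT
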