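import Mathlib

set_option autoImplicit false

/-!
# T1 : definitions

`A : V → V → Prop` is the adjacency relation (symmetric, irreflexive), `σ : V → Bool` the sign
(`σ v = true` means `v ∈ V₁`), `W : Set V` the current vertex set, `O : Set (Set V)` the observers
(an observer is the set of vertices which it sees).
-/

namespace Pool.Agent.GDT

variable {V : Type*}

/-- symmetric irreflexive relation -/
structure Gr (A : V → V → Prop) : Prop where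
  symm : ∀ x y, A x y → A y x
  irr : ∀ x, ¬ A x x

/-- complement of a relation -/
def co (A : V → V → Prop) : V → V → Prop := fun x y => x ≠ y ∧ ¬ A x y

/-- complement of a sign function -/
def cs (σ : V → Bool) : V → Bool := fun x => !(σ x)

/-- `U` is a module of the graph induced on `S` -/
def IsMod (A : V → V → Prop) (S U : Set V) : Prop :=
  U ⊆ S ∧ ∀ z ∈ S, z ∉ U → (∀ u ∈ U, A z u) ∨ (∀ u ∈ U, ¬ A z u)

/-- the graph induced on `S` has only trivial modules -/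
def Prime (A : V → V → Prop) (S : Set V) : Prop :=
  ∀ U, IsMod A S U → U.Subsingleton ∨ U = S

/-- the graph induced on `U` is disconnected -/
def Disc (A : V → V → Prop) (U : Set V) : Prop :=
  ∃ C ⊆ U, C.Nonempty ∧ (∃ y ∈ U, y ∉ C) ∧ ∀ x ∈ C, ∀ y ∈ U, y ∉ C → ¬ A x y

/-- kinds of sets `J` -/
inductive Kd
  | Z | O | P
  deriving DecidableEq

/-- dual kind -/
def Kd.dual : Kd → Kd
  | Kd.Z => Kd.O
  | Kd.O => Kd.Z
  | Kd.P => Kd.P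

/-- `{i, j}` is a 0-pair : two nonadjacent vertices of `V₀` -/
structure Pair0 (A : V → V → Prop) (σ : V → Bool) (W : Set V) (i j : V) : Prop where
  hi : i ∈ W
  hj : j ∈ W
  ne : i ≠ j
  nadj : ¬ A i j
  si : σ i = false
  sj : σ j = false

/-- the set `K` is detached for the 0-pair `{i, j}` -/
def Det0 (A : V → V → Prop) (W : Set V) (O : Set (Set V)) (i j : V) (K : Set V) : Prop :=
  K.Nonempty ∧ K ⊆ W ∧ ∀ k ∈ K, k ≠ i ∧ k ≠ j ∧ ¬ A k i ∧ ¬ A k j ∧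
    (∀ y ∈ W, y ∉ K → (A y i → A y j → A k y) ∧ (¬ A y i → ¬ A y j → ¬ A k y)) ∧
    ∀ o ∈ O, (i ∈ o ↔ j ∈ o) → (k ∈ o ↔ i ∈ o)

/-- good 0-pair -/
def Good0 (A : V → V → Prop) (σ : V → Bool) (W : Set V) (O : Set (Set V)) (i j : V) : Prop :=
  Pair0 A σ W i j ∧ ∀ K, ¬ Det0 A W O i j K

/-- the 0-pair has a link vertex -/
def Link0 (A : V → V → Prop) (W : Set V) (i j : V) : Prop :=
  ∃ h ∈ W, A h i ∧ A h j

/-- path `e₁ - m₁ - m₂ - e₂` with ends in `V₁` and inner vertices in `V₀` -/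
structure Quad (A : V → V → Prop) (σ : V → Bool) (W : Set V) (e₁ m₁ m₂ e₂ : V) : Prop where
  h1 : e₁ ∈ W
  h2 : m₁ ∈ W
  h3 : m₂ ∈ W
  h4 : e₂ ∈ W
  a12 : A e₁ m₁
  a23 : A m₁ m₂
  a34 : A m₂ e₂
  n13 : ¬ A e₁ m₂
  n14 : ¬ A e₁ e₂
  n24 : ¬ A m₁ e₂
  d13 : e₁ ≠ m₂
  d14 : e₁ ≠ e₂
  d24 : m₁ ≠ e₂
  s1 : σ e₁ = true
  s2 : σ m₁ = false
  s3 : σ m₂ = false
  s4 : σ e₂ = true

/-- `z` is different from the four vertices of the quad -/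
def Off (e₁ m₁ m₂ e₂ z : V) : Prop := z ≠ e₁ ∧ z ≠ m₁ ∧ z ≠ m₂ ∧ z ≠ e₂

/-- `z` has an even number of neighbours in the quad -/
def HubQ (A : V → V → Prop) (e₁ m₁ m₂ e₂ z : V) : Prop :=
  ((A z e₁ ↔ A z e₂) ↔ (A z m₁ ↔ A z m₂))

/-- the observer `o` sees an even number of vertices of the quad -/
def HubOQ (e₁ m₁ m₂ e₂ : V) (o : Set V) : Prop :=
  ((e₁ ∈ o ↔ e₂ ∈ o) ↔ (m₁ ∈ o ↔ m₂ ∈ o))

/-- `z` has an even type -/
def EvenT (A : V → V → Prop) (e₁ m₁ m₂ e₂ z : V) : Prop :=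
  (A z e₁ ↔ A z e₂) ∧ (A z m₁ ↔ A z m₂)

/-- `z` has the odd type with test vertex `x` -/
def OddT (A : V → V → Prop) (e₁ m₁ m₂ e₂ z x : V) : Prop :=
  (A z e₁ ∧ A z m₁ ∧ ¬ A z m₂ ∧ ¬ A z e₂ ∧ x = e₁) ∨
  (¬ A z e₁ ∧ ¬ A z m₁ ∧ A z m₂ ∧ A z e₂ ∧ x = e₂) ∨
  (A z e₁ ∧ ¬ A z m₁ ∧ A z m₂ ∧ ¬ A z e₂ ∧ x = m₁) ∨
  (¬ A z e₁ ∧ A z m₁ ∧ ¬ A z m₂ ∧ A z e₂ ∧ x = m₂)

/-- the set `K` is detached for the quad -/
def DetQ (A : V → V → Prop) (W : Set V) (O : Set (Set V)) (e₁ m₁ m₂ e₂ : V) (K : Set V) : Prop :=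
  K.Nonempty ∧ K ⊆ W ∧ ∀ k ∈ K, Off e₁ m₁ m₂ e₂ k ∧ ∃ x, OddT A e₁ m₁ m₂ e₂ k x ∧
    (∀ y ∈ W, y ∉ K → Off e₁ m₁ m₂ e₂ y → HubQ A e₁ m₁ m₂ e₂ y → (A k y ↔ A y x)) ∧
    ∀ o ∈ O, HubOQ e₁ m₁ m₂ e₂ o → (k ∈ o ↔ x ∈ o)

/-- good quad -/
def GoodQ (A : V → V → Prop) (σ : V → Bool) (W : Set V) (O : Set (Set V)) (e₁ m₁ m₂ e₂ : V) :
    Prop :=
  Quad A σ W e₁ m₁ m₂ e₂ ∧ ∀ K, ¬ DetQ A W O e₁ m₁ m₂ e₂ K

/-- the quad has a link vertex -/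
def LinkQ (A : V → V → Prop) (W : Set V) (e₁ m₁ m₂ e₂ : V) : Prop :=
  ∃ h ∈ W, Off e₁ m₁ m₂ e₂ h ∧ EvenT A e₁ m₁ m₂ e₂ h

/-- there is a `c`-good set -/
def CG (A : V → V → Prop) (σ : V → Bool) (W : Set V) (O : Set (Set V)) (c : Kd) : Prop :=
  (∃ i j, Good0 A σ W O i j ∧ (c = Kd.Z → Link0 A W i j)) ∨
  (∃ i j, Good0 (co A) (cs σ) W O i j ∧ (c = Kd.O → Link0 (co A) W i j)) ∨
  (∃ e₁ m₁ m₂ e₂, GoodQ A σ W O e₁ m₁ m₂ e₂ ∧ (c = Kd.P → LinkQ A W e₁ m₁ m₂ e₂))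

/-- there is a linked good set (no observers) -/
def LG (A : V → V → Prop) (σ : V → Bool) (W : Set V) : Prop :=
  (∃ i j, Good0 A σ W ∅ i j ∧ Link0 A W i j) ∨
  (∃ i j, Good0 (co A) (cs σ) W ∅ i j ∧ Link0 (co A) W i j) ∨
  (∃ e₁ m₁ m₂ e₂, GoodQ A σ W ∅ e₁ m₁ m₂ e₂ ∧ LinkQ A W e₁ m₁ m₂ e₂)

/-- there is a good 0-pair (no observers) -/
def GZ (A : V → V → Prop) (σ : V → Bool) (W : Set V) : Prop := ∃ i j, Good0 A σ W ∅ i j

/-- there is a good quad (no observers) -/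
def GP (A : V → V → Prop) (σ : V → Bool) (W : Set V) : Prop :=
  ∃ e₁ m₁ m₂ e₂, GoodQ A σ W ∅ e₁ m₁ m₂ e₂

/-- conclusion of T1, weak form -/
def T1w (A : V → V → Prop) (σ : V → Bool) (W : Set V) : Prop :=
  LG A σ W ∨ GP A σ W ∨ (GZ A σ W ∧ GZ (co A) (cs σ) W)

/-- conclusion of T1, strong form -/
def T1s (A : V → V → Prop) (σ : V → Bool) (W : Set V) : Prop :=
  LG A σ W ∨ (GZ A σ W ∧ GZ (co A) (cs σ) W)

/-- every module with at least two vertices is split by an observer -/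
def Sep (A : V → V → Prop) (W : Set V) (O : Set (Set V)) : Prop :=
  ∀ U, IsMod A W U → U.Nontrivial → ∃ o ∈ O, ∃ u ∈ U, ∃ u' ∈ U, u ∈ o ∧ u' ∉ o

/-- union tight : no nonempty set outside `Q` which is anticomplete to `Q` and makes with `Q` a
module -/
def Tight (A : V → V → Prop) (W Q : Set V) : Prop :=
  ∀ K, K.Nonempty → K ⊆ W → Disjoint K Q → (∀ k ∈ K, ∀ q ∈ Q, ¬ A k q) → ¬ IsMod A W (Q ∪ K)

/-- neighbourhood (`ε = true`) or non-neighbourhood (`ε = false`) of `p` in `S` -/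
def lnk (A : V → V → Prop) (S : Set V) (p : V) (ε : Bool) : Set V :=
  {z | z ∈ S ∧ z ≠ p ∧ (A p z ↔ ε = true)}

/-- the properties of the links used in steps 2, 3, 4 -/
structure Lk (A : V → V → Prop) (σ : V → Bool) (S : Set V) : Prop where
  /-- no induced path with four vertices in a link -/
  noP4 : ∀ p ∈ S, ∀ ε : Bool, ∀ a ∈ lnk A S p ε, ∀ b ∈ lnk A S p ε, ∀ c ∈ lnk A S p ε,
    ∀ d ∈ lnk A S p ε, A a b → A b c → A c d → ¬ A a c → ¬ A a d → ¬ A b d → a ≠ c → a ≠ d →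
    b ≠ d → False
  /-- co-component of a neighbourhood with at least two vertices -/
  nbr : ∀ p ∈ S, ∀ U ⊆ lnk A S p true, U.Nontrivial → ¬ Disc (co A) U →
    (∀ u ∈ U, ∀ w ∈ lnk A S p true, w ∉ U → A u w) → ∃ v ∈ U, σ v = true ∧ ∀ y ∈ U, ¬ A v y
  /-- component of a non-neighbourhood with at least two vertices -/
  non : ∀ p ∈ S, ∀ U ⊆ lnk A S p false, U.Nontrivial → ¬ Disc A U →
    (∀ u ∈ U, ∀ w ∈ lnk A S p false, w ∉ U → ¬ A u w) →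
    ∃ v ∈ U, σ v = false ∧ ∀ y ∈ U, y ≠ v → A v y

/-- good single vertex -/
def GS (A : V → V → Prop) (σ : V → Bool) (S : Set V) : Prop :=
  (∃ p ∈ S, σ p = false ∧ (lnk A S p false).Nontrivial ∧ ¬ Disc A (lnk A S p false)) ∨
  (∃ p ∈ S, σ p = true ∧ (lnk A S p true).Nontrivial ∧ ¬ Disc (co A) (lnk A S p true))

/-- the exceptional structure -/
def Exc (A : V → V → Prop) (σ : V → Bool) (W : Set V) : Prop :=
  ∃ (e₁ m₁ m₂ e₂ : V) (ρ : V → V), Quad A σ W e₁ m₁ m₂ e₂ ∧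
    (∀ v ∈ W, ρ v = e₁ ∨ ρ v = m₁ ∨ ρ v = m₂ ∨ ρ v = e₂) ∧
    ρ e₁ = e₁ ∧ ρ m₁ = m₁ ∧ ρ m₂ = m₂ ∧ ρ e₂ = e₂ ∧
    (∀ u ∈ W, ∀ v ∈ W, ρ u ≠ ρ v → (A u v ↔ A (ρ u) (ρ v))) ∧
    (∀ u ∈ W, u ≠ ρ u → (A u (ρ u) ↔ σ (ρ u) = false))

/-! ### complement -/

section compl

variable {A : V → V → Prop} {σ : V → Bool} {S W U : Set V} {O : Set (Set V)} {e₁ m₁ m₂ e₂ z x y : V}

lemma co_gr (h : Gr A) : Gr (co A) :=
  ⟨fun _ _ hxy => ⟨hxy.1.symm, fun h' => hxy.2 (h.symm _ _ h')⟩, fun _ hx => hx.1 rfl⟩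

lemma co_co (h : Gr A) : co (co A) = A := by
  funext x y
  apply propext
  unfold co
  constructor
  · rintro ⟨h1, h2⟩
    by_contra h3
    exact h2 ⟨h1, h3⟩
  · intro h1
    exact ⟨fun e => h.irr x (e ▸ h1), fun h2 => h2.2 h1⟩

lemma cs_cs (σ : V → Bool) : cs (cs σ) = σ := by
  funext x; simp [cs]

lemma co_iff (h : x ≠ y) : co A x y ↔ ¬ A x y :=
  ⟨fun h' => h'.2, fun h' => ⟨h, h'⟩⟩

lemma dual_dual (c : Kd) : c.dual.dual = c := by cases c <;> rfl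

lemma isMod_co_aux (h : IsMod A S U) : IsMod (co A) S U := by
  refine ⟨h.1, fun z hz hzU => ?_⟩
  rcases h.2 z hz hzU with h1 | h1
  · exact Or.inr fun u hu h2 => h2.2 (h1 u hu)
  · exact Or.inl fun u hu => ⟨fun e => hzU (e ▸ hu), h1 u hu⟩

lemma isMod_co (hA : Gr A) : IsMod (co A) S U ↔ IsMod A S U := by
  constructor
  · intro h
    have := isMod_co_aux h
    rwa [co_co hA] at this
  · exact isMod_co_aux

lemma prime_co (hA : Gr A) (h : Prime A S) : Prime (co A) S :=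
  fun U hU => h U ((isMod_co hA).1 hU)

lemma sep_co (hA : Gr A) (h : Sep A W O) : Sep (co A) W O :=
  fun U hU hn => h U ((isMod_co hA).1 hU) hn

lemma quad_co (hA : Gr A) (h : Quad A σ S e₁ m₁ m₂ e₂) : Quad (co A) (cs σ) S m₁ e₂ e₁ m₂ := by
  have hs := hA.symm
  refine ⟨h.h2, h.h4, h.h1, h.h3, ⟨h.d24, h.n24⟩, ⟨h.d14.symm, fun h' => h.n14 (hs _ _ h')⟩,
    ⟨h.d13, h.n13⟩, fun h' => h'.2 (hs _ _ h.a12), fun h' => h'.2 h.a23,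
    fun h' => h'.2 (hs _ _ h.a34), ?_, ?_, ?_, ?_, ?_, ?_, ?_⟩
  · rintro rfl; exact hA.irr _ h.a12
  · rintro rfl; exact hA.irr _ h.a23
  · rintro rfl; exact hA.irr _ h.a34
  · simp [cs, h.s2]
  · simp [cs, h.s4]
  · simp [cs, h.s1]
  · simp [cs, h.s3]

lemma off_co : Off m₁ e₂ e₁ m₂ z ↔ Off e₁ m₁ m₂ e₂ z := by
  unfold Off; tauto

lemma hubQ_co (ho : Off e₁ m₁ m₂ e₂ z) :
    HubQ (co A) m₁ e₂ e₁ m₂ z ↔ HubQ A e₁ m₁ m₂ e₂ z := by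
  obtain ⟨o1, o2, o3, o4⟩ := ho
  unfold HubQ
  rw [co_iff o1, co_iff o2, co_iff o3, co_iff o4]
  tauto

lemma hubOQ_co {o : Set V} : HubOQ m₁ e₂ e₁ m₂ o ↔ HubOQ e₁ m₁ m₂ e₂ o := by
  unfold HubOQ
  tauto

lemma evenT_co (ho : Off e₁ m₁ m₂ e₂ z) :
    EvenT (co A) m₁ e₂ e₁ m₂ z ↔ (HubQ A e₁ m₁ m₂ e₂ z ∧ (A z m₁ ↔ A z m₂)) := by
  obtain ⟨o1, o2, o3, o4⟩ := ho
  unfold EvenT HubQ
  rw [co_iff o1, co_iff o2, co_iff o3, co_iff o4]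
  tauto

lemma oddT_co (ho : Off e₁ m₁ m₂ e₂ z) :
    OddT (co A) m₁ e₂ e₁ m₂ z x ↔ OddT A e₁ m₁ m₂ e₂ z x := by
  obtain ⟨o1, o2, o3, o4⟩ := ho
  unfold OddT
  rw [co_iff o1, co_iff o2, co_iff o3, co_iff o4]
  by_cases h1 : A z e₁ <;> by_cases h2 : A z m₁ <;> by_cases h3 : A z m₂ <;>
    by_cases h4 : A z e₂ <;> simp [h1, h2, h3, h4]

lemma oddT_mem (h : OddT A e₁ m₁ m₂ e₂ z x) : x = e₁ ∨ x = m₁ ∨ x = m₂ ∨ x = e₂ := by
  rcases h with h | h | h | h <;> simp [h.2.2.2.2]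

lemma goodQ_co (hA : Gr A) (h : GoodQ A σ W O e₁ m₁ m₂ e₂) :
    GoodQ (co A) (cs σ) W O m₁ e₂ e₁ m₂ := by
  obtain ⟨hq, hb⟩ := h
  refine ⟨quad_co hA hq, ?_⟩
  rintro K ⟨hKn, hKW, hK⟩
  refine hb K ⟨hKn, hKW, fun k hk => ?_⟩
  obtain ⟨hko, x, hx, hy, hobs⟩ := hK k hk
  have hko' := off_co.1 hko
  have hx' := (oddT_co hko').1 hx
  refine ⟨hko', x, hx', fun y hyW hyK hyo hyh => ?_, fun o ho hoh => hobs o ho (hubOQ_co.2 hoh)⟩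
  have h1 := hy y hyW hyK (off_co.2 hyo) ((hubQ_co hyo).2 hyh)
  have hyk : k ≠ y := fun e => hyK (e ▸ hk)
  have hyx : y ≠ x := by
    obtain ⟨o1, o2, o3, o4⟩ := hyo
    rcases oddT_mem hx' with rfl | rfl | rfl | rfl <;> assumption
  rw [co_iff hyk, co_iff hyx] at h1
  tauto

lemma linkQ_co (h : LinkQ A W e₁ m₁ m₂ e₂) : LinkQ (co A) W m₁ e₂ e₁ m₂ := by
  obtain ⟨w, hwW, hwo, hwe⟩ := h
  refine ⟨w, hwW, off_co.2 hwo, (evenT_co hwo).2 ⟨?_, hwe.2⟩⟩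
  exact iff_of_true hwe.1 hwe.2

lemma CG_co_aux (hA : Gr A) {c : Kd} (h : CG A σ W O c) : CG (co A) (cs σ) W O c.dual := by
  rcases h with ⟨i, j, h, hl⟩ | ⟨i, j, h, hl⟩ | ⟨a, b, c', d, h, hl⟩
  · right; left
    refine ⟨i, j, ?_, ?_⟩
    · rw [co_co hA, cs_cs]; exact h
    · rw [co_co hA]
      intro hc
      apply hl
      cases c <;> simp_all [Kd.dual]
  · left
    refine ⟨i, j, h, fun hc => hl ?_⟩
    cases c <;> simp_all [Kd.dual]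
  · right; right
    refine ⟨_, _, _, _, goodQ_co hA h, fun hc => linkQ_co (hl ?_)⟩
    cases c <;> simp_all [Kd.dual]

lemma CG_co (hA : Gr A) {c : Kd} : CG (co A) (cs σ) W O c.dual ↔ CG A σ W O c := by
  constructor
  · intro h
    have := CG_co_aux (co_gr hA) h
    rwa [co_co hA, cs_cs, dual_dual] at this
  · exact CG_co_aux hA

lemma LG_co_aux (hA : Gr A) (h : LG A σ W) : LG (co A) (cs σ) W := by
  rcases h with ⟨i, j, h, hl⟩ | ⟨i, j, h, hl⟩ | ⟨a, b, c', d, h, hl⟩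
  · right; left
    refine ⟨i, j, ?_, ?_⟩
    · rw [co_co hA, cs_cs]; exact h
    · rw [co_co hA]; exact hl
  · left
    exact ⟨i, j, h, hl⟩
  · right; right
    exact ⟨_, _, _, _, goodQ_co hA h, linkQ_co hl⟩

lemma LG_co (hA : Gr A) : LG (co A) (cs σ) W ↔ LG A σ W := by
  constructor
  · intro h
    have := LG_co_aux (co_gr hA) h
    rwa [co_co hA, cs_cs] at this
  · exact LG_co_aux hA

lemma lnk_co {p : V} {ε : Bool} : lnk (co A) S p (!ε) = lnk A S p ε := by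
  ext z
  simp only [lnk, Set.mem_ofPred_eq]
  constructor
  · rintro ⟨h1, h2, h3⟩
    rw [co_iff h2.symm] at h3
    refine ⟨h1, h2, ?_⟩
    cases ε <;> simp_all
  · rintro ⟨h1, h2, h3⟩
    rw [co_iff h2.symm]
    refine ⟨h1, h2, ?_⟩
    cases ε <;> simp_all

lemma lnk_sub {p : V} {ε : Bool} : lnk A S p ε ⊆ S := fun _ h => h.1

end compl

end Pool.Agent.GDT
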