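import Pool.Agent.GDT.Defs

set_option autoImplicit false

namespace Pool.Agent.GDT

variable {V : Type*} [Finite V] {A : V → V → Prop} {σ : V → Bool} {U : Set V}

omit [Finite V] in
/-- union of two modules with a common element -/
lemma isMod_union {M N : Set V} (hM : IsMod A U M) (hN : IsMod A U N) {m : V} (hm : m ∈ M)
    (hn : m ∈ N) : IsMod A U (M ∪ N) := by
  refine ⟨Set.union_subset hM.1 hN.1, fun z hz hzu => ?_⟩
  have h1 : z ∉ M := fun h => hzu (Or.inl h)
  have h2 : z ∉ N := fun h => hzu (Or.inr h)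
  rcases hM.2 z hz h1 with h3 | h3
  · rcases hN.2 z hz h2 with h4 | h4
    · left
      rintro u (hu | hu)
      · exact h3 u hu
      · exact h4 u hu
    · exact absurd (h3 m hm) (h4 m hn)
  · rcases hN.2 z hz h2 with h4 | h4
    · exact absurd (h4 m hn) (h3 m hm)
    · right
      rintro u (hu | hu)
      · exact h3 u hu
      · exact h4 u hu

omit [Finite V] in
/-- homogeneity in the form of an equivalence -/
lemma isMod_iff {M : Set V} (hM : IsMod A U M) {z u v : V} (hz : z ∈ U) (hzM : z ∉ M)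
    (hu : u ∈ M) (hv : v ∈ M) : A z u ↔ A z v := by
  rcases hM.2 z hz hzM with h | h
  · exact iff_of_true (h u hu) (h v hv)
  · exact iff_of_false (h u hu) (h v hv)

omit [Finite V] in
/-- two proper modules do not cover -/
lemma union_ne (hA : Gr A) (hd : ¬ Disc A U) (hc : ¬ Disc (co A) U) {M N : Set V}
    (hM : IsMod A U M) (hN : IsMod A U N) (hMU : M ≠ U) (hNU : N ≠ U) : M ∪ N ≠ U := by
  intro hMN
  obtain ⟨y0, hy0, hy0M⟩ : ∃ y ∈ U, y ∉ M := by
    by_contra hh
    push Not at hh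
    exact hMU (Set.Subset.antisymm hM.1 hh)
  obtain ⟨x0, hx0, hx0N⟩ : ∃ y ∈ U, y ∉ N := by
    by_contra hh
    push Not at hh
    exact hNU (Set.Subset.antisymm hN.1 hh)
  have hin : ∀ x ∈ U, x ∉ N → x ∈ M := by
    intro x hx hxN
    have : x ∈ M ∪ N := by rw [hMN]; exact hx
    exact this.resolve_right hxN
  have hy0N : y0 ∈ N := by
    have : y0 ∈ M ∪ N := by rw [hMN]; exact hy0
    exact this.resolve_left hy0M
  have key : ∀ x ∈ U, x ∉ N → ∀ z ∈ N, (A x z ↔ A y0 x0) := by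
    intro x hx hxN z hz
    rw [isMod_iff hN hx hxN hz hy0N]
    have h1 : A x y0 ↔ A y0 x := ⟨hA.symm _ _, hA.symm _ _⟩
    rw [h1]
    exact isMod_iff hM hy0 hy0M (hin x hx hxN) (hin x0 hx0 hx0N)
  by_cases hA0 : A y0 x0
  · apply hc
    refine ⟨{x | x ∈ U ∧ x ∉ N}, fun x hx => hx.1, ⟨x0, hx0, hx0N⟩, ⟨y0, hy0, fun h => h.2 hy0N⟩,
      ?_⟩
    intro x hx y hy hyC h
    have hyN : y ∈ N := by
      by_contra h'
      exact hyC ⟨hy, h'⟩
    exact h.2 ((key x hx.1 hx.2 y hyN).2 hA0)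
  · apply hd
    refine ⟨{x | x ∈ U ∧ x ∉ N}, fun x hx => hx.1, ⟨x0, hx0, hx0N⟩, ⟨y0, hy0, fun h => h.2 hy0N⟩,
      ?_⟩
    intro x hx y hy hyC h
    have hyN : y ∈ N := by
      by_contra h'
      exact hyC ⟨hy, h'⟩
    exact hA0 ((key x hx.1 hx.2 y hyN).1 h)

/-- maximal proper module through a vertex -/
lemma exists_cl (hA : Gr A) (hU : U.Nontrivial) (hd : ¬ Disc A U) (hc : ¬ Disc (co A) U)
    {x : V} (hx : x ∈ U) :
    ∃ M : Set V, IsMod A U M ∧ M ≠ U ∧ x ∈ M ∧
      ∀ N, IsMod A U N → N ≠ U → x ∈ N → N ⊆ M := by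
  have hfin : {M : Set V | IsMod A U M ∧ M ≠ U ∧ x ∈ M}.Finite := Set.toFinite _
  have hne : {M : Set V | IsMod A U M ∧ M ≠ U ∧ x ∈ M}.Nonempty := by
    refine ⟨{x}, ⟨⟨by simpa using hx, ?_⟩, ?_, rfl⟩⟩
    · intro z _ _
      by_cases h : A z x
      · left; rintro u rfl; exact h
      · right; rintro u rfl; exact h
    · intro h
      rw [← h] at hU
      exact Set.not_nontrivial_singleton hU
  obtain ⟨M, hM⟩ := hfin.exists_maximal hne
  obtain ⟨⟨hM1, hM2, hM3⟩, hmax⟩ := hM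
  refine ⟨M, hM1, hM2, hM3, fun N hN1 hN2 hN3 => ?_⟩
  have h1 : IsMod A U (M ∪ N) := isMod_union hM1 hN1 hM3 hN3
  have h2 : M ∪ N ≠ U := union_ne hA hd hc hM1 hN1 hM2 hN2
  have h3 : M ∪ N ⊆ M := hmax ⟨h1, h2, Or.inl hM3⟩ Set.subset_union_left
  exact Set.Subset.trans Set.subset_union_right h3

/-- Transversal of the maximal proper modules of a connected and co-connected graph. -/
theorem transversal (hA : Gr A) (hU : U.Nontrivial) (hd : ¬ Disc A U) (hc : ¬ Disc (co A) U)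
    (hrep : ∀ C, IsMod A U C → C ≠ U → C.Nontrivial →
      (∀ D, IsMod A U D → C ⊆ D → D = C ∨ D = U) →
      ∃ r ∈ C, ∀ u ∈ C, u ≠ r → (A u r ↔ σ r = false)) :
    ∃ ρ : V → V, (∀ x ∈ U, ρ x ∈ U) ∧ (∀ x ∈ U, ρ (ρ x) = ρ x) ∧
      (∀ x ∈ U, ∀ y ∈ U, ρ x ≠ ρ y → (A x y ↔ A (ρ x) (ρ y))) ∧
      (∀ x ∈ U, x ≠ ρ x → (A x (ρ x) ↔ σ (ρ x) = false)) ∧
      Prime A (ρ '' U) ∧ 4 ≤ (ρ '' U).ncard := by
  classical
  have hcl : ∀ x : V, ∃ M : Set V, x ∈ U → (IsMod A U M ∧ M ≠ U ∧ x ∈ M ∧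
      ∀ N, IsMod A U N → N ≠ U → x ∈ N → N ⊆ M) := by
    intro x
    by_cases hx : x ∈ U
    · obtain ⟨M, hM⟩ := exists_cl hA hU hd hc hx
      exact ⟨M, fun _ => hM⟩
    · exact ⟨∅, fun h => absurd h hx⟩
  choose cl hcl using hcl
  have cl_eq : ∀ x ∈ U, ∀ y ∈ cl x, cl y = cl x := by
    intro x hx y hy
    obtain ⟨a1, a2, a3, a4⟩ := hcl x hx
    have hyU : y ∈ U := a1.1 hy
    obtain ⟨b1, b2, b3, b4⟩ := hcl y hyU
    have h1 : cl x ⊆ cl y := b4 _ a1 a2 hy
    exact Set.Subset.antisymm (a4 _ b1 b2 (h1 a3)) h1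
  have hr : ∀ C : Set V, ∃ r : V, (∃ x ∈ U, cl x = C) → (r ∈ C ∧
      ∀ u ∈ C, u ≠ r → (A u r ↔ σ r = false)) := by
    intro C
    by_cases hC : ∃ x ∈ U, cl x = C
    · obtain ⟨x, hx, rfl⟩ := hC
      obtain ⟨a1, a2, a3, a4⟩ := hcl x hx
      by_cases hn : (cl x).Nontrivial
      · obtain ⟨r, hr1, hr2⟩ := hrep (cl x) a1 a2 hn (by
          intro D hD hCD
          by_cases hDU : D = U
          · exact Or.inr hDU
          · left
            exact Set.Subset.antisymm (a4 D hD hDU (hCD a3)) hCD)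
        exact ⟨r, fun _ => ⟨hr1, hr2⟩⟩
      · rw [Set.not_nontrivial_iff] at hn
        exact ⟨x, fun _ => ⟨a3, fun u hu hux => absurd (hn hu a3) hux⟩⟩
    · obtain ⟨x, _⟩ := hU.nonempty
      exact ⟨x, fun h => absurd h hC⟩
  choose r hr using hr
  have rmem : ∀ x ∈ U, r (cl x) ∈ cl x := fun x hx => (hr (cl x) ⟨x, hx, rfl⟩).1
  have rU : ∀ x ∈ U, r (cl x) ∈ U := fun x hx => (hcl x hx).1.1 (rmem x hx)
  have clr : ∀ x ∈ U, cl (r (cl x)) = cl x := fun x hx => cl_eq x hx _ (rmem x hx)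
  have notin : ∀ x ∈ U, ∀ y ∈ U, r (cl x) ≠ r (cl y) → y ∉ cl x := by
    intro x hx y _ h hyx
    apply h
    rw [cl_eq x hx y hyx]
  have hF3 : ∀ x ∈ U, ∀ y ∈ U, r (cl x) ≠ r (cl y) → (A x y ↔ A (r (cl x)) (r (cl y))) := by
    intro x hx y hy h
    have h1 : x ∉ cl y := notin y hy x hx h.symm
    have h2 : A x y ↔ A x (r (cl y)) :=
      isMod_iff (hcl y hy).1 hx h1 (hcl y hy).2.2.1 (rmem y hy)
    have h3 : r (cl y) ∉ cl x := by
      apply notin x hx _ (rU y hy)
      rw [clr y hy]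
      exact h
    have h4 : A (r (cl y)) x ↔ A (r (cl y)) (r (cl x)) :=
      isMod_iff (hcl x hx).1 (rU y hy) h3 (hcl x hx).2.2.1 (rmem x hx)
    rw [h2, show A x (r (cl y)) ↔ A (r (cl y)) x from ⟨hA.symm _ _, hA.symm _ _⟩, h4]
    exact ⟨hA.symm _ _, hA.symm _ _⟩
  have hidem : ∀ t ∈ (fun x => r (cl x)) '' U, t ∈ U ∧ r (cl t) = t := by
    rintro t ⟨x, hx, rfl⟩
    exact ⟨rU x hx, by simp only [clr x hx]⟩
  have hprime : Prime A ((fun x => r (cl x)) '' U) := by
    intro N hN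
    by_contra hcon
    push Not at hcon
    obtain ⟨hns, hNT⟩ := hcon
    obtain ⟨n1, hn1, n2, hn2, hne⟩ := hns
    obtain ⟨hn1U, hn1r⟩ := hidem n1 (hN.1 hn1)
    obtain ⟨hn2U, hn2r⟩ := hidem n2 (hN.1 hn2)
    have hM : IsMod A U {x | x ∈ U ∧ r (cl x) ∈ N} := by
      refine ⟨fun x hx => hx.1, fun z hz hzM => ?_⟩
      have hzN : r (cl z) ∉ N := fun h => hzM ⟨hz, h⟩
      rcases hN.2 (r (cl z)) ⟨z, hz, rfl⟩ hzN with h | h
      · left
        intro u hu
        have : r (cl z) ≠ r (cl u) := fun e => hzN (e ▸ hu.2)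
        exact (hF3 z hz u hu.1 this).2 (h _ hu.2)
      · right
        intro u hu hzu
        have : r (cl z) ≠ r (cl u) := fun e => hzN (e ▸ hu.2)
        exact h _ hu.2 ((hF3 z hz u hu.1 this).1 hzu)
    have hMU : {x | x ∈ U ∧ r (cl x) ∈ N} ≠ U := by
      intro he
      apply hNT
      refine Set.Subset.antisymm hN.1 ?_
      rintro t ⟨x, hx, rfl⟩
      have : x ∈ {x | x ∈ U ∧ r (cl x) ∈ N} := by rw [he]; exact hx
      exact this.2
    have h1 : n1 ∈ {x | x ∈ U ∧ r (cl x) ∈ N} := ⟨hn1U, by rw [hn1r]; exact hn1⟩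
    have h2 : n2 ∈ {x | x ∈ U ∧ r (cl x) ∈ N} := ⟨hn2U, by rw [hn2r]; exact hn2⟩
    have h3 : n2 ∈ cl n1 := (hcl n1 hn1U).2.2.2 _ hM hMU h1 h2
    have h4 := cl_eq n1 hn1U n2 h3
    apply hne
    rw [← hn1r, ← hn2r, h4]
  refine ⟨fun x => r (cl x), fun x hx => rU x hx, fun x hx => by simp only [clr x hx], hF3, ?_,
    hprime, ?_⟩
  · intro x hx hxr
    exact (hr (cl x) ⟨x, hx, rfl⟩).2 x (hcl x hx).2.2.1 hxr
  · set T : Set V := (fun x => r (cl x)) '' U with hT
    have hTfin : T.Finite := Set.toFinite _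
    have hnt : T.Nontrivial := by
      obtain ⟨x, hx⟩ := hU.nonempty
      obtain ⟨y, hy, hyx⟩ : ∃ y ∈ U, y ∉ cl x := by
        by_contra hh
        push Not at hh
        exact (hcl x hx).2.1 (Set.Subset.antisymm (hcl x hx).1.1 hh)
      refine ⟨r (cl x), ⟨x, hx, rfl⟩, r (cl y), ⟨y, hy, rfl⟩, ?_⟩
      intro he
      apply hyx
      have h1 := clr x hx
      have h2 := clr y hy
      rw [he] at h1
      rw [← h1, h2]
      exact (hcl y hy).2.2.1
    have h2 : 1 < T.ncard := (Set.one_lt_ncard hTfin).2 hnt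
    by_contra hlt
    push Not at hlt
    have hcase : T.ncard = 2 ∨ T.ncard = 3 := by omega
    rcases hcase with h | h
    · obtain ⟨s, t, hst, hTe⟩ := Set.ncard_eq_two.1 h
      have hs : s ∈ T := by rw [hTe]; simp
      have ht : t ∈ T := by rw [hTe]; simp
      obtain ⟨hsU, hsr⟩ := hidem s hs
      obtain ⟨htU, htr⟩ := hidem t ht
      have hval : ∀ x ∈ U, r (cl x) = s → ∀ y ∈ U, r (cl y) ≠ s → (A x y ↔ A s t) := by
        intro x hx hxs y hy hys
        have hyT : r (cl y) ∈ T := ⟨y, hy, rfl⟩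
        rw [hTe] at hyT
        have hyt : r (cl y) = t := hyT.resolve_left hys
        rw [hF3 x hx y hy (by rw [hxs]; exact hys.symm), hxs, hyt]
      by_cases hA0 : A s t
      · apply hc
        refine ⟨{x | x ∈ U ∧ r (cl x) = s}, fun x hx => hx.1, ⟨s, hsU, hsr⟩,
          ⟨t, htU, fun h => hst (by rw [← h.2, htr])⟩, ?_⟩
        intro x hx y hy hyC hxy
        exact hxy.2 ((hval x hx.1 hx.2 y hy (fun h => hyC ⟨hy, h⟩)).2 hA0)
      · apply hd
        refine ⟨{x | x ∈ U ∧ r (cl x) = s}, fun x hx => hx.1, ⟨s, hsU, hsr⟩,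
          ⟨t, htU, fun h => hst (by rw [← h.2, htr])⟩, ?_⟩
        intro x hx y hy hyC hxy
        exact hA0 ((hval x hx.1 hx.2 y hy (fun h => hyC ⟨hy, h⟩)).1 hxy)
    · obtain ⟨a, b, c, hab, hac, hbc, hTe⟩ := Set.ncard_eq_three.1 h
      have pair : ∀ x y z : V, x ≠ y → y ≠ z → x ≠ z → T = {x, y, z} → (A x y ↔ A x z) →
          False := by
        intro x y z hxy hyz hxz hTT hiff
        have hmod : IsMod A T {y, z} := by
          refine ⟨?_, ?_⟩
          · rw [hTT]
            intro w hw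
            rcases hw with rfl | hw
            · simp
            · rw [Set.mem_singleton_iff] at hw
              subst hw
              simp
          · intro w hw hwn
            rw [hTT] at hw
            have hwx : w = x := by
              rcases hw with hw | hw
              · exact hw
              · exact absurd hw hwn
            subst hwx
            by_cases h0 : A w y
            · left
              intro u hu
              rcases hu with rfl | hu
              · exact h0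
              · rw [Set.mem_singleton_iff] at hu
                subst hu
                exact hiff.1 h0
            · right
              intro u hu
              rcases hu with rfl | hu
              · exact h0
              · rw [Set.mem_singleton_iff] at hu
                subst hu
                exact fun h1 => h0 (hiff.2 h1)
        rcases hprime _ hmod with h1 | h1
        · exact hyz (h1 (by simp) (by simp))
        · have : x ∈ ({y, z} : Set V) := by rw [h1, hTT]; simp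
          rcases this with h2 | h2
          · exact hxy h2
          · exact hxz h2
      have hT2 : T = {b, a, c} := by
        rw [hTe]; ext w; simp only [Set.mem_insert_iff, Set.mem_singleton_iff]; tauto
      have hT3 : T = {c, a, b} := by
        rw [hTe]; ext w; simp only [Set.mem_insert_iff, Set.mem_singleton_iff]; tauto
      have s1 : A b a ↔ A a b := ⟨hA.symm _ _, hA.symm _ _⟩
      have s2 : A c a ↔ A a c := ⟨hA.symm _ _, hA.symm _ _⟩
      have s3 : A c b ↔ A b c := ⟨hA.symm _ _, hA.symm _ _⟩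
      by_cases e1 : A a b ↔ A a c
      · exact pair a b c hab hbc hac hTe e1
      by_cases e2 : A b a ↔ A b c
      · exact pair b a c hab.symm hac hbc hT2 e2
      · apply pair c a b hac.symm hab hbc.symm hT3
        tauto

end Pool.Agent.GDT
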