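import Pool.Agent.GDT.CORE
import Pool.Agent.GDT.TRANS

set_option autoImplicit false

/-! Elimination of prime nodes. -/

namespace Pool.Agent.GDT

variable {V : Type*}

/-- a substitution structure on the module `U` of `G[W]` -/
structure Sub (A : V → V → Prop) (σ : V → Bool) (W U : Set V) (ρ : V → V) : Prop where
  mod : IsMod A W U
  mem : ∀ x ∈ U, ρ x ∈ U
  idem : ∀ x ∈ U, ρ (ρ x) = ρ x
  adj : ∀ x ∈ U, ∀ y ∈ U, ρ x ≠ ρ y → (A x y ↔ A (ρ x) (ρ y))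
  rep : ∀ x ∈ U, x ≠ ρ x → (A x (ρ x) ↔ σ (ρ x) = false)

variable {A : V → V → Prop} {σ : V → Bool} {W U : Set V} {ρ : V → V} {O : Set (Set V)}

lemma sub_co (h : Sub A σ W U ρ) : Sub (co A) (cs σ) W U ρ := by
  refine ⟨isMod_co_aux h.mod, h.mem, h.idem, fun x hx y hy hne => ?_, fun x hx hne => ?_⟩
  · have hxy : x ≠ y := fun e => hne (by rw [e])
    rw [co_iff hxy, co_iff hne, h.adj x hx y hy hne]
  · rw [co_iff hne, h.rep x hx hne]
    simp [cs]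

lemma Sub.fix (h : Sub A σ W U ρ) {t : V} (ht : t ∈ ρ '' U) : ρ t = t := by
  obtain ⟨x, hx, rfl⟩ := ht
  exact h.idem x hx

lemma Sub.memT (h : Sub A σ W U ρ) {t : V} (ht : t ∈ ρ '' U) : t ∈ U := by
  obtain ⟨x, hx, rfl⟩ := ht
  exact h.mem x hx

lemma Sub.memW (h : Sub A σ W U ρ) {t : V} (ht : t ∈ ρ '' U) : t ∈ W := h.mod.1 (h.memT ht)

lemma lift0_det (hA : Gr A) (h : Sub A σ W U ρ) {i j : V} (hg : Good0 A σ (ρ '' U) ∅ i j)
    {K : Set V} (hK : Det0 A W O i j K) :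
    Disjoint K U ∧ (∀ k ∈ K, ∀ u ∈ U, ¬ A k u) ∧ IsMod A W (U ∪ K) := by
  obtain ⟨hpair, hnd⟩ := hg
  obtain ⟨hKn, hKW, hK⟩ := hK
  have hiU := h.memT hpair.hi
  have hjU := h.memT hpair.hj
  have hfi := h.fix hpair.hi
  have hfj := h.fix hpair.hj
  have hdisj : ∀ k ∈ K, k ∉ U := by
    intro k₀ hk₀ hk₀U
    refine hnd {τ | τ ∈ ρ '' U ∧ ∃ k ∈ K, k ∈ U ∧ ρ k = τ} ⟨⟨ρ k₀, ⟨k₀, hk₀U, rfl⟩, k₀, hk₀, hk₀U, rfl⟩,
      fun τ hτ => hτ.1, ?_⟩
    rintro τ ⟨hτ, k, hk, hkU, rfl⟩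
    obtain ⟨h1, h2, h3, h4, h5, -⟩ := hK k hk
    have e1 : ρ k ≠ i := by
      intro e
      have := (h.rep k hkU (by rw [e]; exact h1))
      rw [e] at this
      exact h3 (this.2 hpair.si)
    have e2 : ρ k ≠ j := by
      intro e
      have := (h.rep k hkU (by rw [e]; exact h2))
      rw [e] at this
      exact h4 (this.2 hpair.sj)
    refine ⟨e1, e2, ?_, ?_, ?_, fun o ho => absurd ho (by simp)⟩
    · have := h.adj k hkU i hiU (by rw [hfi]; exact e1)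
      rw [hfi] at this
      exact fun h' => h3 (this.2 h')
    · have := h.adj k hkU j hjU (by rw [hfj]; exact e2)
      rw [hfj] at this
      exact fun h' => h4 (this.2 h')
    · intro y hy hyn
      have hyU := h.memT hy
      have hfy := h.fix hy
      have hyK : y ∉ K := fun h' => hyn ⟨hy, y, h', hyU, hfy⟩
      have hne : ρ k ≠ y := fun e => hyn ⟨hy, k, hk, hkU, e⟩
      have := h.adj k hkU y hyU (by rw [hfy]; exact hne)
      rw [hfy] at this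
      have h6 := h5 y (h.mod.1 hyU) hyK
      exact ⟨fun a b => this.1 (h6.1 a b), fun a b c => h6.2 a b (this.2 c)⟩
  have hanti : ∀ k ∈ K, ∀ u ∈ U, ¬ A k u := by
    intro k hk
    rcases h.mod.2 k (hKW hk) (hdisj k hk) with h' | h'
    · exact absurd (h' i hiU) (hK k hk).2.2.1
    · exact h'
  refine ⟨Set.disjoint_left.2 hdisj, hanti, Set.union_subset h.mod.1 hKW, fun y hy hyn => ?_⟩
  have hyU : y ∉ U := fun h' => hyn (Or.inl h')
  have hyK : y ∉ K := fun h' => hyn (Or.inr h')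
  rcases h.mod.2 y hy hyU with h' | h'
  · left
    rintro u (hu | hu)
    · exact h' u hu
    · exact hA.symm _ _ (((hK u hu).2.2.2.2.1 y hy hyK).1 (h' i hiU) (h' j hjU))
  · right
    rintro u (hu | hu)
    · exact h' u hu
    · exact fun h'' => ((hK u hu).2.2.2.2.1 y hy hyK).2 (h' i hiU) (h' j hjU) (hA.symm _ _ h'')

lemma lift_pair (h : Sub A σ W U ρ) {i j : V} (hp : Pair0 A σ (ρ '' U) i j) : Pair0 A σ W i j :=
  ⟨h.memW hp.hi, h.memW hp.hj, hp.ne, hp.nadj, hp.si, hp.sj⟩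

/-- a linked good 0-pair lifts -/
lemma lift0_link (hA : Gr A) (h : Sub A σ W U ρ) {i j : V} (hg : Good0 A σ (ρ '' U) ∅ i j)
    (hl : Link0 A (ρ '' U) i j) : Good0 A σ W O i j ∧ Link0 A W i j := by
  obtain ⟨m, hm, hmi, hmj⟩ := hl
  refine ⟨⟨lift_pair h hg.1, fun K hK => ?_⟩, m, h.memW hm, hmi, hmj⟩
  obtain ⟨h1, h2, -⟩ := lift0_det hA h hg hK
  obtain ⟨⟨k, hk⟩, hKW, hK'⟩ := hK
  have hmK : m ∉ K := fun h' => (hK' m h').2.2.1 hmi
  exact h2 k hk m (h.memT hm) (((hK' k hk).2.2.2.2.1 m (h.memW hm) hmK).1 hmi hmj)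

/-- good quads lift -/
lemma liftQ (hA : Gr A) (h : Sub A σ W U ρ) {e₁ m₁ m₂ e₂ : V} (hg : GoodQ A σ (ρ '' U) ∅ e₁ m₁ m₂ e₂) :
    GoodQ A σ W O e₁ m₁ m₂ e₂ := by
  obtain ⟨hq, hnd⟩ := hg
  have u1 := h.memT hq.h1
  have u2 := h.memT hq.h2
  have u3 := h.memT hq.h3
  have u4 := h.memT hq.h4
  have f1 := h.fix hq.h1
  have f2 := h.fix hq.h2
  have f3 := h.fix hq.h3
  have f4 := h.fix hq.h4
  refine ⟨⟨h.memW hq.h1, h.memW hq.h2, h.memW hq.h3, h.memW hq.h4, hq.a12, hq.a23, hq.a34,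
    hq.n13, hq.n14, hq.n24, hq.d13, hq.d14, hq.d24, hq.s1, hq.s2, hq.s3, hq.s4⟩, ?_⟩
  rintro K ⟨⟨k₀, hk₀⟩, hKW, hK⟩
  have hKU : ∀ k ∈ K, k ∈ U := by
    intro k hk
    by_contra hkU
    obtain ⟨-, x, hx, -⟩ := hK k hk
    rcases h.mod.2 k (hKW hk) hkU with h' | h'
    · have b1 := h' _ u1
      have b2 := h' _ u2
      have b3 := h' _ u3
      have b4 := h' _ u4
      simp [OddT, b1, b2, b3, b4] at hx
    · have b1 := h' _ u1
      have b2 := h' _ u2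
      have b3 := h' _ u3
      have b4 := h' _ u4
      simp [OddT, b1, b2, b3, b4] at hx
  refine hnd {τ | τ ∈ ρ '' U ∧ ∃ k ∈ K, k ∈ U ∧ ρ k = τ}
    ⟨⟨ρ k₀, ⟨k₀, hKU k₀ hk₀, rfl⟩, k₀, hk₀, hKU k₀ hk₀, rfl⟩, fun τ hτ => hτ.1, ?_⟩
  rintro τ ⟨hτ, k, hk, hkU, rfl⟩
  obtain ⟨⟨o1, o2, o3, o4⟩, x, hx, h5, -⟩ := hK k hk
  -- adjacency of `k` to a vertex of the quad not equal to `ρ k`
  have tr : ∀ t ∈ U, ρ t = t → ρ k ≠ t → (A k t ↔ A (ρ k) t) := by
    intro t ht hft hne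
    have := h.adj k hkU t ht (by rw [hft]; exact hne)
    rwa [hft] at this
  have rp : ∀ t, k ≠ t → ρ k = t → (A k t ↔ σ t = false) := by
    intro t hkt he
    have := h.rep k hkU (by rw [he]; exact hkt)
    rwa [he] at this
  have n12 : e₁ ≠ m₁ := by rintro rfl; exact hA.irr _ hq.a12
  have n23 : m₁ ≠ m₂ := by rintro rfl; exact hA.irr _ hq.a23
  have n34 : m₂ ≠ e₂ := by rintro rfl; exact hA.irr _ hq.a34
  have e1 : ρ k ≠ e₁ := by
    intro e
    have c1 := rp e₁ o1 e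
    have c2 := tr m₁ u2 f2 (by rw [e]; exact n12)
    have c3 := tr m₂ u3 f3 (by rw [e]; exact hq.d13)
    have c4 := tr e₂ u4 f4 (by rw [e]; exact hq.d14)
    rw [e] at c2 c3 c4
    have b1 : ¬ A k e₁ := by rw [c1, hq.s1]; simp
    have b2 : A k m₁ := c2.2 hq.a12
    have b3 : ¬ A k m₂ := fun h' => hq.n13 (c3.1 h')
    have b4 : ¬ A k e₂ := fun h' => hq.n14 (c4.1 h')
    simp [OddT, b1, b2, b3, b4] at hx
  have e2 : ρ k ≠ m₁ := by
    intro e
    have c2 := rp m₁ o2 e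
    have c1 := tr e₁ u1 f1 (by rw [e]; exact n12.symm)
    have c3 := tr m₂ u3 f3 (by rw [e]; exact n23)
    have c4 := tr e₂ u4 f4 (by rw [e]; exact hq.d24)
    rw [e] at c1 c3 c4
    have b1 : A k e₁ := c1.2 (hA.symm _ _ hq.a12)
    have b2 : A k m₁ := c2.2 hq.s2
    have b3 : A k m₂ := c3.2 hq.a23
    have b4 : ¬ A k e₂ := fun h' => hq.n24 (c4.1 h')
    simp [OddT, b1, b2, b3, b4] at hx
  have e3 : ρ k ≠ m₂ := by
    intro e
    have c3 := rp m₂ o3 e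
    have c1 := tr e₁ u1 f1 (by rw [e]; exact hq.d13.symm)
    have c2 := tr m₁ u2 f2 (by rw [e]; exact n23.symm)
    have c4 := tr e₂ u4 f4 (by rw [e]; exact n34)
    rw [e] at c1 c2 c4
    have b1 : ¬ A k e₁ := fun h' => hq.n13 (hA.symm _ _ (c1.1 h'))
    have b2 : A k m₁ := c2.2 (hA.symm _ _ hq.a23)
    have b3 : A k m₂ := c3.2 hq.s3
    have b4 : A k e₂ := c4.2 hq.a34
    simp [OddT, b1, b2, b3, b4] at hx
  have e4 : ρ k ≠ e₂ := by
    intro e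
    have c4 := rp e₂ o4 e
    have c1 := tr e₁ u1 f1 (by rw [e]; exact hq.d14.symm)
    have c2 := tr m₁ u2 f2 (by rw [e]; exact hq.d24.symm)
    have c3 := tr m₂ u3 f3 (by rw [e]; exact n34.symm)
    rw [e] at c1 c2 c3
    have b1 : ¬ A k e₁ := fun h' => hq.n14 (hA.symm _ _ (c1.1 h'))
    have b2 : ¬ A k m₁ := fun h' => hq.n24 (hA.symm _ _ (c2.1 h'))
    have b3 : A k m₂ := c3.2 (hA.symm _ _ hq.a34)
    have b4 : ¬ A k e₂ := by rw [c4, hq.s4]; simp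
    simp [OddT, b1, b2, b3, b4] at hx
  have hodd : OddT A e₁ m₁ m₂ e₂ (ρ k) x := by
    have c1 := tr e₁ u1 f1 e1
    have c2 := tr m₁ u2 f2 e2
    have c3 := tr m₂ u3 f3 e3
    have c4 := tr e₂ u4 f4 e4
    unfold OddT at hx ⊢
    rw [← c1, ← c2, ← c3, ← c4]
    exact hx
  refine ⟨⟨e1, e2, e3, e4⟩, x, hodd, ?_, fun o ho => absurd ho (by simp)⟩
  intro y hy hyn hyo hyh
  have hyU := h.memT hy
  have hfy := h.fix hy
  have hyK : y ∉ K := fun h' => hyn ⟨hy, y, h', hyU, hfy⟩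
  have hne : ρ k ≠ y := fun e => hyn ⟨hy, k, hk, hkU, e⟩
  rw [← tr y hyU hfy hne]
  exact h5 y (h.mod.1 hyU) hyK hyo hyh

lemma liftQ_link (h : Sub A σ W U ρ) {e₁ m₁ m₂ e₂ : V} (hl : LinkQ A (ρ '' U) e₁ m₁ m₂ e₂) :
    LinkQ A W e₁ m₁ m₂ e₂ := by
  obtain ⟨w, hw, h1, h2⟩ := hl
  exact ⟨w, h.memW hw, h1, h2⟩

lemma lift_LG (hA : Gr A) (h : Sub A σ W U ρ) {c : Kd} (hl : LG A σ (ρ '' U)) :
    CG A σ W O c := by
  rcases hl with ⟨i, j, h1, h2⟩ | ⟨i, j, h1, h2⟩ | ⟨e₁, m₁, m₂, e₂, h1, h2⟩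
  · obtain ⟨h3, h4⟩ := lift0_link (O := O) hA h h1 h2
    exact Or.inl ⟨i, j, h3, fun _ => h4⟩
  · obtain ⟨h3, h4⟩ := lift0_link (O := O) (co_gr hA) (sub_co h) h1 h2
    exact Or.inr (Or.inl ⟨i, j, h3, fun _ => h4⟩)
  · exact Or.inr (Or.inr ⟨e₁, m₁, m₂, e₂, liftQ hA h h1, fun _ => liftQ_link h h2⟩)

lemma lift_ZO (hA : Gr A) (h : Sub A σ W U ρ) {c : Kd} (h0 : GZ A σ (ρ '' U))
    (h1 : GZ (co A) (cs σ) (ρ '' U)) : CG A σ W O c := by
  obtain ⟨i, j, hg⟩ := h0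
  obtain ⟨i', j', hg'⟩ := h1
  have hiU := h.memT hg.1.hi
  have hjU := h.memT hg.1.hj
  have hiU' := h.memT hg'.1.hi
  have hjU' := h.memT hg'.1.hj
  have hp := lift_pair h hg.1
  have hp' := lift_pair (sub_co h) hg'.1
  by_cases hK0 : ∃ K, Det0 A W O i j K
  · -- `{i', j'}` is good and linked
    obtain ⟨K, hK⟩ := hK0
    obtain ⟨a1, a2, a3⟩ := lift0_det hA h hg hK
    obtain ⟨⟨k, hk⟩, hKW, -⟩ := hK
    have hkU : k ∉ U := Set.disjoint_left.1 a1 hk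
    refine Or.inr (Or.inl ⟨i', j', ⟨hp', fun K' hK' => ?_⟩, fun _ => ⟨k, hKW hk, ?_, ?_⟩⟩)
    · obtain ⟨b1, b2, b3⟩ := lift0_det (co_gr hA) (sub_co h) hg' hK'
      obtain ⟨⟨k', hk'⟩, hKW', -⟩ := hK'
      have hkU' : k' ∉ U := Set.disjoint_left.1 b1 hk'
      have hk'c : ∀ u ∈ U, A k' u := by
        intro u hu
        by_contra hn
        exact b2 k' hk' u hu ⟨fun e => hkU' (e ▸ hu), hn⟩
      have hkK' : k ∉ K' := by
        intro hkK'
        exact b2 k hkK' i hiU ⟨fun e => hkU (e ▸ hiU), a2 k hk i hiU⟩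
      have hk'K : k' ∉ K := fun hk'K => a2 k' hk'K i hiU (hk'c i hiU)
      have b3' := (isMod_co hA).1 b3
      rcases b3'.2 k (hKW hk) (fun h' => h'.elim hkU hkK') with h' | h'
      · exact a2 k hk i hiU (h' i (Or.inl hiU))
      · rcases a3.2 k' (hKW' hk') (fun h' => h'.elim hkU' hk'K) with h'' | h''
        · exact h' k' (Or.inr hk') (hA.symm _ _ (h'' k (Or.inr hk)))
        · exact h'' i (Or.inl hiU) (hk'c i hiU)
    · exact ⟨fun e => hkU (e ▸ hiU'), a2 k hk i' hiU'⟩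
    · exact ⟨fun e => hkU (e ▸ hjU'), a2 k hk j' hjU'⟩
  · push Not at hK0
    by_cases hl : c = Kd.Z → Link0 A W i j
    · exact Or.inl ⟨i, j, ⟨hp, hK0⟩, hl⟩
    · push Not at hl
      obtain ⟨rfl, hl⟩ := hl
      refine Or.inr (Or.inl ⟨i', j', ⟨hp', fun K' hK' => ?_⟩, fun h' => by simp at h'⟩)
      obtain ⟨b1, b2, -⟩ := lift0_det (co_gr hA) (sub_co h) hg' hK'
      obtain ⟨⟨k', hk'⟩, hKW', -⟩ := hK'
      have hkU' : k' ∉ U := Set.disjoint_left.1 b1 hk'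
      have hk'c : ∀ u ∈ U, A k' u := by
        intro u hu
        by_contra hn
        exact b2 k' hk' u hu ⟨fun e => hkU' (e ▸ hu), hn⟩
      exact hl ⟨k', hKW' hk', hk'c i hiU, hk'c j hjU⟩

/-- a good quad in the transversal: lifts, or we are in the exceptional case -/
lemma lift_P (hA : Gr A) (h : Sub A σ W U ρ) [Finite V] {c : Kd} (hp : GP A σ (ρ '' U))
    (h4 : (ρ '' U).ncard = 4) :
    CG A σ W O c ∨ (c = Kd.P ∧ U = W ∧ Exc A σ W) := by
  obtain ⟨e₁, m₁, m₂, e₂, hg⟩ := hp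
  have hgW := liftQ (O := O) hA h hg
  by_cases hl : c = Kd.P → LinkQ A W e₁ m₁ m₂ e₂
  · exact Or.inl (Or.inr (Or.inr ⟨e₁, m₁, m₂, e₂, hgW, hl⟩))
  · push Not at hl
    obtain ⟨hc, hl⟩ := hl
    right
    have hq := hg.1
    have hUW : U = W := by
      by_contra hne
      obtain ⟨w, hw, hwU⟩ : ∃ w ∈ W, w ∉ U := by
        by_contra h'
        push Not at h'
        exact hne (Set.Subset.antisymm h.mod.1 h')
      apply hl
      have u1 := h.memT hq.h1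
      have u2 := h.memT hq.h2
      have u3 := h.memT hq.h3
      have u4 := h.memT hq.h4
      refine ⟨w, hw, ⟨?_, ?_, ?_, ?_⟩, ?_⟩
      · rintro rfl; exact hwU u1
      · rintro rfl; exact hwU u2
      · rintro rfl; exact hwU u3
      · rintro rfl; exact hwU u4
      · rcases h.mod.2 w hw hwU with h' | h'
        · exact ⟨iff_of_true (h' _ u1) (h' _ u4), iff_of_true (h' _ u2) (h' _ u3)⟩
        · exact ⟨iff_of_false (h' _ u1) (h' _ u4), iff_of_false (h' _ u2) (h' _ u3)⟩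
    subst hUW
    refine ⟨hc, rfl, e₁, m₁, m₂, e₂, ρ, hgW.1, ?_, h.fix hq.h1, h.fix hq.h2, h.fix hq.h3,
      h.fix hq.h4, h.adj, h.rep⟩
    have n12 : e₁ ≠ m₁ := by rintro rfl; exact hA.irr _ hq.a12
    have n23 : m₁ ≠ m₂ := by rintro rfl; exact hA.irr _ hq.a23
    have n34 : m₂ ≠ e₂ := by rintro rfl; exact hA.irr _ hq.a34
    have hsub : ({e₁, m₁, m₂, e₂} : Set V) ⊆ ρ '' U := by
      intro x hx
      simp only [Set.mem_insert_iff, Set.mem_singleton_iff] at hx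
      rcases hx with rfl | rfl | rfl | rfl
      · exact hq.h1
      · exact hq.h2
      · exact hq.h3
      · exact hq.h4
    have hcard : ({e₁, m₁, m₂, e₂} : Set V).ncard = 4 := by
      rw [Set.ncard_eq_succ (Set.toFinite _)]
      refine ⟨e₁, {m₁, m₂, e₂}, ?_, rfl, ?_⟩
      · simp [n12, hq.d13, hq.d14]
      · rw [Set.ncard_eq_succ (Set.toFinite _)]
        refine ⟨m₁, {m₂, e₂}, ?_, rfl, ?_⟩
        · simp [n23, hq.d24]
        · exact Set.ncard_pair n34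
    have heq : ({e₁, m₁, m₂, e₂} : Set V) = ρ '' U :=
      Set.eq_of_subset_of_ncard_le hsub (by rw [h4, hcard]) (Set.toFinite _)
    intro v hv
    have : ρ v ∈ ({e₁, m₁, m₂, e₂} : Set V) := by
      rw [heq]; exact ⟨v, hv, rfl⟩
    simpa using this

lemma mod_trans {C : Set V} (hU : IsMod A W U) (hC : IsMod A U C) : IsMod A W C := by
  refine ⟨hC.1.trans hU.1, fun z hz hzC => ?_⟩
  by_cases hzU : z ∈ U
  · exact hC.2 z hzU hzC
  · rcases hU.2 z hz hzU with h | h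
    · exact Or.inl fun u hu => h u (hC.1 hu)
    · exact Or.inr fun u hu => h u (hC.1 hu)

lemma mod_restrict {C : Set V} (hUW : U ⊆ W) (hC : IsMod A W C) (hCU : C ⊆ U) : IsMod A U C :=
  ⟨hCU, fun z hz hzC => hC.2 z (hUW hz) hzC⟩

/-- maximal proper modules of a connected graph are tight -/
lemma max_tight (hA : Gr A) (hU : IsMod A W U) (hd : ¬ Disc A U) {C : Set V} (hC : IsMod A U C)
    (hCU : C ≠ U) (hCn : C.Nonempty) (hmax : ∀ D, IsMod A U D → C ⊆ D → D = C ∨ D = U) :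
    Tight A W C := by
  rintro K ⟨k, hk⟩ hKW hKC hKa hm
  obtain ⟨u₀, hu₀, hu₀C⟩ : ∃ u ∈ U, u ∉ C := by
    by_contra h'
    push Not at h'
    exact hCU (Set.Subset.antisymm hC.1 h')
  by_cases hKU : K ⊆ U
  · have hm' : IsMod A U (C ∪ K) := mod_restrict hU.1 hm (Set.union_subset hC.1 hKU)
    rcases hmax _ hm' Set.subset_union_left with h | h
    · exact Set.disjoint_left.1 hKC hk (h ▸ Or.inr hk)
    · apply hd
      refine ⟨C, hC.1, hCn, ⟨u₀, hu₀, hu₀C⟩, fun x hx y hy hyC h' => ?_⟩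
      rw [← h] at hy
      rcases hy with hy | hy
      · exact hyC hy
      · exact hKa y hy x hx (hA.symm _ _ h')
  · obtain ⟨k', hk', hk'U⟩ := Set.not_subset.1 hKU
    obtain ⟨c, hc⟩ := hCn
    have hk'a : ∀ u ∈ U, ¬ A k' u := by
      rcases hU.2 k' (hKW hk') hk'U with h | h
      · exact absurd (h c (hC.1 hc)) (hKa k' hk' c hc)
      · exact h
    apply hd
    refine ⟨C, hC.1, ⟨c, hc⟩, ⟨u₀, hu₀, hu₀C⟩, fun x hx y hy hyC h' => ?_⟩
    by_cases hyK : y ∈ K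
    · exact hKa y hyK x hx (hA.symm _ _ h')
    · rcases hm.2 y (hU.1 hy) (fun h => h.elim hyC hyK) with h | h
      · exact hk'a y hy (hA.symm _ _ (h k' (Or.inr hk')))
      · exact h x (Or.inl hx) (hA.symm _ _ h')

theorem prime_elim_aux [Finite V] {c : Kd} (hA : Gr A) (hsep : Sep A W O) (hno : ¬ CG A σ W O c)
    (hT1 : ∀ T ⊆ W, Prime A T → 4 ≤ T.ncard → T1w A σ T ∧ (5 ≤ T.ncard → T1s A σ T)) (n : ℕ) :
    ∀ Q, Q.ncard ≤ n → IsMod A W Q → Q.Nontrivial →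
      Disc A Q ∨ Disc (co A) Q ∨ (c = Kd.P ∧ Q = W ∧ Exc A σ W) := by
  induction n with
  | zero =>
    intro Q hn _ hnt
    obtain ⟨x, hx, -⟩ := hnt
    have : Q = ∅ := (Set.ncard_eq_zero (Set.toFinite _)).1 (Nat.le_zero.1 hn)
    rw [this] at hx
    exact hx.elim
  | succ n ih =>
    intro U hn hU hnt
    by_contra hcon
    push Not at hcon
    obtain ⟨hd, hcd, hexc⟩ := hcon
    have hdeg : ∀ C, IsMod A U C → C ≠ U → Deg A W C := by
      intro C hC hCU Q' hQ' hm hn'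
      have hlt : Q'.ncard < U.ncard := lt_of_le_of_lt (Set.ncard_le_ncard hQ' (Set.toFinite _))
        (Set.ncard_lt_ncard (Set.ssubset_iff_subset_ne.2 ⟨hC.1, hCU⟩) (Set.toFinite _))
      rcases ih Q' (by omega) hm hn' with h | h | ⟨-, h, -⟩
      · exact Or.inl h
      · exact Or.inr h
      · exfalso
        have : U.ncard ≤ Q'.ncard := by
          rw [h]; exact Set.ncard_le_ncard hU.1 (Set.toFinite _)
        omega
    obtain ⟨ρ, r1, r2, r3, r4, hpr, h4⟩ := transversal (σ := σ) hA hnt hd hcd (by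
      intro C hC hCU hCn hmax
      have hCW : C ≠ W := fun h => hCU (Set.Subset.antisymm hC.1 (h ▸ hU.1))
      have hCm := mod_trans hU hC
      rcases hdeg C hC hCU C Set.Subset.rfl hCm hCn with h | h
      · obtain ⟨v, hv, h1, h2⟩ := core hA hsep hno hCm (hdeg C hC hCU) h
          (max_tight hA hU hd hC hCU hCn.nonempty hmax) (fun _ => hCW)
        refine ⟨v, hv, fun u hu _ => ?_⟩
        rw [h1]
        exact iff_of_false (fun h' => h2 u hu (hA.symm _ _ h')) (by simp)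
      · obtain ⟨v, hv, h1, h2⟩ := core' hA hsep hno hCm (hdeg C hC hCU) h
          (max_tight (co_gr hA) (isMod_co_aux hU) hcd (isMod_co_aux hC) hCU hCn.nonempty
            (fun D hD hCD => hmax D ((isMod_co hA).1 hD) hCD)) (fun _ => hCW)
        refine ⟨v, hv, fun u hu huv => ?_⟩
        exact iff_of_true (hA.symm _ _ (h2 u hu huv)) h1)
    have hS : Sub A σ W U ρ := ⟨hU, r1, r2, r3, r4⟩
    have hTW : ρ '' U ⊆ W := fun t ht => hS.memW ht
    obtain ⟨hw, hs⟩ := hT1 _ hTW hpr h4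
    by_cases h5 : 5 ≤ (ρ '' U).ncard
    · rcases hs h5 with h | ⟨h0, h1⟩
      · exact hno (lift_LG hA hS h)
      · exact hno (lift_ZO hA hS h0 h1)
    · rcases hw with h | h | ⟨h0, h1⟩
      · exact hno (lift_LG hA hS h)
      · rcases lift_P (O := O) (c := c) hA hS h (by omega) with h' | ⟨h1, h2, h3⟩
        · exact hno h'
        · exact hexc h1 h2 h3
      · exact hno (lift_ZO hA hS h0 h1)

/-- **CL (1).** -/
theorem prime_elim [Finite V] {c : Kd} (hA : Gr A) (hsep : Sep A W O) (hno : ¬ CG A σ W O c)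
    (hT1 : ∀ T ⊆ W, Prime A T → 4 ≤ T.ncard → T1w A σ T ∧ (5 ≤ T.ncard → T1s A σ T))
    {Q : Set V} (hQ : IsMod A W Q) (hn : Q.Nontrivial) :
    Disc A Q ∨ Disc (co A) Q ∨ (c = Kd.P ∧ Q = W ∧ Exc A σ W) :=
  prime_elim_aux hA hsep hno hT1 Q.ncard Q le_rfl hQ hn

end Pool.Agent.GDT
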