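import Pool.Agent.GDT.LIFT

set_option autoImplicit false

/-! Links of a prime graph without linked good sets. -/

namespace Pool.Agent.GDT

variable {V : Type*} {A : V → V → Prop} {σ : V → Bool} {S : Set V} {p : V}

/-- the outside vertices as observers of the link of `p` -/
def outs (A : V → V → Prop) (S : Set V) (p : V) (ε : Bool) : Set (Set V) :=
  {o | ∃ y ∈ S, y ≠ p ∧ y ∉ lnk A S p ε ∧ o = {v | A v y}}

lemma mem_nbr {z : V} : z ∈ lnk A S p true ↔ z ∈ S ∧ z ≠ p ∧ A p z := by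
  constructor
  · rintro ⟨h1, h2, h3⟩; exact ⟨h1, h2, h3.2 rfl⟩
  · rintro ⟨h1, h2, h3⟩; exact ⟨h1, h2, iff_of_true h3 rfl⟩

lemma mem_non {z : V} : z ∈ lnk A S p false ↔ z ∈ S ∧ z ≠ p ∧ ¬ A p z := by
  constructor
  · rintro ⟨h1, h2, h3⟩; exact ⟨h1, h2, fun h => by simpa using h3.1 h⟩
  · rintro ⟨h1, h2, h3⟩; exact ⟨h1, h2, iff_of_false h3 (by simp)⟩

lemma sep_link (hA : Gr A) (hS : Prime A S) (hp : p ∈ S) :
    Sep A (lnk A S p true) (outs A S p true) := by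
  intro U hU hn
  by_contra hcon
  push Not at hcon
  have hpU : p ∉ U := fun h => (hU.1 h).2.1 rfl
  have hm : IsMod A S U := by
    refine ⟨hU.1.trans lnk_sub, fun z hz hzU => ?_⟩
    by_cases hzp : z = p
    · subst hzp
      exact Or.inl fun u hu => (mem_nbr.1 (hU.1 hu)).2.2
    by_cases hzW : z ∈ lnk A S p true
    · exact hU.2 z hzW hzU
    · by_cases hex : ∃ u ∈ U, A z u
      · left
        intro u' hu'
        obtain ⟨u, hu, hzu⟩ := hex
        have := hcon {v | A v z} ⟨z, hz, hzp, hzW, rfl⟩ u hu u' hu' (hA.symm _ _ hzu)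
        exact hA.symm _ _ this
      · push Not at hex
        exact Or.inr hex
  rcases hS U hm with h | h
  · exact Set.not_subsingleton_iff.2 hn h
  · exact hpU (h ▸ hp)

/-- a `O`-good set in the neighbourhood of `p` is a linked good set -/
lemma CG_link (hA : Gr A) (hp : p ∈ S)
    (h : CG A σ (lnk A S p true) (outs A S p true) Kd.O) : LG A σ S := by
  have hs := hA.symm
  have hsub : lnk A S p true ⊆ S := lnk_sub
  rcases h with ⟨i, j, ⟨hg, hnd⟩, -⟩ | ⟨i, j, ⟨hg, hnd⟩, hl⟩ | ⟨e₁, m₁, m₂, e₂, ⟨hg, hnd⟩, -⟩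
  · left
    have hpi : A p i := (mem_nbr.1 hg.hi).2.2
    have hpj : A p j := (mem_nbr.1 hg.hj).2.2
    refine ⟨i, j, ⟨⟨hsub hg.hi, hsub hg.hj, hg.ne, hg.nadj, hg.si, hg.sj⟩, ?_⟩, p, hp, hpi, hpj⟩
    rintro K ⟨hKn, hKS, hK⟩
    have hpK : p ∉ K := fun h => (hK p h).2.2.1 hpi
    have hKW : K ⊆ lnk A S p true := by
      intro k hk
      have := ((hK k hk).2.2.2.2.1 p hp hpK).1 hpi hpj
      exact mem_nbr.2 ⟨hKS hk, fun e => hpK (e ▸ hk), hs _ _ this⟩
    refine hnd K ⟨hKn, hKW, fun k hk => ?_⟩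
    obtain ⟨h1, h2, h3, h4, h5, -⟩ := hK k hk
    refine ⟨h1, h2, h3, h4, fun y hy hyK => h5 y (hsub hy) hyK, ?_⟩
    rintro o ⟨y, hy, hyp, hyW, rfl⟩ hij
    have hyK : y ∉ K := fun h => hyW (hKW h)
    simp only [Set.mem_ofPred_eq] at hij ⊢
    have h6 := h5 y hy hyK
    by_cases hiy : A i y
    · exact iff_of_true (h6.1 (hs _ _ hiy) (hs _ _ (hij.1 hiy))) hiy
    · exact iff_of_false (h6.2 (fun h => hiy (hs _ _ h)) (fun h => hiy (hij.2 (hs _ _ h)))) hiy
  · right; left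
    obtain ⟨w, hw, hwi, hwj⟩ := hl rfl
    refine ⟨i, j, ⟨⟨hsub hg.hi, hsub hg.hj, hg.ne, hg.nadj, hg.si, hg.sj⟩, ?_⟩,
      w, hsub hw, hwi, hwj⟩
    rintro K ⟨hKn, hKS, hK⟩
    have hpi : A p i := (mem_nbr.1 hg.hi).2.2
    have hpj : A p j := (mem_nbr.1 hg.hj).2.2
    have hwK : w ∉ K := fun h => (hK w h).2.2.1 hwi
    have hpK : p ∉ K := by
      intro h
      have := ((hK p h).2.2.2.2.1 w (hsub hw) hwK).1 hwi hwj
      exact this.2 (mem_nbr.1 hw).2.2
    have hKW : K ⊆ lnk A S p true := by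
      intro k hk
      have := ((hK k hk).2.2.2.2.1 p hp hpK).2 (fun h => h.2 hpi) (fun h => h.2 hpj)
      have hkp : k ≠ p := fun e => hpK (e ▸ hk)
      refine mem_nbr.2 ⟨hKS hk, hkp, ?_⟩
      by_contra hn
      exact this ⟨hkp, fun h => hn (hs _ _ h)⟩
    refine hnd K ⟨hKn, hKW, fun k hk => ?_⟩
    obtain ⟨h1, h2, h3, h4, h5, -⟩ := hK k hk
    refine ⟨h1, h2, h3, h4, fun y hy hyK => h5 y (hsub hy) hyK, ?_⟩
    rintro o ⟨y, hy, hyp, hyW, rfl⟩ hij
    have hyK : y ∉ K := fun h => hyW (hKW h)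
    have hky : k ≠ y := fun e => hyK (e ▸ hk)
    have hyi : y ≠ i := fun e => hyW (e ▸ hg.hi)
    have hyj : y ≠ j := fun e => hyW (e ▸ hg.hj)
    simp only [Set.mem_ofPred_eq] at hij ⊢
    have h6 := h5 y hy hyK
    by_cases hiy : A i y
    · refine iff_of_true ?_ hiy
      by_contra hn
      exact h6.2 (fun h => h.2 (hs _ _ hiy)) (fun h => h.2 (hs _ _ (hij.1 hiy))) ⟨hky, hn⟩
    · refine iff_of_false ?_ hiy
      exact (h6.1 ⟨hyi, fun h => hiy (hs _ _ h)⟩ ⟨hyj, fun h => hiy (hij.2 (hs _ _ h))⟩).2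
  · right; right
    have p1 := mem_nbr.1 hg.h1
    have p2 := mem_nbr.1 hg.h2
    have p3 := mem_nbr.1 hg.h3
    have p4 := mem_nbr.1 hg.h4
    have hpoff : Off e₁ m₁ m₂ e₂ p := ⟨p1.2.1.symm, p2.2.1.symm, p3.2.1.symm, p4.2.1.symm⟩
    refine ⟨e₁, m₁, m₂, e₂, ⟨⟨hsub hg.h1, hsub hg.h2, hsub hg.h3, hsub hg.h4, hg.a12, hg.a23,
      hg.a34, hg.n13, hg.n14, hg.n24, hg.d13, hg.d14, hg.d24, hg.s1, hg.s2, hg.s3, hg.s4⟩, ?_⟩,
      p, hp, hpoff, iff_of_true p1.2.2 p4.2.2, iff_of_true p2.2.2 p3.2.2⟩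
    have hphub : HubQ A e₁ m₁ m₂ e₂ p :=
      iff_of_true (iff_of_true p1.2.2 p4.2.2) (iff_of_true p2.2.2 p3.2.2)
    rintro K ⟨hKn, hKS, hK⟩
    have hpK : p ∉ K := by
      intro h
      obtain ⟨-, x, hx, -⟩ := hK p h
      simp [OddT, p1.2.2, p2.2.2, p3.2.2, p4.2.2] at hx
    have hKW : K ⊆ lnk A S p true := by
      intro k hk
      obtain ⟨-, x, hx, hy, -⟩ := hK k hk
      have h1 := hy p hp hpK hpoff hphub
      have hpx : A p x := by
        rcases oddT_mem hx with rfl | rfl | rfl | rfl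
        · exact p1.2.2
        · exact p2.2.2
        · exact p3.2.2
        · exact p4.2.2
      exact mem_nbr.2 ⟨hKS hk, fun e => hpK (e ▸ hk), hs _ _ (h1.2 hpx)⟩
    refine hnd K ⟨hKn, hKW, fun k hk => ?_⟩
    obtain ⟨ho, x, hx, hy, -⟩ := hK k hk
    refine ⟨ho, x, hx, fun y hyW hyK => hy y (hsub hyW) hyK, ?_⟩
    rintro o ⟨y, hyS, hyp, hyW, rfl⟩ hob
    have hyK : y ∉ K := fun h => hyW (hKW h)
    have hyo : Off e₁ m₁ m₂ e₂ y := by
      refine ⟨?_, ?_, ?_, ?_⟩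
      · rintro rfl; exact hyW hg.h1
      · rintro rfl; exact hyW hg.h2
      · rintro rfl; exact hyW hg.h3
      · rintro rfl; exact hyW hg.h4
    have hcomm : ∀ a b, A a b ↔ A b a := fun a b => ⟨hs a b, hs b a⟩
    have hyh : HubQ A e₁ m₁ m₂ e₂ y := by
      unfold HubOQ at hob
      simp only [Set.mem_ofPred_eq] at hob
      unfold HubQ
      rw [hcomm y e₁, hcomm y e₂, hcomm y m₁, hcomm y m₂]
      exact hob
    simp only [Set.mem_ofPred_eq]
    rw [hy y hyS hyK hyo hyh, hcomm]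

variable [Finite V]

set_option linter.unusedSectionVars false

/-- T1 for the proper subsets -/
def T1below (A : V → V → Prop) (σ : V → Bool) (S : Set V) : Prop :=
  ∀ T ⊆ S, T ≠ S → Prime A T → 4 ≤ T.ncard → T1w A σ T ∧ (5 ≤ T.ncard → T1s A σ T)

lemma deg_link (hA : Gr A) (hS : Prime A S) (hp : p ∈ S) (hno : ¬ LG A σ S)
    (hT : T1below A σ S) : Deg A (lnk A S p true) (lnk A S p true) := by
  intro Q _ hQ hn
  rcases prime_elim hA (sep_link hA hS hp) (fun h => hno (CG_link hA hp h))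
    (fun T hT1 h1 h2 => hT T (hT1.trans lnk_sub) (by
      rintro rfl
      exact (hT1 hp).2.1 rfl) h1 h2) hQ hn with h | h | ⟨h, -⟩
  · exact Or.inl h
  · exact Or.inr h
  · cases h

lemma nbr_link (hA : Gr A) (hS : Prime A S) (hp : p ∈ S) (hno : ¬ LG A σ S)
    (hT : T1below A σ S) (U : Set V) (hU : U ⊆ lnk A S p true) (hn : U.Nontrivial)
    (hcd : ¬ Disc (co A) U) (hc : ∀ u ∈ U, ∀ w ∈ lnk A S p true, w ∉ U → A u w) :
    ∃ v ∈ U, σ v = true ∧ ∀ y ∈ U, ¬ A v y := by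
  have hdeg := deg_link hA hS hp hno hT
  have hm : IsMod A (lnk A S p true) U :=
    ⟨hU, fun z hz hzU => Or.inl fun u hu => hA.symm _ _ (hc u hu z hz hzU)⟩
  have hd : Disc A U := by
    rcases hdeg U hU hm hn with h | h
    · exact h
    · exact absurd h hcd
  refine core hA (sep_link hA hS hp) (fun h => hno (CG_link hA hp h)) hm (deg_mono hdeg hU) hd ?_
    (fun h => by cases h)
  rintro K ⟨k, hk⟩ hKW hKU hKa _
  obtain ⟨u, hu, -⟩ := hn
  exact hKa k hk u hu (hA.symm _ _ (hc u hu k (hKW hk) (Set.disjoint_left.1 hKU hk)))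

/-- no induced P4 in a set all of whose modules are degenerate -/
lemma noP4_aux (hA : Gr A) {W : Set V} (hdeg : Deg A W W) {a b c d : V}
    (hab : A a b) (hbc : A b c) (hcd : A c d) (nac : ¬ A a c) (nad : ¬ A a d) (nbd : ¬ A b d)
    (eac : a ≠ c) (ead : a ≠ d) (ebd : b ≠ d) (n : ℕ) :
    ∀ Q, Q.ncard ≤ n → IsMod A W Q → a ∈ Q → b ∈ Q → c ∈ Q → d ∈ Q → False := by
  have hs := hA.symm
  induction n with
  | zero =>
    intro Q hn _ ha _ _ _
    have : Q = ∅ := (Set.ncard_eq_zero (Set.toFinite _)).1 (Nat.le_zero.1 hn)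
    rw [this] at ha
    exact ha
  | succ n ih =>
    intro Q hn hQ ha hb hc hd
    have hnt : Q.Nontrivial := ⟨a, ha, b, hb, fun e => hA.irr b (by rw [e] at hab; exact hab)⟩
    rcases hdeg Q hQ.1 hQ hnt with ⟨C, hC, ⟨x, hx⟩, ⟨y, hy, hyC⟩, hno⟩ |
      ⟨C, hC, ⟨x, hx⟩, ⟨y, hy, hyC⟩, hno⟩
    · have hlt : C.ncard < Q.ncard := Set.ncard_lt_ncard
        (Set.ssubset_iff_subset_ne.2 ⟨hC, fun e => hyC (e ▸ hy)⟩) (Set.toFinite _)
      have hlt' : (Q \ C).ncard < Q.ncard := Set.ncard_lt_ncard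
        (Set.ssubset_iff_subset_ne.2 ⟨Set.sdiff_subset, fun e => by
          have : x ∈ Q \ C := (Set.ext_iff.1 e x).2 (hC hx)
          exact this.2 hx⟩) (Set.toFinite _)
      have hclo : Clo A Q C := ⟨hC, hno⟩
      have st : ∀ u ∈ Q, ∀ v ∈ Q, A u v → (u ∈ C ↔ v ∈ C) := by
        intro u hu v hv huv
        constructor
        · intro h; by_contra h'; exact hno u h v hv h' huv
        · intro h; by_contra h'; exact hno v h u hu h' (hs _ _ huv)
      by_cases haC : a ∈ C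
      · have hbC := (st a ha b hb hab).1 haC
        have hcC := (st b hb c hc hbc).1 hbC
        have hdC := (st c hc d hd hcd).1 hcC
        exact ih C (by omega) (clo_mod hA hQ hclo) haC hbC hcC hdC
      · have hbC : b ∉ C := fun h => haC ((st a ha b hb hab).2 h)
        have hcC : c ∉ C := fun h => hbC ((st b hb c hc hbc).2 h)
        have hdC : d ∉ C := fun h => hcC ((st c hc d hd hcd).2 h)
        exact ih (Q \ C) (by omega) (clo_mod hA hQ (clo_compl hA hclo)) ⟨ha, haC⟩ ⟨hb, hbC⟩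
          ⟨hc, hcC⟩ ⟨hd, hdC⟩
    · have hlt : C.ncard < Q.ncard := Set.ncard_lt_ncard
        (Set.ssubset_iff_subset_ne.2 ⟨hC, fun e => hyC (e ▸ hy)⟩) (Set.toFinite _)
      have hlt' : (Q \ C).ncard < Q.ncard := Set.ncard_lt_ncard
        (Set.ssubset_iff_subset_ne.2 ⟨Set.sdiff_subset, fun e => by
          have : x ∈ Q \ C := (Set.ext_iff.1 e x).2 (hC hx)
          exact this.2 hx⟩) (Set.toFinite _)
      have hclo : Clo (co A) Q C := ⟨hC, hno⟩
      have hQ' := isMod_co_aux hQ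
      have st : ∀ u ∈ Q, ∀ v ∈ Q, u ≠ v → ¬ A u v → (u ∈ C ↔ v ∈ C) := by
        intro u hu v hv hne huv
        constructor
        · intro h; by_contra h'; exact hno u h v hv h' ⟨hne, huv⟩
        · intro h; by_contra h'; exact hno v h u hu h' ⟨hne.symm, fun h => huv (hs _ _ h)⟩
      by_cases haC : a ∈ C
      · have hcC := (st a ha c hc eac nac).1 haC
        have hdC := (st a ha d hd ead nad).1 haC
        have hbC := (st b hb d hd ebd nbd).2 hdC
        exact ih C (by omega) ((isMod_co hA).1 (clo_mod (co_gr hA) hQ' hclo)) haC hbC hcC hdC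
      · have hcC : c ∉ C := fun h => haC ((st a ha c hc eac nac).2 h)
        have hdC : d ∉ C := fun h => haC ((st a ha d hd ead nad).2 h)
        have hbC : b ∉ C := fun h => hdC ((st b hb d hd ebd nbd).1 h)
        exact ih (Q \ C) (by omega)
          ((isMod_co hA).1 (clo_mod (co_gr hA) hQ' (clo_compl (co_gr hA) hclo))) ⟨ha, haC⟩
          ⟨hb, hbC⟩ ⟨hc, hcC⟩ ⟨hd, hdC⟩

lemma noP4_link (hA : Gr A) (hS : Prime A S) (hp : p ∈ S) (hno : ¬ LG A σ S)
    (hT : T1below A σ S) {a b c d : V} (ha : a ∈ lnk A S p true) (hb : b ∈ lnk A S p true)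
    (hc : c ∈ lnk A S p true) (hd : d ∈ lnk A S p true)
    (hab : A a b) (hbc : A b c) (hcd : A c d) (nac : ¬ A a c) (nad : ¬ A a d) (nbd : ¬ A b d)
    (eac : a ≠ c) (ead : a ≠ d) (ebd : b ≠ d) : False :=
  noP4_aux hA (deg_link hA hS hp hno hT) hab hbc hcd nac nad nbd eac ead ebd _ _ le_rfl
    ⟨Set.Subset.rfl, fun _ hz hzn => absurd hz hzn⟩ ha hb hc hd

lemma prime_co' (hA : Gr A) (h : Prime (co A) S) : Prime A S := by
  have := prime_co (co_gr hA) h
  rwa [co_co hA] at this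

lemma T1w_co (hA : Gr A) {T : Set V} (h : T1w A σ T) : T1w (co A) (cs σ) T := by
  rcases h with h | ⟨e₁, m₁, m₂, e₂, h⟩ | ⟨h1, h2⟩
  · exact Or.inl (LG_co_aux hA h)
  · exact Or.inr (Or.inl ⟨_, _, _, _, goodQ_co hA h⟩)
  · right; right
    rw [co_co hA, cs_cs]
    exact ⟨h2, h1⟩

lemma T1s_co (hA : Gr A) {T : Set V} (h : T1s A σ T) : T1s (co A) (cs σ) T := by
  rcases h with h | ⟨h1, h2⟩
  · exact Or.inl (LG_co_aux hA h)
  · right
    rw [co_co hA, cs_cs]
    exact ⟨h2, h1⟩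

lemma T1below_co (hA : Gr A) (h : T1below A σ S) : T1below (co A) (cs σ) S := by
  intro T hT hTS hP h4
  obtain ⟨h1, h2⟩ := h T hT hTS (prime_co' hA hP) h4
  exact ⟨T1w_co hA h1, fun h5 => T1s_co hA (h2 h5)⟩

lemma lnk_false_co : lnk A S p false = lnk (co A) S p true := (lnk_co (A := A) (S := S) (p := p)
  (ε := false)).symm

/-- the link properties -/
theorem links (hA : Gr A) (hS : Prime A S) (hno : ¬ LG A σ S) (hT : T1below A σ S) :
    Lk A σ S := by
  have hA' := co_gr hA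
  have hS' := prime_co hA hS
  have hno' : ¬ LG (co A) (cs σ) S := fun h => hno ((LG_co hA).1 h)
  have hT' := T1below_co hA hT
  refine ⟨?_, ?_, ?_⟩
  · intro p hp ε a ha b hb c hc d hd hab hbc hcd nac nad nbd eac ead ebd
    cases ε with
    | true => exact noP4_link hA hS hp hno hT ha hb hc hd hab hbc hcd nac nad nbd eac ead ebd
    | false =>
      rw [lnk_false_co] at ha hb hc hd
      -- complement path b - d - a - c
      have hs := hA.symm
      refine noP4_link hA' hS' hp hno' hT' hb hd ha hc ⟨ebd, nbd⟩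
        ⟨ead.symm, fun h => nad (hs _ _ h)⟩ ⟨eac, nac⟩ (fun h => h.2 (hs _ _ hab))
        (fun h => h.2 hbc) (fun h => h.2 (hs _ _ hcd)) ?_ ?_ ?_
      · rintro rfl; exact hA.irr _ hab
      · rintro rfl; exact hA.irr _ hbc
      · rintro rfl; exact hA.irr _ hcd
  · intro p hp U hU hn hcd hc
    exact nbr_link hA hS hp hno hT U hU hn hcd hc
  · intro p hp U hU hn hd hc
    rw [lnk_false_co] at hU hc
    obtain ⟨v, hv, h1, h2⟩ := nbr_link hA' hS' hp hno' hT' U hU hn (by rwa [co_co hA])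
      (fun u hu w hw hwU => ⟨fun e => hwU (e ▸ hu), hc u hu w hw hwU⟩)
    refine ⟨v, hv, by simpa [cs] using h1, fun y hy hyv => ?_⟩
    by_contra h
    exact h2 y hy ⟨hyv.symm, h⟩

end Pool.Agent.GDT
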